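import Pool.Agent.TSD.Defs

set_option autoImplicit false

namespace Pool.Agent.TSD

open MvPolynomial Finset

universe u v w

/-- **AdB** (adapted basis).  Over an algebraically closed field the space `L^N` has a basis (the
columns of `V`) of generalised eigenvectors of `Q`, with eigenvalues `v b`.

PROOF. Mathlib: `Module.End.iSup_maxGenEigenspace_eq_top` (algebraically closed, finite dimension) and
`Module.End.independent_maxGenEigenspace` give `DirectSum.IsInternal` of the family of the spaces
`Module.End.maxGenEigenspace (Matrix.toLin' Q) μ` (use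
`DirectSum.isInternal_submodule_of_iSupIndep_of_iSup_eq_top`).  Take bases of all the spaces and
collect them: `DirectSum.IsInternal.collectedBasis`; its index type `Σ μ, ι μ` is finite (it is the
index type of a basis of a finite dimensional space) with cardinal `N`, reindex it by `Fin N`.  The
eigenvalue of a member is its first component.  The matrix whose columns are the members of a basis is
invertible (`Basis.toMatrix` / `LinearIndependent` of the columns, e.g.
`Matrix.isUnit_iff_isUnit_det`, `Module.Basis.toMatrix` with `Pi.basisFun`).  Alternatively: choose for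
each member of the spanning set `⋃ μ, maxGenEigenspace μ` (it spans `⊤`) a basis contained in this set
(`Module.Basis.extend`, `exists_linearIndependent`, `Module.Basis.ofSpan`): every member of such a
basis lies in some generalised eigenspace; this avoids the direct sum.  The case `N = 0` is trivial.
-/
theorem adB {L : Type u} [Field L] [IsAlgClosed L] {N : ℕ} (Q : Matrix (Fin N) (Fin N) L) :
    ∃ (V : Matrix (Fin N) (Fin N) L) (v : Fin N → L), IsUnit V.det ∧
      ∀ b, (fun i => V i b) ∈ Module.End.maxGenEigenspace (Matrix.toLin' Q) (v b) := by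
  classical
  obtain ⟨f, hf⟩ : ∃ f : Module.End L (Fin N → L), f = Matrix.toLin' Q := ⟨_, rfl⟩
  rw [← hf]
  have hs : Submodule.span L (⋃ μ, (f.maxGenEigenspace μ : Set (Fin N → L))) = ⊤ := by
    rw [← Module.End.iSup_maxGenEigenspace_eq_top f, Submodule.iSup_eq_span]
  obtain ⟨b, hbs, hbspan, hli⟩ :=
    exists_linearIndependent L (⋃ μ, (f.maxGenEigenspace μ : Set (Fin N → L)))
  have hsp : ⊤ ≤ Submodule.span L (Set.range ((↑) : b → (Fin N → L))) := by
    rw [Subtype.range_coe, hbspan, hs]
  obtain ⟨B, hB⟩ : ∃ B : Module.Basis b L (Fin N → L), ∀ x, B x = x :=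
    ⟨Module.Basis.mk hli hsp, fun x => Module.Basis.mk_apply hli hsp x⟩
  obtain ⟨B', hB'⟩ : ∃ B' : Module.Basis (Fin N) L (Fin N → L), ∀ j, ∃ x : b, B' j = x :=
    ⟨B.reindex (B.indexEquiv (Pi.basisFun L (Fin N))), fun j =>
      ⟨(B.indexEquiv (Pi.basisFun L (Fin N))).symm j, by
        rw [Module.Basis.reindex_apply, hB]⟩⟩
  have hmem : ∀ j, ∃ μ, B' j ∈ f.maxGenEigenspace μ := by
    intro j
    obtain ⟨x, hx⟩ := hB' j
    have h1 := hbs x.2
    rw [Set.mem_iUnion] at h1
    obtain ⟨μ, hμ⟩ := h1
    exact ⟨μ, by rw [hx]; exact hμ⟩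
  choose v hv using hmem
  refine ⟨Matrix.of fun i j => B' j i, v, ?_, fun b => hv b⟩
  have h2 := (Pi.basisFun L (Fin N)).isUnit_det B'
  rw [Module.Basis.det_apply] at h2
  have h3 : (Matrix.of fun i j => B' j i) = (Pi.basisFun L (Fin N)).toMatrix B' := by
    ext i j
    simp [Module.Basis.toMatrix_apply]
  rw [h3]
  exact h2

end Pool.Agent.TSD
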