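import Pool.Agent.TSD.Defs

set_option autoImplicit false

namespace Pool.Agent.TSD

open MvPolynomial Finset

universe u v w

/-- **BlkM** (factorisation of the block matrix).

PROOF. Compare the entries `(i, j)`; `(A * Bᵀ) i j = ∑ l, A i l * B j l` with `A = aux p a0 Z (e_a)` and
`B = aux (cp p a0) a0 Zᵀ (e_b)`.  Note `p a0`, so `cp p a0 m ↔ ¬ (p m ∧ m ≠ a0)`, and `hZ` says:
`Z i m = 0` unless (`p i` and `p m`, `m ≠ a0`) or (`¬ p i` and `cp p a0 m`).
* `p i`: `A i l` is `e_a i` for `l = a0`, `Z i l` for `p l`, `l ≠ a0`, else `0`.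
  - `cp p a0 j`: `B j a0 = e_b j`, and for `p l`, `l ≠ a0` the entry `B j l` is `0` (`l ≠ a0` and not
    `cp p a0 l`).  So the sum is `e_a i * e_b j`, and `Z i j = 0`.
  - not `cp p a0 j`, i.e. `p j`, `j ≠ a0`: `B j l = [j = l]`; the sum is `A i j = Z i j`; and
    `(single a b 1) i j = 0` as `j ≠ b`.
* `¬ p i`: `A i l = [i = l]`, the sum is `B j i`:
  - `cp p a0 j`: `i ≠ a0`, `cp p a0 i`, so `B j i = Zᵀ j i = Z i j`; and `i ≠ a` so the entry of
    `single a b 1` is `0`.
  - not `cp p a0 j`: `B j i = [j = i] = 0` (`p j`, `¬ p i`), and `Z i j = 0`, `i ≠ a`. -/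
theorem blkM {S : Type u} [CommRing S] {ι : Type v} [DecidableEq ι] [Fintype ι] (p : ι → Prop)
    [DecidablePred p] (a0 : ι) (ha0 : p a0) (Z : Matrix ι ι S)
    (hZ : ∀ i m, Z i m ≠ 0 → (p i ↔ (p m ∧ m ≠ a0))) (a b : ι) (ha : p a) (hb : cp p a0 b) :
    Z + Matrix.single a b 1 = aux p a0 Z (Pi.single a 1) *
      (aux (cp p a0) a0 Z.transpose (Pi.single b 1)).transpose := by
  classical
  ext i j
  rw [Matrix.mul_apply]
  simp only [Matrix.transpose_apply, Matrix.add_apply]
  by_cases hi : p i
  · have hA : ∀ l, aux p a0 Z (Pi.single a 1) i l =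
        if l = a0 then (Pi.single a 1 : ι → S) i else if p l then Z i l else 0 := fun l => by
      simp only [aux, if_pos hi]
    by_cases hj : cp p a0 j
    · have hB : ∀ l, aux (cp p a0) a0 Z.transpose (Pi.single b 1) j l =
          if l = a0 then (Pi.single b 1 : ι → S) j
            else if cp p a0 l then Z l j else 0 := fun l => by
        simp only [aux, if_pos hj, Matrix.transpose_apply]
      have hz : Z i j = 0 := by
        by_contra h
        have h1 := (hZ i j h).1 hi
        rcases hj with hj | hj
        · exact hj h1.1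
        · exact h1.2 hj
      rw [hz, zero_add, Finset.sum_eq_single a0]
      · rw [hA, hB, if_pos rfl, if_pos rfl, Matrix.single_apply]
        by_cases h1 : i = a
        · by_cases h2 : j = b
          · subst h1; subst h2; simp
          · rw [Pi.single_eq_of_ne h2, mul_zero, if_neg fun h => h2 h.2.symm]
        · rw [Pi.single_eq_of_ne h1, zero_mul, if_neg fun h => h1 h.1.symm]
      · intro l _ hl
        rw [hA, hB, if_neg hl, if_neg hl]
        by_cases hpl : p l
        · rw [if_neg (c := cp p a0 l) (fun h => by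
            rcases h with h | h
            · exact h hpl
            · exact hl h), mul_zero]
        · rw [if_neg hpl, zero_mul]
      · intro h
        exact absurd (Finset.mem_univ _) h
    · have hj' : p j ∧ j ≠ a0 := by
        refine ⟨?_, fun h => hj (Or.inr h)⟩
        by_contra h
        exact hj (Or.inl h)
      have hB : ∀ l, aux (cp p a0) a0 Z.transpose (Pi.single b 1) j l =
          if j = l then 1 else 0 := fun l => by
        simp only [aux, if_neg hj]
      rw [Finset.sum_eq_single j]
      · rw [hA, hB, if_pos rfl, if_neg hj'.2, if_pos hj'.1, mul_one, Matrix.single_apply,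
          if_neg (fun h : a = i ∧ b = j => hj (h.2 ▸ hb)), add_zero]
      · intro l _ hl
        rw [hB, if_neg (Ne.symm hl), mul_zero]
      · intro h
        exact absurd (Finset.mem_univ _) h
  · have hA : ∀ l, aux p a0 Z (Pi.single a 1) i l = if i = l then 1 else 0 := fun l => by
      simp only [aux, if_neg hi]
    have hia : i ≠ a := fun h => hi (h ▸ ha)
    have hia0 : i ≠ a0 := fun h => hi (h ▸ ha0)
    rw [Finset.sum_eq_single i, hA, if_pos rfl, one_mul, Matrix.single_apply,
      if_neg (fun h : a = i ∧ b = j => hia h.1.symm), add_zero]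
    · by_cases hj : cp p a0 j
      · simp only [aux, if_pos hj, if_neg hia0, Matrix.transpose_apply]
        rw [if_pos (show cp p a0 i from Or.inl hi)]
      · have hj' : p j ∧ j ≠ a0 := by
          refine ⟨?_, fun h => hj (Or.inr h)⟩
          by_contra h
          exact hj (Or.inl h)
        have hji : j ≠ i := fun h => hi (h ▸ hj'.1)
        simp only [aux, if_neg hj, if_neg hji]
        by_contra h
        exact hi ((hZ i j h).2 hj')
    · intro l _ hl
      rw [hA, if_neg (Ne.symm hl), zero_mul]
    · intro h
      exact absurd (Finset.mem_univ _) h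

end Pool.Agent.TSD
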