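import Pool.Agent.TSD.Sing
import Pool.Agent.TSD.BlkM

set_option autoImplicit false

namespace Pool.Agent.TSD

open MvPolynomial Finset

universe u v w

/-- **AdjB** (adjugate of a block matrix).

PROOF. `Z.adjugate b a = (Z.updateRow a (Pi.single b 1)).det` (`Matrix.adjugate_apply`).
(0) `Z.det = 0`: `sing` with `p` and `q m := p m ∧ m ≠ a0` (the set of the `q` is the set of the `p` without
`a0`, one element less), by `hZ`.
(1) `p a` and `cp p a0 b`: `Z + single a b 1 = Z.updateRow a (Z a + Pi.single b 1)`, so by
`Matrix.det_updateRow_add` and `Matrix.updateRow_eq_self` its determinant is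
`Z.det + (Z.updateRow a (Pi.single b 1)).det`; by `blkM` it is also `gg p a0 Z a * gg (cp p a0) a0 Zᵀ b`
(`Matrix.det_mul`, `Matrix.det_transpose`).
(2) `¬ p a`: the rows `p` of `Z.updateRow a _` are those of `Z`, so `sing` (same `p`, `q`) gives `0`.
(3) `p a` and not `cp p a0 b`, i.e. `p b` and `b ≠ a0`: the new row `Pi.single b 1` also vanishes outside of
the columns `q`, so `sing` again gives `0`. -/
theorem adjB {S : Type u} [CommRing S] {ι : Type v} [DecidableEq ι] [Fintype ι] (p : ι → Prop)
    [DecidablePred p] (a0 : ι) (ha0 : p a0) (Z : Matrix ι ι S)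
    (hZ : ∀ i m, Z i m ≠ 0 → (p i ↔ (p m ∧ m ≠ a0))) (a b : ι) :
    Z.adjugate b a =
      if p a ∧ cp p a0 b then gg p a0 Z a * gg (cp p a0) a0 Z.transpose b else 0 := by
  have hcard : #{i | p i ∧ i ≠ a0} < #{i | p i} := by
    apply Finset.card_lt_card
    rw [Finset.ssubset_iff_of_subset (fun i hi => by
      rw [Finset.mem_filter] at hi ⊢
      exact ⟨hi.1, hi.2.1⟩)]
    refine ⟨a0, ?_, ?_⟩
    · rw [Finset.mem_filter]
      exact ⟨Finset.mem_univ _, ha0⟩
    · rw [Finset.mem_filter]
      rintro ⟨-, -, h⟩
      exact h rfl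
  have hZ0 : ∀ i m, p i → ¬ (p m ∧ m ≠ a0) → Z i m = 0 := by
    intro i m hi hm
    by_contra h
    exact hm ((hZ i m h).1 hi)
  rw [Matrix.adjugate_apply]
  by_cases hc : p a ∧ cp p a0 b
  · rw [if_pos hc]
    have hdet0 : Z.det = 0 := sing p (fun m => p m ∧ m ≠ a0) Z hcard hZ0
    have hblk := congrArg Matrix.det (blkM p a0 ha0 Z hZ a b hc.1 hc.2)
    rw [Matrix.det_mul, Matrix.det_transpose] at hblk
    have hup : Z + Matrix.single a b 1 = Z.updateRow a (Z a + Pi.single b 1) := by
      ext i j
      by_cases hi : i = a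
      · subst hi
        rw [Matrix.updateRow_self, Matrix.add_apply, Pi.add_apply]
        congr 1
        by_cases hj : j = b
        · subst hj
          rw [Matrix.single_apply_same, Pi.single_eq_same]
        · rw [Pi.single_eq_of_ne hj]
          show (if i = i ∧ b = j then (1 : S) else 0) = 0
          rw [if_neg]
          rintro ⟨-, h⟩
          exact hj h.symm
      · rw [Matrix.updateRow_ne hi, Matrix.add_apply]
        have : Matrix.single a b (1 : S) i j = 0 := by
          show (if a = i ∧ b = j then (1 : S) else 0) = 0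
          rw [if_neg]
          rintro ⟨h, -⟩
          exact hi h.symm
        rw [this, add_zero]
    rw [hup, Matrix.det_updateRow_add, Matrix.updateRow_eq_self, hdet0, zero_add] at hblk
    exact hblk
  · rw [if_neg hc]
    refine sing p (fun m => p m ∧ m ≠ a0) _ hcard ?_
    intro i m hi hm
    by_cases hia : i = a
    · subst hia
      rw [Matrix.updateRow_self]
      have hb : p b ∧ b ≠ a0 := by
        by_contra h
        apply hc
        refine ⟨hi, ?_⟩
        unfold cp
        by_contra h'
        push Not at h'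
        exact h h'
      refine Pi.single_eq_of_ne ?_ _
      rintro rfl
      exact hm hb
    · rw [Matrix.updateRow_ne hia]
      exact hZ0 i m hi hm

end Pool.Agent.TSD
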