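import Pool.Agent.TSD.Defs

set_option autoImplicit false

namespace Pool.Agent.TSD

open MvPolynomial Finset

universe u v w

/-- **Aff1**.  The coefficient matrices of a product with constant matrices.

PROOF. Entrywise: `(U.map C * M * V.map C) a b = ∑ ∑ C (U a i) * M i j * C (V j b)`;
`coeff_sum`, `coeff_C_mul`, `coeff_mul_C` (or `mul_comm`). -/
theorem cm_mul {R : Type u} [CommRing R] {σ : Type v} {N : ℕ}
    (M : Matrix (Fin N) (Fin N) (MvPolynomial σ R)) (U V : Matrix (Fin N) (Fin N) R)
    (o : Option σ) :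
    cm ((U.map C : Matrix (Fin N) (Fin N) (MvPolynomial σ R)) * M *
      (V.map C : Matrix (Fin N) (Fin N) (MvPolynomial σ R))) o = U * cm M o * V := by
  ext a b
  simp only [cm, Matrix.map_apply, Matrix.mul_apply, Finset.sum_mul, coeff_sum]
  refine Finset.sum_congr rfl fun j _ => Finset.sum_congr rfl fun i _ => ?_
  rw [mul_comm _ (C (V j b)), coeff_C_mul, coeff_C_mul]
  ring

/-- **Aff2**.  Degrees of the entries of a product with constant matrices.

PROOF. `totalDegree_finset_sum`, `totalDegree_mul`, `totalDegree_C`. -/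
theorem deg_mul {R : Type u} [CommRing R] {σ : Type v} {N : ℕ}
    (M : Matrix (Fin N) (Fin N) (MvPolynomial σ R)) (hM : ∀ a b, (M a b).totalDegree ≤ 1)
    (U V : Matrix (Fin N) (Fin N) R) (a b : Fin N) :
    (((U.map C : Matrix (Fin N) (Fin N) (MvPolynomial σ R)) * M *
      (V.map C : Matrix (Fin N) (Fin N) (MvPolynomial σ R))) a b).totalDegree ≤ 1 := by
  simp only [Matrix.mul_apply, Matrix.map_apply]
  refine totalDegree_finsetSum_le fun j _ => ?_
  refine (totalDegree_mul _ _).trans ?_
  rw [totalDegree_C, add_zero]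
  refine totalDegree_finsetSum_le fun i _ => ?_
  refine (totalDegree_mul _ _).trans ?_
  rw [totalDegree_C, zero_add]
  exact hM i j

/-- **Aff3**.  Determinant of such a product.

PROOF. `Matrix.det_mul`, and `(U.map C).det = C U.det` (`RingHom.map_det`, `RingHom.mapMatrix_apply`). -/
theorem det_CMC {R : Type u} [CommRing R] {σ : Type v} {N : ℕ}
    (M : Matrix (Fin N) (Fin N) (MvPolynomial σ R)) (U V : Matrix (Fin N) (Fin N) R) :
    ((U.map C : Matrix (Fin N) (Fin N) (MvPolynomial σ R)) * M *
      (V.map C : Matrix (Fin N) (Fin N) (MvPolynomial σ R))).det =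
      C (U.det * V.det) * M.det := by
  have h : ∀ W : Matrix (Fin N) (Fin N) R,
      (W.map C : Matrix (Fin N) (Fin N) (MvPolynomial σ R)).det = C W.det := by
    intro W
    exact ((C : R →+* MvPolynomial σ R).map_det W).symm
  rw [Matrix.det_mul, Matrix.det_mul, h, h, C_mul]
  ring

end Pool.Agent.TSD
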