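import Pool.Agent.TSD.Leib

set_option autoImplicit false

namespace Pool.Agent.TSD

open MvPolynomial Finset

universe u v w

/-- **Align** (aligned levels).

PROOF. `leib` for `μ` gives `π`, `τ`.  For `o = some p` put `x o = ∑ j, mo o (i0, j)`: it is `1` if
`p.1 = i0` and `0` otherwise (and `0` for `o = none`), so `(x o : ℤ) = r0 i0 o`.  Summing `∑ a, mo (τ a) = μ`
over the entries `(i0, j)` gives `∑ a, x (τ a) = 1` (`Finsupp.finsetSum_apply`, `Finset.sum_comm`), so
there is exactly one `a0` with `x (τ a0) = 1`, and `x (τ a) = 0` for `a ≠ a0` (natural numbers with sum 1).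
Apply `hl` to `cm M (τ a) a (π a) ≠ 0`. -/
theorem align {R : Type u} [CommRing R] {n N : ℕ} (i0 : Fin n)
    (M : Matrix (Fin N) (Fin N) (MvPolynomial (Fin n × Fin n) R))
    (hM : ∀ a b, (M a b).totalDegree ≤ 1) (l l' : Fin N → ℤ)
    (hl : ∀ o a b, cm M o a b ≠ 0 → l a = l' b + r0 i0 o) (μ : (Fin n × Fin n) →₀ ℕ)
    (hμ : coeff μ M.det ≠ 0) (h1 : ∑ j, μ (i0, j) = 1) :
    ∃ (π : Equiv.Perm (Fin N)) (a0 : Fin N), l a0 = l' (π a0) + 1 ∧
      ∀ a, a ≠ a0 → l a = l' (π a) := by
  obtain ⟨π, τ, hsum, hne⟩ := leib M hM μ hμ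
  have hx : ∀ o : Option (Fin n × Fin n), ((∑ j, mo o (i0, j) : ℕ) : ℤ) = r0 i0 o := by
    intro o
    cases o with
    | none => simp [mo, r0]
    | some p =>
      obtain ⟨p1, p2⟩ := p
      simp only [mo, r0, Option.elim]
      by_cases h : p1 = i0
      · subst h
        rw [Finset.sum_eq_single p2]
        · simp
        · intro j _ hj
          rw [Finsupp.single_apply, if_neg]
          intro h'
          exact hj (Prod.mk.inj h').2.symm
        · intro h'
          exact absurd (Finset.mem_univ _) h'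
      · rw [if_neg h, Finset.sum_eq_zero]
        · simp
        · intro j _
          rw [Finsupp.single_apply, if_neg]
          intro h'
          exact h (Prod.mk.inj h').1
  have hs : ∑ a, ∑ j, mo (τ a) (i0, j) = 1 := by
    rw [Finset.sum_comm, ← h1, ← hsum]
    refine Finset.sum_congr rfl fun j _ => ?_
    rw [Finsupp.finsetSum_apply]
  have hex : ∃ a0, ∑ j, mo (τ a0) (i0, j) ≠ 0 := by
    by_contra hcon
    push Not at hcon
    rw [Finset.sum_eq_zero (fun a _ => hcon a)] at hs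
    exact absurd hs (by norm_num)
  obtain ⟨a0, ha0⟩ := hex
  have hsplit := Finset.add_sum_erase Finset.univ (fun a => ∑ j, mo (τ a) (i0, j))
    (Finset.mem_univ a0)
  rw [hs] at hsplit
  have hone : ∑ j, mo (τ a0) (i0, j) = 1 := by
    have : ∑ j, mo (τ a0) (i0, j) ≤ 1 := by
      have h0 := Nat.le_add_right (∑ j, mo (τ a0) (i0, j))
        (∑ x ∈ Finset.univ.erase a0, ∑ j, mo (τ x) (i0, j))
      exact h0.trans hsplit.le
    omega
  have hrest : ∑ x ∈ Finset.univ.erase a0, ∑ j, mo (τ x) (i0, j) = 0 := by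
    have h2 : ∑ j, mo (τ a0) (i0, j) + ∑ x ∈ Finset.univ.erase a0, ∑ j, mo (τ x) (i0, j) = 1 :=
      hsplit
    rw [hone] at h2
    omega
  refine ⟨π, a0, ?_, ?_⟩
  · rw [hl (τ a0) a0 (π a0) (hne a0), ← hx, hone]
    norm_num
  · intro a ha
    have hz : ∑ j, mo (τ a) (i0, j) = 0 :=
      (Finset.sum_eq_zero_iff.1 hrest) a (Finset.mem_erase.2 ⟨ha, Finset.mem_univ a⟩)
    rw [hl (τ a) a (π a) (hne a), ← hx, hz]
    norm_num

end Pool.Agent.TSD
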