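import Pool.Agent.TSD.Defs

set_option autoImplicit false

namespace Pool.Agent.TSD

open MvPolynomial Finset

universe u v w

/-- **Bc1** (independence after a field extension). -/
theorem bc_indep {L F : Type u} [Field L] [Field F] (φ : L →+* F) {n c : ℕ} (s : Fin n → L)
    (t : Fin c → L) (h : Indep s t) : Indep (fun i => φ (s i)) (fun j => φ (t j)) := by
  refine ⟨fun i => (map_ne_zero φ).2 (h.s_ne i), fun j => (map_ne_zero φ).2 (h.t_ne j), ?_⟩
  intro a b hab hrel
  apply h.rel a b hab
  apply φ.injective
  rw [map_mul, map_prod, map_prod, map_one]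
  simpa only [map_zpow₀] using hrel

/-- **Bc2** (the symmetry after a field extension), for an arbitrary matrix on the right. -/
theorem bc_sym_aux {L F : Type u} [Field L] [Field F] (φ : L →+* F) {n c N : ℕ}
    (κ : Fin n → Fin c) (s : Fin n → L) (t : Fin c → L)
    (M M' : Matrix (Fin N) (Fin N) (MvPolynomial (Fin n × Fin n) L)) (P Q : Matrix (Fin N) (Fin N) L)
    (h : M.map (rescale κ s t) * Q.map C = P.map C * M') :
    (M.map (MvPolynomial.map φ)).map (rescale κ (fun i => φ (s i)) (fun j => φ (t j))) *
      (Q.map φ).map C = (P.map φ).map C * M'.map (MvPolynomial.map φ) := by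
  have h1 : ∀ f : MvPolynomial (Fin n × Fin n) L,
      MvPolynomial.map φ (rescale κ s t f) =
        rescale κ (fun i => φ (s i)) (fun j => φ (t j)) (MvPolynomial.map φ f) := by
    intro f
    induction f using MvPolynomial.induction_on with
    | C a => simp [rescale, algHom_C, algebraMap_eq]
    | add p q hp hq => simp only [map_add, hp, hq]
    | mul_X p i hp => simp only [map_mul, hp]; simp [rescale]
  have h2 := congrArg (fun A => A.map (MvPolynomial.map φ)) h
  simp only [Matrix.map_mul, Matrix.map_map] at h2 ⊢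
  have e1 : (⇑(MvPolynomial.map φ) ∘ ⇑(rescale κ s t) :
      MvPolynomial (Fin n × Fin n) L → MvPolynomial (Fin n × Fin n) F) =
      ⇑(rescale κ (fun i => φ (s i)) (fun j => φ (t j))) ∘ ⇑(MvPolynomial.map φ) :=
    funext h1
  have e2 : (⇑(MvPolynomial.map (σ := Fin n × Fin n) φ) ∘ ⇑(C : L →+* _) : L → _) =
      ⇑(C : F →+* MvPolynomial (Fin n × Fin n) F) ∘ ⇑φ := by
    funext a
    simp
  rw [e1, e2] at h2
  exact h2

/-- **Bc2** (the symmetry after a field extension). -/
theorem bc_sym {L F : Type u} [Field L] [Field F] (φ : L →+* F) {n c N : ℕ}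
    (κ : Fin n → Fin c) (s : Fin n → L) (t : Fin c → L)
    (M : Matrix (Fin N) (Fin N) (MvPolynomial (Fin n × Fin n) L)) (P Q : Matrix (Fin N) (Fin N) L)
    (h : M.map (rescale κ s t) * Q.map C = P.map C * M) :
    (M.map (MvPolynomial.map φ)).map (rescale κ (fun i => φ (s i)) (fun j => φ (t j))) *
      (Q.map φ).map C = (P.map φ).map C * M.map (MvPolynomial.map φ) :=
  bc_sym_aux φ κ s t M M P Q h

/-- **Bc3** (values after a change of rings). -/
theorem bc_ev {R R' : Type u} [CommRing R] [CommRing R'] (φ : R →+* R') {τ : Type v} {n : ℕ}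
    (f : MvPolynomial (Fin (n + 1) × Fin (n + 1)) R) (z : Fin (n + 1) → MvPolynomial τ R)
    (Y : Fin n → Fin (n + 1) → MvPolynomial τ R) :
    MvPolynomial.map φ (aeval (asg z Y) f) =
      aeval (asg (fun j => MvPolynomial.map φ (z j)) fun i j => MvPolynomial.map φ (Y i j))
        (MvPolynomial.map φ f) := by
  induction f using MvPolynomial.induction_on with
  | C a => simp [algHom_C, algebraMap_eq]
  | add p q hp hq => simp only [map_add, hp, hq]
  | mul_X p i hp =>
    simp only [map_mul, hp, map_X, aeval_X]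
    congr 1
    obtain ⟨i1, i2⟩ := i
    induction i1 using Fin.cases with
    | zero => simp [asg]
    | succ j => simp [asg]

/-- **Bc4**. -/
theorem bc_span {A B : Type u} [CommRing A] [CommRing B] (φ : A →+* B) {ι : Type v} (P : ι → A)
    (x : A) (h : x ∈ Ideal.span (Set.range P)) :
    φ x ∈ Ideal.span (Set.range fun j => φ (P j)) := by
  have h1 := Ideal.mem_map_of_mem φ h
  rw [Ideal.map_span, ← Set.range_comp] at h1
  exact h1

end Pool.Agent.TSD
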