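import Pool.Agent.TSD.Defs

set_option autoImplicit false

namespace Pool.Agent.TSD

open MvPolynomial Finset

universe u v w

/-- **CntA** (a product of factors determines the rows and the classes).

PROOF. Both products are nonzero; with `x i = [i ∈ S] - [i ∈ S']`, `y j = #{i ∈ S | κ (σ i) = j} -
#{i ∈ S' | κ (σ' i) = j}` (integers) we have `∑ x = #S - #S' = ∑ y` (`Finset.card_eq_sum_card_fiberwise`) and
`(∏ s i ^ x i) * ∏ t j ^ y j = 1` (`zpow_sub₀`, `Finset.prod_fiberwise`-like regrouping: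
`∏ i ∈ S, t (κ (σ i)) = ∏ j, t j ^ #{i ∈ S | κ (σ i) = j}`).  `hst.rel` gives `x = 0`, `y = 0`. -/
theorem cntA {L : Type u} [Field L] {n c : ℕ} (κ : Fin n → Fin c) (s : Fin n → L)
    (t : Fin c → L) (hst : Indep s t) (S S' : Finset (Fin n)) (σ σ' : Equiv.Perm (Fin n))
    (h : ∏ i ∈ S, s i * t (κ (σ i)) = ∏ i ∈ S', s i * t (κ (σ' i))) :
    S = S' ∧ ∀ j, #{i ∈ S | κ (σ i) = j} = #{i ∈ S' | κ (σ' i) = j} := by
  classical
  have hs : ∀ T : Finset (Fin n), ∏ i, s i ^ ((if i ∈ T then 1 else 0 : ℤ)) = ∏ i ∈ T, s i := by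
    intro T
    rw [← Finset.prod_subset (Finset.subset_univ T) (f := fun i => s i ^ ((if i ∈ T then 1 else 0 : ℤ)))]
    · exact Finset.prod_congr rfl fun i hi => by simp [hi]
    · intro i _ hi
      simp [hi]
  have ht : ∀ (T : Finset (Fin n)) (g : Fin n → Fin c),
      ∏ j, t j ^ ((#{i ∈ T | g i = j} : ℕ) : ℤ) = ∏ i ∈ T, t (g i) := by
    intro T g
    rw [← Finset.prod_fiberwise T g]
    refine Finset.prod_congr rfl fun j _ => ?_
    rw [zpow_natCast, ← Finset.prod_const]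
    exact Finset.prod_congr rfl fun i hi => by rw [(Finset.mem_filter.1 hi).2]
  have hc : ∀ (T : Finset (Fin n)) (g : Fin n → Fin c),
      ∑ j, ((#{i ∈ T | g i = j} : ℕ) : ℤ) = (#T : ℤ) := by
    intro T g
    rw [← Nat.cast_sum, ← Finset.card_eq_sum_card_fiberwise (fun i _ => Finset.mem_coe.2 (Finset.mem_univ _))]
  have hc' : ∀ T : Finset (Fin n), ∑ i, (if i ∈ T then 1 else 0 : ℤ) = (#T : ℤ) := by
    intro T
    simp
  obtain ⟨h1, h2⟩ := hst.rel
    (fun i => (if i ∈ S then 1 else 0 : ℤ) - (if i ∈ S' then 1 else 0 : ℤ))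
    (fun j => ((#{i ∈ S | κ (σ i) = j} : ℕ) : ℤ) - ((#{i ∈ S' | κ (σ' i) = j} : ℕ) : ℤ))
    (by rw [Finset.sum_sub_distrib, Finset.sum_sub_distrib, hc', hc',
          hc S (fun i => κ (σ i)), hc S' (fun i => κ (σ' i))])
    (by
      have e1 : ∏ i, s i ^ ((if i ∈ S then 1 else 0 : ℤ) - (if i ∈ S' then 1 else 0 : ℤ))
          = (∏ i ∈ S, s i) / ∏ i ∈ S', s i := by
        rw [← hs S, ← hs S', ← Finset.prod_div_distrib]
        exact Finset.prod_congr rfl fun i _ => zpow_sub₀ (hst.s_ne i) _ _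
      have e2 : ∏ j, t j ^ (((#{i ∈ S | κ (σ i) = j} : ℕ) : ℤ)
            - ((#{i ∈ S' | κ (σ' i) = j} : ℕ) : ℤ))
          = (∏ i ∈ S, t (κ (σ i))) / ∏ i ∈ S', t (κ (σ' i)) := by
        rw [← ht S (fun i => κ (σ i)), ← ht S' (fun i => κ (σ' i)), ← Finset.prod_div_distrib]
        exact Finset.prod_congr rfl fun j _ => zpow_sub₀ (hst.t_ne j) _ _
      rw [e1, e2, div_mul_div_comm, ← Finset.prod_mul_distrib, ← Finset.prod_mul_distrib, h]
      refine div_self (Finset.prod_ne_zero_iff.2 fun i _ => mul_ne_zero (hst.s_ne i) (hst.t_ne _)))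
  constructor
  · ext i
    have h3 := congrFun h1 i
    simp only [Pi.zero_apply] at h3
    by_cases hi : i ∈ S <;> by_cases hi' : i ∈ S' <;> simp [hi, hi'] at h3 ⊢
  · intro j
    have h3 := congrFun h2 j
    simp only [Pi.zero_apply] at h3
    omega

private theorem CntA_fib {n : ℕ} (S R : Finset (Fin n)) :
    #{σ : Equiv.Perm (Fin n) | S.map σ.toEmbedding = R} ≤ (#S).factorial * (n - #S).factorial := by
  classical
  by_cases hne : ({σ : Equiv.Perm (Fin n) | S.map σ.toEmbedding = R} : Finset _).Nonempty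
  swap
  · rw [Finset.not_nonempty_iff_eq_empty] at hne
    rw [hne]
    simp
  obtain ⟨σ0, h0⟩ := hne
  have key : ∀ σ : {σ : Equiv.Perm (Fin n) // S.map σ.toEmbedding = R}, ∀ a, a ∈ S ↔ σ.1 a ∈ R := by
    rintro ⟨σ, hσ⟩ a
    change a ∈ S ↔ σ a ∈ R
    rw [← hσ]
    simp
  let σ1 : {σ : Equiv.Perm (Fin n) // S.map σ.toEmbedding = R} := ⟨σ0, (Finset.mem_filter.1 h0).2⟩
  let F : {σ : Equiv.Perm (Fin n) // S.map σ.toEmbedding = R} →
      ({a // a ∈ S} ≃ {b // b ∈ R}) × ({a // a ∉ S} ≃ {b // b ∉ R}) := fun σ =>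
    (σ.1.subtypeEquiv (key σ), σ.1.subtypeEquiv fun a => not_congr (key σ a))
  have hF : Function.Injective F := by
    intro σ τ h
    apply Subtype.ext
    apply Equiv.ext
    intro a
    by_cases ha : a ∈ S
    · have h2 := congrArg (fun e => ((e.1 ⟨a, ha⟩ : {b // b ∈ R}) : Fin n)) h
      exact h2
    · have h2 := congrArg (fun e => ((e.2 ⟨a, ha⟩ : {b // b ∉ R}) : Fin n)) h
      exact h2
  have h3 := Fintype.card_le_of_injective F hF
  rw [Fintype.card_prod, Fintype.card_equiv (F σ1).1, Fintype.card_equiv (F σ1).2,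
    Fintype.card_coe, Fintype.card_subtype] at h3
  have h4 : Fintype.card {a : Fin n // a ∉ S} = n - #S := by
    rw [Fintype.card_subtype]
    have : ({a : Fin n | a ∉ S} : Finset (Fin n)) = Sᶜ := by ext; simp
    rw [this, Finset.card_compl, Fintype.card_fin]
  rwa [h4] at h3

/-- **CntB** (few permutations map `S` to a set with given classes).

PROOF. For every `R'` the number of `σ` with `S.map σ = R'` is at most `m! (n - m)!` (`m = #S`): if `#R' ≠ m` it is
`0`, otherwise `σ` is determined by its restrictions `S ≃ R'` and `Sᶜ ≃ R'ᶜ` (`Fintype.card_equiv`,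
`Fintype.card_le_of_injective`).  If the set on the left is empty we are done.  Otherwise let `σ0` be an
element, `R = S.map σ0`, `#R = m`.  Each `σ` in the set maps `S` to some `R'` with
`#{i ∈ R' | κ i = j} = y j = #{i ∈ R | κ i = j}` (`Finset.card_map`, `Finset.filter_map`), and there are
`sameProfile κ R ≤ W κ m` such `R'` (`Finset.le_sup`, `Finset.mem_powersetCard_univ`).  Sum over `R'`
(`Finset.card_eq_sum_card_fiberwise`). -/
theorem cntB {n c : ℕ} (κ : Fin n → Fin c) (m : ℕ) (S : Finset (Fin n)) (hS : #S = m)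
    (y : Fin c → ℕ) :
    #{σ : Equiv.Perm (Fin n) | ∀ j, #{i ∈ S | κ (σ i) = j} = y j} ≤
      W κ m * (m.factorial * (n - m).factorial) := by
  classical
  by_cases hne : ({σ : Equiv.Perm (Fin n) | ∀ j, #{i ∈ S | κ (σ i) = j} = y j} : Finset _).Nonempty
  swap
  · rw [Finset.not_nonempty_iff_eq_empty] at hne
    rw [hne]
    simp
  obtain ⟨σ0, h0⟩ := hne
  rw [Finset.mem_filter] at h0
  have hmap : ∀ σ : Equiv.Perm (Fin n), ∀ j, #{i ∈ S.map σ.toEmbedding | κ i = j}
      = #{i ∈ S | κ (σ i) = j} := by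
    intro σ j
    rw [Finset.filter_map, Finset.card_map]
    rfl
  have h1 := Finset.card_le_mul_card_image_of_maps_to
    (s := ({σ : Equiv.Perm (Fin n) | ∀ j, #{i ∈ S | κ (σ i) = j} = y j} : Finset _))
    (t := ({R' : Finset (Fin n) | ∀ j, #{i ∈ R' | κ i = j}
      = #{i ∈ S.map σ0.toEmbedding | κ i = j}} : Finset (Finset (Fin n))))
    (f := fun σ => S.map σ.toEmbedding)
    (fun σ hσ => by
      rw [Finset.mem_filter] at hσ ⊢
      refine ⟨Finset.mem_univ _, fun j => ?_⟩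
      rw [hmap, hmap, hσ.2 j, h0.2 j])
    (m.factorial * (n - m).factorial)
    (fun R' _ => by
      refine (Finset.card_le_card ?_).trans ((CntA_fib S R').trans (by rw [hS]))
      intro σ hσ
      rw [Finset.mem_filter] at hσ
      exact Finset.mem_filter.2 ⟨Finset.mem_univ _, hσ.2⟩)
  refine h1.trans ?_
  rw [mul_comm]
  refine Nat.mul_le_mul_right _ ?_
  have h2 : S.map σ0.toEmbedding ∈ (univ : Finset (Fin n)).powersetCard m := by
    rw [Finset.mem_powersetCard_univ, Finset.card_map, hS]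
  exact Finset.le_sup (f := sameProfile κ) h2

end Pool.Agent.TSD
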