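import Pool.Agent.TSD.CntA

set_option autoImplicit false

namespace Pool.Agent.TSD

open MvPolynomial Finset

universe u v w

private theorem CntC_mem {L : Type u} [Field L] {n c N : ℕ} (κ : Fin n → Fin c) (s : Fin n → L)
    (t : Fin c → L) (b0 : Fin N) (w' : L) (v : Fin N → L) (m : ℕ) (a : Fin N) :
    a ∈ Dset κ s t b0 w' v m ↔ a ≠ b0 ∧ ∃ (S : Finset (Fin n)) (σ : Equiv.Perm (Fin n)), #S = m ∧
      w' = (∏ i ∈ S, s i * t (κ (σ i))) * v a := by
  unfold Dset
  simp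

/-- **CntC** (one level).

PROOF. Choose for every `σ` the `S σ`, `a σ` of `h`; `a σ ∈ Dset ... m`.  For a fixed `a` let `σ0` be one permutation
with `a σ0 = a`.  If `a σ = a` then `∏ i ∈ S σ, ... = ∏ i ∈ S σ0, ...` (`v a ≠ 0`), so by `cntA` `S σ = S σ0` and the
numbers of elements in the classes agree: `σ` is in the set of `cntB` for `S σ0`,
`y j = #{i ∈ S σ0 | κ (σ0 i) = j}`.  Hence `n! = ∑ a ∈ Dset, #{σ | a σ = a} ≤ #Dset * (W κ m * (m! (n - m)!))`
(`Fintype.card_perm`, `Finset.card_eq_sum_card_fiberwise`, `Finset.sum_le_card_nsmul`).  As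
`n! = choose n m * (m! (n - m)!)` (`Nat.choose_mul_factorial_mul_factorial`), `choose n m ≤ #Dset * W κ m`, and
`Nat.div_le_of_le_mul`. -/
theorem cntC {L : Type u} [Field L] {n c N : ℕ} (κ : Fin n → Fin c) (s : Fin n → L)
    (t : Fin c → L) (hst : Indep s t) (b0 : Fin N) (w' : L) (v : Fin N → L) (hv : ∀ a, v a ≠ 0)
    (m : ℕ) (hm : m ≤ n)
    (h : ∀ σ : Equiv.Perm (Fin n), ∃ (S : Finset (Fin n)) (a : Fin N), #S = m ∧ a ≠ b0 ∧
      w' = (∏ i ∈ S, s i * t (κ (σ i))) * v a) :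
    n.choose m / W κ m ≤ #(Dset κ s t b0 w' v m) := by
  classical
  choose S a hS ha hw using h
  have hmem : ∀ σ ∈ (univ : Finset (Equiv.Perm (Fin n))), a σ ∈ Dset κ s t b0 w' v m :=
    fun σ _ => (CntC_mem κ s t b0 w' v m (a σ)).2 ⟨ha σ, S σ, σ, hS σ, hw σ⟩
  have hfib : ∀ b ∈ Dset κ s t b0 w' v m,
      #{σ : Equiv.Perm (Fin n) | a σ = b} ≤ W κ m * (m.factorial * (n - m).factorial) := by
    intro b _
    by_cases he : ∃ σ0, a σ0 = b
    · obtain ⟨σ0, h0⟩ := he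
      refine le_trans (Finset.card_le_card ?_) (cntB κ m (S σ0) (hS σ0)
        fun j => #{i ∈ S σ0 | κ (σ0 i) = j})
      intro σ hσ
      have h1 : a σ = b := (Finset.mem_filter.1 hσ).2
      refine Finset.mem_filter.2 ⟨Finset.mem_univ _, ?_⟩
      have h2 : ∏ i ∈ S σ, s i * t (κ (σ i)) = ∏ i ∈ S σ0, s i * t (κ (σ0 i)) := by
        have h3 := (hw σ).symm.trans (hw σ0)
        rw [h1, h0] at h3
        exact mul_right_cancel₀ (hv b) h3
      obtain ⟨h4, h5⟩ := cntA κ s t hst (S σ) (S σ0) σ σ0 h2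
      intro j
      rw [← h5 j, h4]
    · have h1 : ({σ : Equiv.Perm (Fin n) | a σ = b} : Finset (Equiv.Perm (Fin n))) = ∅ := by
        refine Finset.filter_eq_empty_iff.2 fun σ _ hc => he ⟨σ, hc⟩
      rw [h1, Finset.card_empty]
      exact Nat.zero_le _
  have h1 : n.factorial ≤ #(Dset κ s t b0 w' v m) *
      (W κ m * (m.factorial * (n - m).factorial)) := by
    have h2 := Finset.card_eq_sum_card_fiberwise (f := a)
      (s := (univ : Finset (Equiv.Perm (Fin n)))) (t := Dset κ s t b0 w' v m)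
      (fun σ hσ => hmem σ (Finset.mem_univ σ))
    rw [Finset.card_univ, Fintype.card_perm, Fintype.card_fin] at h2
    rw [h2]
    exact Finset.sum_le_card_nsmul _ _ _ hfib
  rw [← Nat.choose_mul_factorial_mul_factorial hm] at h1
  have h2 : 0 < m.factorial * (n - m).factorial :=
    Nat.mul_pos (Nat.factorial_pos _) (Nat.factorial_pos _)
  refine Nat.div_le_of_le_mul ?_
  refine Nat.le_of_mul_le_mul_right ?_ h2
  calc n.choose m * (m.factorial * (n - m).factorial)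
      = n.choose m * m.factorial * (n - m).factorial := by ring
    _ ≤ _ := h1
    _ = _ := by ring

/-- **CntD** (all levels).

PROOF. The sets `Dset ... m` are pairwise disjoint: if `a` is in those for `m` and `m'` then the two products are
equal (`v a ≠ 0`) and by `cntA` `S = S'`, so `m = m'`.  None of them contains `b0`.  So
`1 + ∑ m, #(Dset m) = #({b0} ∪ ⋃ m, Dset m) ≤ N` (`Finset.card_biUnion`, `Finset.card_le_univ`); conclude with
`cntC` for `m ∈ Ico 1 n`. -/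
theorem cntD {L : Type u} [Field L] {n c N : ℕ} (κ : Fin n → Fin c) (s : Fin n → L)
    (t : Fin c → L) (hst : Indep s t) (b0 : Fin N) (w' : L) (v : Fin N → L) (hv : ∀ a, v a ≠ 0)
    (h : ∀ (σ : Equiv.Perm (Fin n)) (m : ℕ), 1 ≤ m → m < n →
      ∃ (S : Finset (Fin n)) (a : Fin N), #S = m ∧ a ≠ b0 ∧
      w' = (∏ i ∈ S, s i * t (κ (σ i))) * v a) :
    1 + ∑ m ∈ Ico 1 n, n.choose m / W κ m ≤ N := by
  classical
  have hdis : ∀ m ∈ Ico 1 n, ∀ m' ∈ Ico 1 n, m ≠ m' →
      Disjoint (Dset κ s t b0 w' v m) (Dset κ s t b0 w' v m') := by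
    intro m _ m' _ hne
    refine Finset.disjoint_left.2 fun a ha ha' => hne ?_
    obtain ⟨-, S, σ, hS, hw⟩ := (CntC_mem κ s t b0 w' v m a).1 ha
    obtain ⟨-, S', σ', hS', hw'⟩ := (CntC_mem κ s t b0 w' v m' a).1 ha'
    have h2 : ∏ i ∈ S, s i * t (κ (σ i)) = ∏ i ∈ S', s i * t (κ (σ' i)) :=
      mul_right_cancel₀ (hv a) (hw.symm.trans hw')
    rw [← hS, ← hS', (cntA κ s t hst S S' σ σ' h2).1]
  have hb : b0 ∉ (Ico 1 n).biUnion fun m => Dset κ s t b0 w' v m := by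
    intro hc
    obtain ⟨m, -, hm⟩ := Finset.mem_biUnion.1 hc
    exact ((CntC_mem κ s t b0 w' v m b0).1 hm).1 rfl
  have h1 : #(insert b0 ((Ico 1 n).biUnion fun m => Dset κ s t b0 w' v m)) ≤ N := by
    refine (Finset.card_le_univ _).trans (le_of_eq ?_)
    simp
  rw [Finset.card_insert_of_notMem hb, Finset.card_biUnion hdis] at h1
  have h2 : ∑ m ∈ Ico 1 n, n.choose m / W κ m ≤
      ∑ m ∈ Ico 1 n, #(Dset κ s t b0 w' v m) := by
    refine Finset.sum_le_sum fun m hm => ?_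
    obtain ⟨h3, h4⟩ := Finset.mem_Ico.1 hm
    exact cntC κ s t hst b0 w' v hv m h4.le fun σ => h σ m h3 h4
  omega

end Pool.Agent.TSD
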