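import Pool.Agent.TSD.Defs

set_option autoImplicit false

namespace Pool.Agent.TSD

open MvPolynomial Finset

universe u v w

/-- **Co1** (columns rescaled independently).

PROOF. For injective `κ` the numbers `#{i ∈ R | κ i = j}` determine `R` (`i ∈ R` iff `#{i' ∈ R | κ i' = κ i} = 1`),
so `sameProfile κ R = 1` and `W κ m = 1` for `m ≤ n` (the set `univ.powersetCard m` is nonempty).  Then
`1 + ∑ m ∈ Ico 1 n, choose n m = 2 ^ n - 1` (`Nat.sum_range_choose`, the terms `m = 0` and `m = n` are `1`;
`1 ≤ n`). -/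
theorem co1 {n c : ℕ} (hn : 1 ≤ n) (κ : Fin n → Fin c) (hκ : Function.Injective κ) :
    1 + ∑ m ∈ Ico 1 n, n.choose m / W κ m = 2 ^ n - 1 := by
  have hsp : ∀ R : Finset (Fin n), sameProfile κ R = 1 := by
    intro R
    unfold sameProfile
    rw [Finset.card_eq_one]
    refine ⟨R, ?_⟩
    ext R'
    simp only [mem_filter, mem_univ, true_and, mem_singleton]
    constructor
    · intro h
      ext i
      have h1 := h (κ i)
      have e : ∀ T : Finset (Fin n), {x ∈ T | κ x = κ i} = if i ∈ T then {i} else ∅ := by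
        intro T
        ext x
        simp only [mem_filter, hκ.eq_iff]
        split_ifs with hi
        · constructor
          · rintro ⟨_, rfl⟩
            simp
          · intro hx
            rw [mem_singleton] at hx
            subst hx
            exact ⟨hi, rfl⟩
        · constructor
          · rintro ⟨hx, rfl⟩
            exact absurd hx hi
          · intro hx
            simp at hx
      rw [e, e] at h1
      by_cases a : i ∈ R' <;> by_cases b : i ∈ R <;> simp [a, b] at h1 ⊢
    · rintro rfl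
      intro j
      rfl
  have hW : ∀ m ∈ Ico 1 n, W κ m = 1 := by
    intro m hm
    unfold W
    have hne : (univ.powersetCard m : Finset (Finset (Fin n))).Nonempty := by
      apply Finset.powersetCard_nonempty.2
      have := (mem_Ico.1 hm).2
      simp
      omega
    rw [Finset.sup_congr rfl (fun R _ => hsp R)]
    exact Finset.sup_const hne 1
  rw [Finset.sum_congr rfl (fun m hm => by rw [hW m hm, Nat.div_one])]
  have h := Nat.sum_range_choose n
  rw [Finset.sum_range_succ, Finset.range_eq_Ico, Finset.sum_eq_sum_Ico_succ_bot (by omega),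
    Nat.choose_zero_right, Nat.choose_self, zero_add] at h
  rw [← h]
  rfl

private theorem Co1_central_sq (q : ℕ) : (Nat.centralBinom q) ^ 2 * (2 * q + 1) ≤ 4 ^ (2 * q) := by
  induction q with
  | zero => simp
  | succ q ih =>
    have h := Nat.succ_mul_centralBinom_succ q
    have h3 : (2 * q + 1) * (2 * q + 3) ≤ 4 * (q + 1) ^ 2 := by nlinarith
    have h2 : (q + 1) ^ 2 * ((Nat.centralBinom (q + 1)) ^ 2 * (2 * (q + 1) + 1)) ≤
        (q + 1) ^ 2 * 4 ^ (2 * (q + 1)) := by
      calc (q + 1) ^ 2 * ((Nat.centralBinom (q + 1)) ^ 2 * (2 * (q + 1) + 1))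
          = ((q + 1) * Nat.centralBinom (q + 1)) ^ 2 * (2 * q + 3) := by ring
        _ = (2 * (2 * q + 1) * Nat.centralBinom q) ^ 2 * (2 * q + 3) := by rw [h]
        _ = 4 * ((2 * q + 1) * (2 * q + 3)) * ((Nat.centralBinom q) ^ 2 * (2 * q + 1)) := by ring
        _ ≤ 4 * (4 * (q + 1) ^ 2) * 4 ^ (2 * q) := by gcongr
        _ = (q + 1) ^ 2 * 4 ^ (2 * (q + 1)) := by ring
    exact Nat.le_of_mul_le_mul_left h2 (by positivity)

/-- **Co2a** (central binomial coefficients).

PROOF. `choose c r ≤ choose c (c / 2)` (`Nat.choose_le_middle`).  For `c = 2 q` the claim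
`(choose (2q) q)^2 (2q + 1) ≤ 4 ^ (2q)` by induction on `q`: `choose (2q+2) (q+1) = choose (2q) q * 2 (2q+1) / (q+1)`
(`Nat.succ_mul_centralBinom_succ`), and `4 (2q+1)^2 (2q+3) ≤ 16 (q+1)^2 (2q+1)`, i.e.
`(2q+1)(2q+3) ≤ 4 (q+1)^2`.  For `c = 2 q + 1`: `choose (2q+1) q = choose (2q+2) (q+1) / 2`, so
`4 (choose (2q+1) q)^2 (2q+2) ≤ (choose (2q+2) (q+1))^2 (2q+3) ≤ 4 ^ (2q+2)`. -/
theorem co2a (c r : ℕ) : (c.choose r) ^ 2 * (c + 1) ≤ 4 ^ c := by
  have h0 : c.choose r ≤ c.choose (c / 2) := Nat.choose_le_middle r c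
  have h1 : (c.choose r) ^ 2 * (c + 1) ≤ (c.choose (c / 2)) ^ 2 * (c + 1) := by gcongr
  refine h1.trans ?_
  rcases Nat.even_or_odd' c with ⟨q, rfl | rfl⟩
  · have := Co1_central_sq q
    rw [Nat.mul_div_cancel_left q (by norm_num : 0 < 2)]
    exact this
  · have e : (2 * q + 1) / 2 = q := by omega
    rw [e]
    have h2 := Co1_central_sq (q + 1)
    have h3 : Nat.centralBinom (q + 1) = 2 * (2 * q + 1).choose q := by
      rw [Nat.centralBinom, show 2 * (q + 1) = (2 * q + 1) + 1 by ring, Nat.choose_succ_succ,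
        ← Nat.choose_symm_half q]
      ring
    rw [h3] at h2
    have h4 : 4 * (((2 * q + 1).choose q) ^ 2 * (2 * q + 1 + 1)) ≤ 4 * 4 ^ (2 * q + 1) := by
      calc 4 * (((2 * q + 1).choose q) ^ 2 * (2 * q + 1 + 1))
          ≤ 4 * (((2 * q + 1).choose q) ^ 2 * (2 * (q + 1) + 1)) := by gcongr; omega
        _ = (2 * (2 * q + 1).choose q) ^ 2 * (2 * (q + 1) + 1) := by ring
        _ ≤ 4 ^ (2 * (q + 1)) := h2
        _ = 4 * 4 ^ (2 * q + 1) := by ring
    exact Nat.le_of_mul_le_mul_left h4 (by norm_num)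

/-- **Co2b** (the number of sets with a given number of elements in each class).

PROOF. A set `R'` is determined by its parts `{i ∈ R' | κ i = j}`, which are subsets with `r j = #{i ∈ R | κ i = j}`
elements of the class `{i | κ i = j}`; so `sameProfile κ R ≤ ∏ j, choose (#{i | κ i = j}) (r j)`
(injection into `Fintype.piFinset fun j => ({i | κ i = j} : Finset _).powersetCard (r j)`, `Finset.card_powersetCard`,
`Fintype.card_piFinset`).  With `co2a`: `(sameProfile κ R)^2 * ∏ j, (#{i | κ i = j} + 1) ≤ ∏ j, 4 ^ #{i | κ i = j} =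
4 ^ n` (`Finset.card_eq_sum_card_fiberwise`, `Finset.prod_pow_eq_pow_sum`).  `W κ m` is the value for some `R` or `0`
(`Finset.exists_mem_eq_sup` or `Finset.sup_induction`). -/
theorem co2b {n c : ℕ} (κ : Fin n → Fin c) (m : ℕ) :
    W κ m ^ 2 * ∏ j, (1 + #{i | κ i = j}) ≤ 4 ^ n := by
  have hsp : ∀ R : Finset (Fin n), sameProfile κ R ^ 2 * ∏ j, (1 + #{i | κ i = j}) ≤ 4 ^ n := by
    intro R
    have h1 : sameProfile κ R ≤ ∏ j, (#{i | κ i = j}).choose (#{i ∈ R | κ i = j}) := by
      have h2 : ∏ j, (#{i | κ i = j}).choose (#{i ∈ R | κ i = j}) =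
          (Fintype.piFinset fun j => ({i | κ i = j} : Finset (Fin n)).powersetCard
            (#{i ∈ R | κ i = j})).card := by
        rw [Fintype.card_piFinset]
        exact Finset.prod_congr rfl fun j _ => by rw [Finset.card_powersetCard]
      rw [h2]
      unfold sameProfile
      refine Finset.card_le_card_of_injOn (fun R' j => {i ∈ R' | κ i = j}) ?_ ?_
      · intro R' hR'
        have hR2 : ∀ j, #{i ∈ R' | κ i = j} = #{i ∈ R | κ i = j} := by simpa using hR'
        rw [Finset.mem_coe, Fintype.mem_piFinset]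
        intro j
        rw [Finset.mem_powersetCard]
        refine ⟨?_, hR2 j⟩
        intro i hi
        rw [mem_filter] at hi
        rw [mem_filter]
        exact ⟨mem_univ _, hi.2⟩
      · intro R1 _ R2 _ h12
        ext i
        have h3 := congrFun h12 (κ i)
        have h4 : i ∈ ({x ∈ R1 | κ x = κ i} : Finset (Fin n)) ↔
            i ∈ ({x ∈ R2 | κ x = κ i} : Finset (Fin n)) := by
          simp only at h3
          rw [h3]
        simpa using h4
    calc sameProfile κ R ^ 2 * ∏ j, (1 + #{i | κ i = j})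
        ≤ (∏ j, (#{i | κ i = j}).choose (#{i ∈ R | κ i = j})) ^ 2 *
          ∏ j, (1 + #{i | κ i = j}) := by gcongr
      _ = ∏ j, ((#{i | κ i = j}).choose (#{i ∈ R | κ i = j}) ^ 2 * (#{i | κ i = j} + 1)) := by
          rw [← Finset.prod_pow, ← Finset.prod_mul_distrib]
          exact Finset.prod_congr rfl fun j _ => by rw [Nat.add_comm 1]
      _ ≤ ∏ j, 4 ^ (#{i | κ i = j}) := Finset.prod_le_prod' fun j _ => co2a _ _
      _ = 4 ^ n := by
          rw [Finset.prod_pow_eq_pow_sum]
          congr 1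
          have h5 := Finset.card_eq_sum_card_fiberwise (f := κ) (s := (univ : Finset (Fin n)))
            (t := univ) (fun _ _ => mem_univ _)
          rw [Finset.card_univ, Fintype.card_fin] at h5
          exact h5.symm
  unfold W
  rcases Finset.eq_empty_or_nonempty (univ.powersetCard m : Finset (Finset (Fin n))) with he | hne
  · rw [he]
    simp
  · obtain ⟨R, _, hR⟩ := Finset.exists_mem_eq_sup _ hne (sameProfile κ)
    rw [hR]
    exact hsp R

end Pool.Agent.TSD
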