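import Pool.Agent.TSD.Co1

set_option autoImplicit false

namespace Pool.Agent.TSD

open MvPolynomial Finset

universe u v w

/-- **Co3** (product bound).

PROOF. Let `m = n / 2`, `1 ≤ m < n` (`2 ≤ n`).  `2 ^ n ≤ (n + 1) * choose n m` (`Nat.sum_range_choose`,
`Nat.choose_le_middle`).  `W κ m ≥ 1` (`R ∈ powersetCard m univ` exists, and `R` itself is counted in
`sameProfile κ R`).  From `h`, `1 + choose n m / W κ m ≤ N` (one summand of the sum,
`Finset.single_le_sum`), so `choose n m < N * W κ m` (`Nat.div_lt_iff_lt_mul`), and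
`2 ^ n ≤ (n + 1) * N * W κ m`.  Square: `4 ^ n ≤ ((n + 1) N)^2 * W^2`; with `co2b`:
`W^2 * ∏ ≤ 4 ^ n ≤ ((n + 1) N)^2 * W^2`, cancel `W^2 > 0`. -/
theorem co3 {n c N : ℕ} (hn : 2 ≤ n) (κ : Fin n → Fin c)
    (h : 1 + ∑ m ∈ Ico 1 n, n.choose m / W κ m ≤ N) :
    ∏ j, (1 + #{i | κ i = j}) ≤ ((n + 1) * N) ^ 2 := by
  classical
  set m := n / 2 with hm
  have hm1 : 1 ≤ m := by omega
  have hmn : m < n := by omega
  -- W is positive
  have hW : 0 < W κ m := by
    obtain ⟨R, hR⟩ : ((univ : Finset (Fin n)).powersetCard m).Nonempty := by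
      rw [Finset.powersetCard_nonempty]
      simp
      omega
    have h1 : sameProfile κ R ≤ W κ m := Finset.le_sup (f := sameProfile κ) hR
    have h2 : 0 < sameProfile κ R := by
      unfold sameProfile
      rw [Finset.card_pos]
      exact ⟨R, by simp⟩
    omega
  have h2n : 2 ^ n ≤ (n + 1) * n.choose m := by
    rw [← Nat.sum_range_choose n]
    calc ∑ i ∈ range (n + 1), n.choose i ≤ ∑ _i ∈ range (n + 1), n.choose m :=
          Finset.sum_le_sum fun i _ => Nat.choose_le_middle i n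
      _ = (n + 1) * n.choose m := by simp
  have hs : n.choose m / W κ m ≤ ∑ m ∈ Ico 1 n, n.choose m / W κ m :=
    Finset.single_le_sum (f := fun m => n.choose m / W κ m) (fun _ _ => Nat.zero_le _)
      (Finset.mem_Ico.2 ⟨hm1, hmn⟩)
  have hc : n.choose m / W κ m < N := by omega
  rw [Nat.div_lt_iff_lt_mul hW] at hc
  have h3 : 2 ^ n ≤ (n + 1) * N * W κ m := by
    calc 2 ^ n ≤ (n + 1) * n.choose m := h2n
      _ ≤ (n + 1) * (N * W κ m) := Nat.mul_le_mul_left _ hc.le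
      _ = (n + 1) * N * W κ m := by ring
  have h4 : 4 ^ n ≤ ((n + 1) * N) ^ 2 * (W κ m) ^ 2 := by
    have : (2 ^ n) ^ 2 ≤ ((n + 1) * N * W κ m) ^ 2 := Nat.pow_le_pow_left h3 2
    calc 4 ^ n = (2 ^ n) ^ 2 := by rw [← pow_mul, mul_comm, pow_mul]; norm_num
      _ ≤ _ := this
      _ = _ := by ring
  have h5 := co2b κ m
  have hW2 : 0 < (W κ m) ^ 2 := by positivity
  refine Nat.le_of_mul_le_mul_left ?_ hW2
  calc _ ≤ 4 ^ n := h5
    _ ≤ _ := h4
    _ = _ := by ring

end Pool.Agent.TSD
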