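import Pool.Agent.TSD.SpL
import Pool.Agent.TSD.Bc

set_option autoImplicit false

namespace Pool.Agent.TSD

open MvPolynomial Finset
open Pool.Agent.H53.AC

universe u v w

/-- **CoE1** (an exact representation over `k` is an approximative one). -/
theorem coE1 {k : Type u} [Field k] {n N : ℕ}
    (M : Matrix (Fin N) (Fin N) (MvPolynomial (Fin n × Fin n) k))
    (hM : ∀ a b, (M a b).totalDegree ≤ 1) (hdet : M.det = perP k n) :
    BorderRep k (M.map (MvPolynomial.map (algebraMap k (RatFunc k)))) := by
  refine ⟨fun a b => ?_, fun m => ?_⟩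
  · refine le_trans ?_ (hM a b)
    rw [Matrix.map_apply]
    exact Finset.sup_mono (MvPolynomial.support_map_subset _ _)
  · have h1 : (M.map (MvPolynomial.map (algebraMap k (RatFunc k)))).det =
        MvPolynomial.map (algebraMap k (RatFunc k)) (perP k n) := by
      rw [← hdet, RingHom.map_det]
      rfl
    rw [h1, coeff_map]
    exact sp_c _

private theorem coE_sym {L F : Type u} [Field L] [Field F] (φ : L →+* F) {n c N : ℕ}
    (κ : Fin n → Fin c) (s : Fin n → L) (t : Fin c → L)
    (M M' : Matrix (Fin N) (Fin N) (MvPolynomial (Fin n × Fin n) L)) (P Q : Matrix (Fin N) (Fin N) L)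
    (h : M.map (rescale κ s t) * Q.map C = P.map C * M') :
    (M.map (MvPolynomial.map φ)).map (rescale κ (fun i => φ (s i)) (fun j => φ (t j))) *
      (Q.map φ).map C = (P.map φ).map C * M'.map (MvPolynomial.map φ) := by
  have h1 : ∀ f : MvPolynomial (Fin n × Fin n) L,
      MvPolynomial.map φ (rescale κ s t f) =
        rescale κ (fun i => φ (s i)) (fun j => φ (t j)) (MvPolynomial.map φ f) := by
    intro f
    induction f using MvPolynomial.induction_on with
    | C a => simp [rescale, algHom_C, algebraMap_eq]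
    | add p q hp hq => simp only [map_add, hp, hq]
    | mul_X p i hp => simp only [map_mul, hp]; simp [rescale]
  have h2 := congrArg (fun A => A.map (MvPolynomial.map φ)) h
  simp only [Matrix.map_mul, Matrix.map_map] at h2 ⊢
  have e1 : (⇑(MvPolynomial.map φ) ∘ ⇑(rescale κ s t) :
      MvPolynomial (Fin n × Fin n) L → MvPolynomial (Fin n × Fin n) F) =
      ⇑(rescale κ (fun i => φ (s i)) (fun j => φ (t j))) ∘ ⇑(MvPolynomial.map φ) :=
    funext h1
  have e2 : (⇑(MvPolynomial.map (σ := Fin n × Fin n) φ) ∘ ⇑(C : L →+* _) : L → _) =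
      ⇑(C : F →+* MvPolynomial (Fin n × Fin n) F) ∘ ⇑φ := by
    funext a
    simp
  rw [e1, e2] at h2
  exact h2

/-- **CoE2** (the symmetry of a matrix over `k` gives one over `k(ε)`). -/
theorem coE2 {k : Type u} [Field k] {n c N : ℕ} (κ : Fin n → Fin c)
    (M : Matrix (Fin N) (Fin N) (MvPolynomial (Fin n × Fin n) k)) (hR : RescaleSymmetric κ M) :
    RescaleSymmetric κ (M.map (MvPolynomial.map (algebraMap k (RatFunc k)))) := by
  classical
  obtain ⟨L, _, _, s, t, P, Q, hI, hP, hQ, h⟩ := hR
  let T := TensorProduct k L (RatFunc k)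
  haveI : Nontrivial T := inferInstance
  obtain ⟨I, hImax⟩ := Ideal.exists_maximal T
  letI : Field (T ⧸ I) := Ideal.Quotient.field I
  let φ : L →+* T ⧸ I := (Ideal.Quotient.mk I).comp
    (Algebra.TensorProduct.includeLeft (R := k) (S := k) (A := L) (B := RatFunc k)).toRingHom
  let ψ : RatFunc k →+* T ⧸ I := (Ideal.Quotient.mk I).comp
    (Algebra.TensorProduct.includeRight (R := k) (A := L) (B := RatFunc k)).toRingHom
  letI : Algebra (RatFunc k) (T ⧸ I) := ψ.toAlgebra
  have hcomp : φ.comp (algebraMap k L) = ψ.comp (algebraMap k (RatFunc k)) := by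
    ext a
    simp only [φ, ψ, RingHom.comp_apply]
    congr 1
    change (Algebra.TensorProduct.includeLeft (R := k) (S := k) (A := L) (B := RatFunc k))
      (algebraMap k L a) = (Algebra.TensorProduct.includeRight (R := k) (A := L) (B := RatFunc k))
      (algebraMap k (RatFunc k) a)
    rw [AlgHom.commutes, AlgHom.commutes]
  have hM : (M.map (MvPolynomial.map (algebraMap k (RatFunc k)))).map
      (MvPolynomial.map (algebraMap (RatFunc k) (T ⧸ I))) =
      (M.map (MvPolynomial.map (algebraMap k L))).map (MvPolynomial.map φ) := by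
    ext1 i j
    simp only [Matrix.map_apply, MvPolynomial.map_map]
    rw [hcomp]
    rfl
  refine ⟨T ⧸ I, inferInstance, inferInstance, fun i => φ (s i), fun j => φ (t j), P.map φ, Q.map φ,
    bc_indep φ s t hI, ?_, ?_, ?_⟩
  · have : (P.map φ).det = φ P.det := by rw [RingHom.map_det]; rfl
    rw [this]; exact hP.map φ
  · have : (Q.map φ).det = φ Q.det := by rw [RingHom.map_det]; rfl
    rw [this]; exact hQ.map φ
  · rw [hM]
    rcases h with h | h
    · left
      exact coE_sym φ κ s t _ _ P Q h
    · right
      have := coE_sym φ κ s t _ _ P Q h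
      rw [← Matrix.transpose_map] at this
      exact this

end Pool.Agent.TSD
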