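import Pool.Agent.TSD.Leib

set_option autoImplicit false

namespace Pool.Agent.TSD

open MvPolynomial Finset

universe u v w

/-- **Cyc** (every permutation of the columns gives one long cycle through `b0`).

PROOF. `leib` for `μ = pm σ`: `π`, `τ` with `∑ a, mo (τ a) = pm σ`, `cm M (τ a) a (π a) ≠ 0`.
(1) Let `T = {a | τ a ≠ none}`.  For `a ∉ T`: `π a = a` and `a ≠ b0` by `hnone`; so `b0 ∈ T`.  For `a ∈ T`,
`τ a = some p` with `(pm σ) p ≠ 0`, i.e. `p = (i, σ i)`; write `i = ρ a`.  Every `i` is `ρ a` for exactly one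
`a ∈ T` (value of `∑ a, mo (τ a) = pm σ` at `(i, σ i)`: `1`), so `ρ` is a bijection `T → Fin n`, `#T = n`.
`π` maps `T` to `T`: if `a ∈ T` and `π a ∉ T` then `π (π a) = π a`, so `π a = a ∈ T`, a contradiction.
Weights: for `a ∈ T` by `hg`: `(if a = b0 then w' else v a) = s (ρ a) * t (κ (σ (ρ a))) * v (π a)`.
(2) Every `a ∈ T` is in the cycle of `b0`.  Otherwise let `T' = {a ∈ T | ¬ π.SameCycle b0 a}`, nonempty, mapped
onto itself by `π`, `b0 ∉ T'`.  Multiply the weights over `T'`: `∏ v a = (∏ s (ρ a) * t (κ (σ (ρ a)))) * ∏ v (π a)`,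
and `∏ a ∈ T', v (π a) = ∏ a ∈ T', v a ≠ 0`, so `∏ i ∈ ρ(T'), s i * t (κ (σ i)) = 1`.  With
`x i = if i ∈ ρ(T') then 1 else 0`, `y j = #{i ∈ ρ(T') | κ (σ i) = j}` (`∑ x = ∑ y = #ρ(T')`) `hst.rel` gives
`x = 0`, a contradiction.
(3) So `T = {π^j b0 : j}` and as `#T = n` the elements `π^j b0`, `j < n`, are distinct (if `π^j b0 = b0` for some
`0 < j < n` then the cycle has at most `j` elements).  Put `S = {ρ (π^j b0) | j < m}` (image, `#S = m` as `ρ` is
injective on `T`) and `a = π^m b0 ≠ b0`.  By induction on `m ≤ n - 1`, `1 ≤ m`: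
`w' = (∏ j ∈ range m, s (ρ (π^j b0)) * t (κ (σ (ρ (π^j b0))))) * v (π^m b0)` (for `0 < j` `π^j b0 ≠ b0`). -/
theorem cyc {L : Type u} [Field L] {n c N : ℕ} (κ : Fin n → Fin c) (s : Fin n → L)
    (t : Fin c → L) (hst : Indep s t)
    (M : Matrix (Fin N) (Fin N) (MvPolynomial (Fin n × Fin n) L))
    (hM : ∀ a b, (M a b).totalDegree ≤ 1) (b0 : Fin N) (w' : L) (v : Fin N → L)
    (hv : ∀ a, v a ≠ 0) (hnone : ∀ a b, cm M none a b = if a = b ∧ a ≠ b0 then 1 else 0)
    (hg : ∀ o a b, cm M o a b ≠ 0 → (if a = b0 then w' else v a) = wt κ s t o * v b)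
    (σ : Equiv.Perm (Fin n)) (hσ : coeff (pm σ) M.det ≠ 0) (m : ℕ) (h1 : 1 ≤ m) (hm : m < n) :
    ∃ (S : Finset (Fin n)) (a : Fin N), #S = m ∧ a ≠ b0 ∧
      w' = (∏ i ∈ S, s i * t (κ (σ i))) * v a := by
  classical
  obtain ⟨π, τ, hτ, hcm⟩ := leib M hM (pm σ) hσ
  have hpm : ∀ i, pm σ (i, σ i) = 1 := by
    intro i
    unfold pm
    rw [Finsupp.finsetSum_apply, Finset.sum_eq_single i]
    · simp
    · intro i' _ hi'
      rw [Finsupp.single_apply, if_neg]
      intro h
      exact hi' (congrArg Prod.fst h)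
    · simp
  have hmo : ∀ (o : Option (Fin n × Fin n)) p, mo o p = if o = some p then 1 else 0 := by
    intro o p
    cases o with
    | none => simp [mo]
    | some q => simp [mo, Finsupp.single_apply]
  have hsum : ∀ p, ∑ a, (if τ a = some p then 1 else 0) = pm σ p := by
    intro p
    rw [← hτ, Finsupp.finsetSum_apply]
    exact Finset.sum_congr rfl fun a _ => (hmo _ _).symm
  have hex : ∀ i, ∃ a, τ a = some (i, σ i) := by
    intro i
    by_contra hcon
    push Not at hcon
    have h2 := hsum (i, σ i)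
    rw [hpm, Finset.sum_eq_zero (fun a _ => if_neg (hcon a))] at h2
    exact zero_ne_one h2
  choose r hr using hex
  have hrinj : Function.Injective r := by
    intro i i' hii
    have h2 := hr i
    rw [hii, hr i'] at h2
    exact (congrArg Prod.fst (Option.some.inj h2)).symm
  have huniq : ∀ a, τ a ≠ none → ∃ i, r i = a := by
    intro a ha
    obtain ⟨p, hp⟩ := Option.ne_none_iff_exists'.1 ha
    have h2 : pm σ p ≠ 0 := by
      rw [← hsum]
      intro h0
      have h3 := Finset.sum_eq_zero_iff.1 h0 a (Finset.mem_univ a)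
      rw [if_pos hp] at h3
      exact one_ne_zero h3
    have h3 : p = (p.1, σ p.1) := by
      by_contra hne
      apply h2
      unfold pm
      rw [Finsupp.finsetSum_apply]
      refine Finset.sum_eq_zero fun i' _ => ?_
      rw [Finsupp.single_apply, if_neg]
      intro h
      apply hne
      rw [← h]
    refine ⟨p.1, ?_⟩
    by_contra hne
    have h4 := hsum (p.1, σ p.1)
    rw [hpm] at h4
    have h5 : ∑ a' ∈ ({r p.1, a} : Finset (Fin N)), (if τ a' = some (p.1, σ p.1) then 1 else 0) ≤
        ∑ a', (if τ a' = some (p.1, σ p.1) then 1 else 0) :=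
      Finset.sum_le_sum_of_subset (Finset.subset_univ _)
    rw [Finset.sum_pair hne, if_pos (hr _), if_pos (by rw [hp, ← h3]), h4] at h5
    omega
  have hb0 : τ b0 ≠ none := by
    intro h
    have h2 := hcm b0
    rw [h, hnone] at h2
    simp at h2
  have hπT : ∀ a, τ a ≠ none → τ (π a) ≠ none := by
    intro a ha h
    have h2 := hcm (π a)
    rw [h, hnone] at h2
    have h3 : π a = π (π a) := by
      by_contra hne
      rw [if_neg (fun hh => hne hh.1)] at h2
      exact h2 rfl
    have h4 := π.injective h3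
    rw [← h4] at h
    exact ha h
  have hstep : ∀ i, r i ≠ b0 → v (r i) = s i * t (κ (σ i)) * v (π (r i)) := by
    intro i hi
    have h2 := hg _ _ _ (hcm (r i))
    rw [if_neg hi, hr i] at h2
    exact h2
  -- the iterates
  have hxT : ∀ j : ℕ, τ ((π ^ j) b0) ≠ none := by
    intro j
    induction j with
    | zero => simpa using hb0
    | succ j ih =>
      rw [pow_succ', Equiv.Perm.mul_apply]
      exact hπT _ ih
  have hne : ∀ j : ℕ, 0 < j → j < n → (π ^ j) b0 ≠ b0 := by
    intro j hj hjn hcyc
    obtain ⟨O, hO⟩ : ∃ O : Finset (Fin N), O = (Finset.range j).image fun i => (π ^ i) b0 :=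
      ⟨_, rfl⟩
    have hOcard : #O ≤ j := by
      rw [hO]
      exact Finset.card_image_le.trans (by rw [Finset.card_range])
    have hb0O : b0 ∈ O := by
      rw [hO, Finset.mem_image]
      exact ⟨0, Finset.mem_range.2 hj, rfl⟩
    have hOπ : ∀ a ∈ O, π a ∈ O := by
      intro a ha
      rw [hO, Finset.mem_image] at ha
      obtain ⟨i, hi, rfl⟩ := ha
      rw [Finset.mem_range] at hi
      rw [← Equiv.Perm.mul_apply, ← pow_succ']
      rcases Nat.lt_or_ge (i + 1) j with h2 | h2
      · rw [hO, Finset.mem_image]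
        exact ⟨i + 1, Finset.mem_range.2 h2, rfl⟩
      · have h3 : i + 1 = j := by omega
        rw [h3, hcyc]
        exact hb0O
    have hOmap : O.map π.toEmbedding = O := by
      refine Finset.eq_of_subset_of_card_le ?_ (by rw [Finset.card_map])
      intro a ha
      rw [Finset.mem_map] at ha
      obtain ⟨a', ha', rfl⟩ := ha
      exact hOπ a' ha'
    obtain ⟨I', hI'⟩ : ∃ I' : Finset (Fin n), I' = Finset.univ.filter (fun i => r i ∉ O) :=
      ⟨_, rfl⟩
    have hI'ne : I'.Nonempty := by
      by_contra hemp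
      rw [Finset.not_nonempty_iff_eq_empty] at hemp
      have h2 : (Finset.univ : Finset (Fin n)).image r ⊆ O := by
        intro a ha
        rw [Finset.mem_image] at ha
        obtain ⟨i, -, rfl⟩ := ha
        by_contra hcon
        have h3 : i ∈ I' := by
          rw [hI']
          simpa using hcon
        rw [hemp] at h3
        simp at h3
      have h3 := Finset.card_le_card h2
      rw [Finset.card_image_of_injective _ hrinj, Finset.card_univ, Fintype.card_fin] at h3
      omega
    have hmemI' : ∀ i, i ∈ I' ↔ r i ∉ O := by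
      intro i
      rw [hI']
      simp
    obtain ⟨T', hT'⟩ : ∃ T' : Finset (Fin N), T' = I'.map ⟨r, hrinj⟩ := ⟨_, rfl⟩
    have hT'map : T'.map π.toEmbedding = T' := by
      refine Finset.eq_of_subset_of_card_le ?_ (by rw [Finset.card_map])
      intro a ha
      rw [Finset.mem_map] at ha
      obtain ⟨a', ha', rfl⟩ := ha
      rw [hT', Finset.mem_map] at ha'
      obtain ⟨i, hi, rfl⟩ := ha'
      change π (r i) ∈ T'
      obtain ⟨i', hi'⟩ := huniq (π (r i)) (hπT _ (by rw [hr]; simp))
      rw [← hi', hT', Finset.mem_map]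
      refine ⟨i', ?_, rfl⟩
      rw [hmemI', hi']
      intro h2
      rw [hmemI'] at hi
      apply hi
      rw [← hOmap, Finset.mem_map] at h2
      obtain ⟨a', ha', h3⟩ := h2
      have h4 : a' = r i := π.injective h3
      rw [← h4]
      exact ha'
    have hprod : ∏ i ∈ I', v (r i) = (∏ i ∈ I', s i * t (κ (σ i))) * ∏ i ∈ I', v (π (r i)) := by
      rw [← Finset.prod_mul_distrib]
      refine Finset.prod_congr rfl fun i hi => ?_
      refine hstep i ?_
      intro h2
      rw [hmemI', h2] at hi
      exact hi hb0O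
    have hprod2 : ∏ i ∈ I', v (π (r i)) = ∏ i ∈ I', v (r i) := by
      have h2 : ∏ i ∈ I', v (r i) = ∏ a ∈ T', v a := by
        rw [hT', Finset.prod_map]
        rfl
      have h3 : ∏ i ∈ I', v (π (r i)) = ∏ a ∈ T'.map π.toEmbedding, v a := by
        rw [Finset.prod_map, hT', Finset.prod_map]
        rfl
      rw [h2, h3, hT'map]
    rw [hprod2] at hprod
    have hprod3 : ∏ i ∈ I', s i * t (κ (σ i)) = 1 := by
      have h2 : ∏ i ∈ I', v (r i) ≠ 0 := Finset.prod_ne_zero_iff.2 fun i _ => hv _
      refine mul_right_cancel₀ h2 ?_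
      rw [one_mul]
      exact hprod.symm
    have hrel := hst.rel (fun i => if i ∈ I' then 1 else 0)
      (fun j => (#{i ∈ I' | κ (σ i) = j} : ℤ)) ?_ ?_
    · obtain ⟨i, hi⟩ := hI'ne
      have h2 := congrFun hrel.1 i
      simp [hi] at h2
    · rw [Finset.sum_ite_mem, Finset.univ_inter, Finset.sum_const, nsmul_eq_mul, mul_one]
      rw [Finset.card_eq_sum_card_fiberwise (f := fun i => κ (σ i)) (t := Finset.univ)
        (fun i _ => Finset.mem_coe.2 (Finset.mem_univ _))]
      push_cast
      rfl
    · have h2 : ∏ i, s i ^ (if i ∈ I' then (1 : ℤ) else 0) = ∏ i ∈ I', s i := by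
        rw [← Finset.prod_filter_mul_prod_filter_not Finset.univ (fun i => i ∈ I')]
        rw [Finset.prod_congr rfl (g := fun i => s i) (fun i hi => by
          rw [if_pos (Finset.mem_filter.1 hi).2, zpow_one])]
        rw [Finset.prod_congr (s₁ := Finset.univ.filter fun i => ¬ i ∈ I') rfl
          (g := fun i => (1 : L)) (fun i hi => by
          rw [if_neg (Finset.mem_filter.1 hi).2, zpow_zero])]
        rw [Finset.prod_const_one, mul_one]
        refine Finset.prod_congr ?_ fun _ _ => rfl
        ext i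
        simp
      have h3 : ∏ j, t j ^ (#{i ∈ I' | κ (σ i) = j} : ℤ) = ∏ i ∈ I', t (κ (σ i)) := by
        rw [← Finset.prod_fiberwise_of_maps_to (s := I') (t := Finset.univ)
          (g := fun i => κ (σ i)) (fun i _ => Finset.mem_univ _)]
        refine Finset.prod_congr rfl fun j _ => ?_
        rw [Finset.prod_congr rfl (g := fun _ => t j) (fun i hi => by
          rw [(Finset.mem_filter.1 hi).2]), Finset.prod_const, zpow_natCast]
      rw [h2, h3, ← Finset.prod_mul_distrib]
      exact hprod3
  choose ρ hρ using fun j : ℕ => huniq _ (hxT j)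
  have hρinj : Set.InjOn ρ (Finset.range m : Set ℕ) := by
    have key : ∀ i j : ℕ, i < j → j < n → ρ i ≠ ρ j := by
      intro i j hij hjn heq
      have h2 : (π ^ i) b0 = (π ^ j) b0 := by rw [← hρ, ← hρ, heq]
      refine hne (j - i) (by omega) (by omega) ?_
      have h3 : π ^ j = π ^ i * π ^ (j - i) := by
        rw [← pow_add]
        congr 1
        omega
      rw [h3, Equiv.Perm.mul_apply] at h2
      exact ((π ^ i).injective h2).symm
    intro i hi j hj hij
    rw [Finset.coe_range, Set.mem_Iio] at hi hj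
    rcases lt_trichotomy i j with h2 | h2 | h2
    · exact absurd hij (key i j h2 (by omega))
    · exact h2
    · exact absurd hij.symm (key j i h2 (by omega))
  refine ⟨(Finset.range m).image ρ, (π ^ m) b0, ?_, hne m (by omega) hm, ?_⟩
  · rw [Finset.card_image_of_injOn hρinj, Finset.card_range]
  · rw [Finset.prod_image (fun i hi j hj hij => hρinj (Finset.mem_coe.2 hi) (Finset.mem_coe.2 hj)
      hij)]
    have key : ∀ m : ℕ, 1 ≤ m → m < n →
        w' = (∏ j ∈ Finset.range m, s (ρ j) * t (κ (σ (ρ j)))) * v ((π ^ m) b0) := by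
      intro m h1
      induction m, h1 using Nat.le_induction with
      | base =>
        intro _
        rw [Finset.prod_range_one, pow_one]
        have h2 := hg _ _ _ (hcm b0)
        rw [if_pos rfl] at h2
        have h3 : r (ρ 0) = b0 := by
          rw [hρ]
          simp
        have h4 := hr (ρ 0)
        rw [h3] at h4
        rw [h4] at h2
        exact h2
      | succ m h1 ih =>
        intro hmn
        rw [ih (by omega), Finset.prod_range_succ, mul_assoc]
        congr 1
        have h2 := hstep (ρ m) (by rw [hρ]; exact hne m (by omega) (by omega))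
        rw [hρ, ← Equiv.Perm.mul_apply, ← pow_succ'] at h2
        exact h2
    exact key m h1 hm

end Pool.Agent.TSD
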