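import Pool.Agent.H53.AC.Defs

/-!
# MP_9ce8c8_lc: approximative determinantal representations of the permanent with one rescaling
symmetry

Definitions.
-/

set_option autoImplicit false

namespace Pool.Agent.TSD

open MvPolynomial Finset
open Pool.Agent.H53.AC

universe u v w

/-! ### notions used in the statement -/

/-- The permanent of the `n × n` matrix of distinct variables. -/
noncomputable def perP (R : Type u) [CommRing R] (n : ℕ) : MvPolynomial (Fin n × Fin n) R :=
  Matrix.permanent (Matrix.of fun i j => X (i, j))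

/-- The rescaling of the rows and of the classes of columns: `x_ij ↦ s_i t_(κ j) x_ij`. -/
noncomputable def rescale {L : Type u} [Field L] {n c : ℕ} (κ : Fin n → Fin c)
    (s : Fin n → L) (t : Fin c → L) :
    MvPolynomial (Fin n × Fin n) L →ₐ[L] MvPolynomial (Fin n × Fin n) L :=
  aeval fun p => C (s p.1 * t (κ p.2)) * X p

/-- The factors `s_i`, `t_j` are different from `0` and multiplicatively independent, up to the
relations forced by `(λ s_i) (λ⁻¹ t_j) = s_i t_j`. -/
structure Indep {L : Type u} [Field L] {n c : ℕ} (s : Fin n → L) (t : Fin c → L) : Prop where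
  s_ne : ∀ i, s i ≠ 0
  t_ne : ∀ j, t j ≠ 0
  rel : ∀ (a : Fin n → ℤ) (b : Fin c → ℤ), ∑ i, a i = ∑ j, b j →
    (∏ i, s i ^ a i) * ∏ j, t j ^ b j = 1 → a = 0 ∧ b = 0

/-- The number of sets of columns with as many elements in each class as `R`. -/
def sameProfile {n c : ℕ} (κ : Fin n → Fin c) (R : Finset (Fin n)) : ℕ :=
  #{R' : Finset (Fin n) | ∀ j, #{i ∈ R' | κ i = j} = #{i ∈ R | κ i = j}}

/-- The largest number of `m`-element sets of columns with the same number of elements in each
class. -/
def W {n c : ℕ} (κ : Fin n → Fin c) (m : ℕ) : ℕ :=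
  (univ.powersetCard m).sup (sameProfile κ)

/-- `M` is a matrix of polynomials of degree at most `1` over `k(ε)` whose determinant is defined
at `ε = 0` and is the permanent there. -/
def BorderRep (k : Type u) [Field k] {n N : ℕ}
    (M : Matrix (Fin N) (Fin N) (MvPolynomial (Fin n × Fin n) (RatFunc k))) : Prop :=
  (∀ a b, (M a b).totalDegree ≤ 1) ∧
    ∀ m, SpecializesTo (coeff m M.det) (coeff m (perP k n))

/-- Over some extension `L` of `K` some independent rescaling of the rows and of the classes of
columns maps `M` to `P M Q⁻¹` or to `P Mᵀ Q⁻¹`, with invertible matrices `P`, `Q` over `L`. -/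
def RescaleSymmetric {K : Type u} [Field K] {n c N : ℕ} (κ : Fin n → Fin c)
    (M : Matrix (Fin N) (Fin N) (MvPolynomial (Fin n × Fin n) K)) : Prop :=
  ∃ (L : Type u) (_ : Field L) (_ : Algebra K L) (s : Fin n → L) (t : Fin c → L)
    (P Q : Matrix (Fin N) (Fin N) L), Indep s t ∧ IsUnit P.det ∧ IsUnit Q.det ∧
    ((M.map (MvPolynomial.map (algebraMap K L))).map (rescale κ s t) * Q.map C =
        P.map C * M.map (MvPolynomial.map (algebraMap K L)) ∨
      (M.map (MvPolynomial.map (algebraMap K L))).map (rescale κ s t) * Q.map C =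
        P.map C * (M.map (MvPolynomial.map (algebraMap K L))).transpose)

/-! ### auxiliary notions -/

/-- The monomial `1` or a variable. -/
noncomputable def mo {σ : Type v} (o : Option σ) : σ →₀ ℕ := o.elim 0 fun p => Finsupp.single p 1

/-- The matrix of the coefficients of `mo o` in the entries of `M`. -/
noncomputable def cm {L : Type u} [CommRing L] {σ : Type v} {ι : Type w}
    (M : Matrix ι ι (MvPolynomial σ L)) (o : Option σ) : Matrix ι ι L :=
  M.map (coeff (mo o))

/-- The factor of the monomial `mo o` under the rescaling. -/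
def wt {L : Type u} [Field L] {n c : ℕ} (κ : Fin n → Fin c) (s : Fin n → L) (t : Fin c → L)
    (o : Option (Fin n × Fin n)) : L := o.elim 1 fun p => s p.1 * t (κ p.2)

/-- The monomial of a permutation. -/
noncomputable def pm {n : ℕ} (σ : Equiv.Perm (Fin n)) : (Fin n × Fin n) →₀ ℕ :=
  ∑ i, Finsupp.single (i, σ i) 1

/-- The permanent of the matrix with first row `z` and other rows `Y i`. -/
def pr {R : Type u} [CommRing R] {n : ℕ} (z : Fin (n + 1) → R) (Y : Fin n → Fin (n + 1) → R) : R :=
  Matrix.permanent (Matrix.of (Fin.cons z Y : Fin (n + 1) → Fin (n + 1) → R))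

/-- The assignment of the row `z` to the first row of variables and of `Y i` to the others. -/
def asg {R : Type u} {n : ℕ} (z : Fin (n + 1) → R) (Y : Fin n → Fin (n + 1) → R) :
    Fin (n + 1) × Fin (n + 1) → R :=
  fun p => (Fin.cons z Y : Fin (n + 1) → Fin (n + 1) → R) p.1 p.2

/-- Block matrix: in the rows with `p i` it has the column `z` at `a0`, the columns of `Z` at the
`m ≠ a0` with `p m`, zeros at the other columns; its other rows are those of the identity. -/
def aux {S : Type u} [CommRing S] {ι : Type v} [DecidableEq ι] (p : ι → Prop) [DecidablePred p]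
    (a0 : ι) (Z : Matrix ι ι S) (z : ι → S) : Matrix ι ι S :=
  fun i m => if p i then (if m = a0 then z i else if p m then Z i m else 0)
    else if i = m then 1 else 0

/-- The maximal minors of the block of `Z` with the rows `p` and the columns `p` without `a0`. -/
def gg {S : Type u} [CommRing S] {ι : Type v} [DecidableEq ι] [Fintype ι] (p : ι → Prop)
    [DecidablePred p] (a0 : ι) (Z : Matrix ι ι S) (a : ι) : S :=
  (aux p a0 Z (Pi.single a 1)).det

/-- The complementary predicate: not `p`, or equal to `a0`. -/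
def cp {ι : Type v} (p : ι → Prop) (a0 : ι) : ι → Prop := fun i => ¬ p i ∨ i = a0

instance {ι : Type v} [DecidableEq ι] (p : ι → Prop) [DecidablePred p] (a0 : ι) :
    DecidablePred (cp p a0) := fun i => inferInstanceAs (Decidable (¬ p i ∨ i = a0))

/-- A good test family: `m + 1` rows of `m + 2` forms in three variables. -/
structure Good (k : Type u) [Field k] (m : ℕ) (α : Fin (m + 1) → ℕ)
    (Y : Fin (m + 1) → Fin (m + 2) → MvPolynomial (Fin 3) k) : Prop where
  pos : ∀ i, 1 ≤ α i
  hom : ∀ i j, (Y i j).IsHomogeneous (α i)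
  full : ∃ D : ℕ, ∀ l : Fin 3, (X l : MvPolynomial (Fin 3) k) ^ D ∈
    Ideal.span (Set.range fun j => pr (Pi.single j 1) Y)
  diag : ∃ (e : k) (a b : ℕ) (q : MvPolynomial (Fin 3) k), e ≠ 0 ∧
    pr (Y 0) Y = C e * X 1 ^ a * X 2 ^ b + X 0 * q

/-- `1` for the variables of the row `i0`, `0` for the others and for the constant term. -/
def r0 {n : ℕ} (i0 : Fin n) (o : Option (Fin n × Fin n)) : ℤ :=
  o.elim 0 fun p => if p.1 = i0 then 1 else 0

/-- The ideal generated by the minors `gg`. -/
def Ig {S : Type u} [CommRing S] {ι : Type v} [DecidableEq ι] [Fintype ι] (p : ι → Prop)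
    [DecidablePred p] (a0 : ι) (Z : Matrix ι ι S) : Ideal S :=
  Ideal.span {x | ∃ a, p a ∧ gg p a0 Z a = x}

/-- The rows of the next test family. -/
def nxt {R : Type u} [CommRing R] {m : ℕ} (c d : R) (b : Fin (m + 2) → R)
    (Y : Fin (m + 1) → Fin (m + 2) → R) : Fin (m + 2) → Fin (m + 3) → R :=
  Fin.cons (Fin.cons c (Y 0)) (Fin.cons (Fin.cons d b) fun i : Fin m => Fin.cons 0 (Y i.succ))

/-- The rows `a ≠ b0` which are reached after `m` steps. -/
noncomputable def Dset {L : Type u} [Field L] {n c N : ℕ} (κ : Fin n → Fin c) (s : Fin n → L)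
    (t : Fin c → L) (b0 : Fin N) (w' : L) (v : Fin N → L) (m : ℕ) : Finset (Fin N) :=
  open Classical in
  {a | a ≠ b0 ∧ ∃ (S : Finset (Fin n)) (σ : Equiv.Perm (Fin n)), #S = m ∧
    w' = (∏ i ∈ S, s i * t (κ (σ i))) * v a}

/-- The sum over the paths from `S` to the full set: over the bijections of the rows with index at
least `#S` and the columns not in `S`. -/
noncomputable def pth (R : Type u) [CommRing R] {n : ℕ} (S : Finset (Fin n)) :
    MvPolynomial (Fin n × Fin n) R :=
  ∑ f : {i : Fin n // #S ≤ i.val} ≃ {j : Fin n // j ∉ S}, ∏ i, X (i.1, (f i).1)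

/-- The index set of Grenet's matrix: the proper subsets. -/
abbrev Psub (n : ℕ) : Type := {S : Finset (Fin n) // S ≠ univ}

/-- Grenet's matrix. -/
noncomputable def grM (R : Type u) [CommRing R] (n : ℕ) :
    Matrix (Psub n) (Psub n) (MvPolynomial (Fin n × Fin n) R) :=
  fun S T => (if S = T ∧ S.1 ≠ ∅ then -1 else 0) +
    ∑ i : Fin n, ∑ j : Fin n, if i.val = #S.1 ∧ j ∉ S.1 ∧
      (T.1 = insert j S.1 ∨ (insert j S.1 = univ ∧ T.1 = ∅)) then X (i, j) else 0

end Pool.Agent.TSD
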