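import Pool.Agent.TSD.Defs

/-!
# MP_9ce8c8_lc: the sizes of the determinantal representations with the symmetry
-/

set_option autoImplicit false

namespace Pool.Agent.TSD

open MvPolynomial Finset

universe u

/-- The permanent is the determinant of an `N × N` matrix over `k[x]` with entries of degree at most
`1` and with the rescaling symmetry. -/
def SymDetLE (k : Type u) [Field k] {n c : ℕ} (κ : Fin n → Fin c) (N : ℕ) : Prop :=
  ∃ M : Matrix (Fin N) (Fin N) (MvPolynomial (Fin n × Fin n) k),
    (∀ a b, (M a b).totalDegree ≤ 1) ∧ M.det = perP k n ∧ RescaleSymmetric κ M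

/-- The approximative version of `SymDetLE`. -/
def SymBorderDetLE (k : Type u) [Field k] {n c : ℕ} (κ : Fin n → Fin c) (N : ℕ) : Prop :=
  ∃ M : Matrix (Fin N) (Fin N) (MvPolynomial (Fin n × Fin n) (RatFunc k)),
    BorderRep k M ∧ RescaleSymmetric κ M

end Pool.Agent.TSD
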