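import Pool.Agent.TSD.GgL

set_option autoImplicit false

namespace Pool.Agent.TSD

open MvPolynomial Finset

universe u v w

/-- **Ev** (over a field a left inverse gives a nonzero maximal minor).

PROOF. Choose `ψ b` for all `b` with `p b`, `b ≠ a0`.  Let `G` be the matrix with the rows
`G b = ψ b` for `p b`, `b ≠ a0`; `G a0 = 0`; `G b = Pi.single b 1` for `¬ p b`.  It has a zero row, so
`G.det = 0` (`Matrix.det_eq_zero_of_row_eq_zero`) and there is `c ≠ 0` with `G *ᵥ c = 0`
(`Matrix.exists_mulVec_eq_zero_iff`): `c i = 0` for `¬ p i` and `∑ i, ψ b i * c i = 0`.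
The matrix `A = aux p a0 Z c` has trivial kernel: let `A *ᵥ x = 0`.  Rows `¬ p i`: `x i = 0`.  Rows `p i`:
`c i * x a0 + ∑ (m : p m, m ≠ a0) Z i m * x m = 0`; multiply by `ψ b i` and sum over `i` (`ψ b i = 0` for
`¬ p i`): `0 + x b = 0`.  So `x m = 0` for `m ≠ a0` and `c i * x a0 = 0` for all `p i`; some `c i ≠ 0`
(with `p i`), so `x a0 = 0`.  Hence `A.det ≠ 0` (`Matrix.exists_mulVec_eq_zero_iff`) and by `det_aux` some
summand `c a * gg p a0 Z a` is nonzero. -/
theorem ev {F : Type u} [Field F] {ι : Type v} [DecidableEq ι] [Fintype ι] (p : ι → Prop)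
    [DecidablePred p] (a0 : ι) (ha0 : p a0) (Z : Matrix ι ι F)
    (h : ∀ b, p b → b ≠ a0 → ∃ ψ : ι → F, (∀ i, ¬ p i → ψ i = 0) ∧ ∀ m, p m → m ≠ a0 →
      ∑ i, ψ i * Z i m = if m = b then 1 else 0) :
    ∃ a, p a ∧ gg p a0 Z a ≠ 0 := by
  choose! ψ hψ0 hψ using h
  set G : Matrix ι ι F := fun b => if p b then (if b = a0 then 0 else ψ b) else Pi.single b 1
    with hGdef
  have hG : G.det = 0 := Matrix.det_eq_zero_of_row_eq_zero a0 (fun j => by simp [hGdef, ha0])
  obtain ⟨c, hc0, hc⟩ := Matrix.exists_mulVec_eq_zero_iff.mpr hG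
  have hcn : ∀ i, ¬ p i → c i = 0 := by
    intro i hi
    have h1 := congrFun hc i
    simpa [hGdef, hi, Matrix.mulVec, dotProduct, Pi.single_apply] using h1
  have hcψ : ∀ b, p b → b ≠ a0 → ∑ i, ψ b i * c i = 0 := by
    intro b hb hba
    have h1 := congrFun hc b
    simpa [hGdef, hb, hba, Matrix.mulVec, dotProduct] using h1
  have hker : ∀ x : ι → F, Matrix.mulVec (aux p a0 Z c) x = 0 → x = 0 := by
    intro x hx
    have h1 : ∀ i, ¬ p i → x i = 0 := by
      intro i hi
      have h2 := congrFun hx i
      simpa [aux, hi, Matrix.mulVec, dotProduct] using h2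
    have h2 : ∀ i, p i → c i * x a0 + ∑ m, (if m = a0 then 0 else if p m then Z i m * x m else 0)
        = 0 := by
      intro i hi
      have h3 : ∑ m, aux p a0 Z c i m * x m = 0 := congrFun hx i
      have h4 : ∀ m, aux p a0 Z c i m * x m = (if m = a0 then c i * x a0 else 0) +
          (if m = a0 then 0 else if p m then Z i m * x m else 0) := by
        intro m
        by_cases hm : m = a0
        · subst hm
          simp [aux, hi]
        · by_cases hpm : p m
          · simp [aux, hi, hm, hpm]
          · simp [aux, hi, hm, hpm]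
      rw [Finset.sum_congr rfl (fun m _ => h4 m), Finset.sum_add_distrib, Finset.sum_ite_eq',
        if_pos (Finset.mem_univ a0)] at h3
      exact h3
    have h3 : ∀ b, p b → b ≠ a0 → x b = 0 := by
      intro b hb hba
      have h4 : ∑ i, ψ b i * (c i * x a0 +
          ∑ m, (if m = a0 then 0 else if p m then Z i m * x m else 0)) = 0 := by
        refine Finset.sum_eq_zero (fun i _ => ?_)
        by_cases hi : p i
        · rw [h2 i hi, mul_zero]
        · rw [hψ0 b hb hba i hi, zero_mul]
      have h5 : ∑ i, ψ b i * (c i * x a0 +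
          ∑ m, (if m = a0 then 0 else if p m then Z i m * x m else 0)) =
          (∑ i, ψ b i * c i) * x a0 +
          ∑ m, (if m = a0 then 0 else if p m then (∑ i, ψ b i * Z i m) * x m else 0) := by
        simp only [mul_add, Finset.sum_add_distrib, Finset.mul_sum]
        congr 1
        · rw [Finset.sum_mul]
          exact Finset.sum_congr rfl (fun i _ => by ring)
        · rw [Finset.sum_comm]
          refine Finset.sum_congr rfl (fun m _ => ?_)
          by_cases hm : m = a0
          · simp [hm]
          · by_cases hpm : p m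
            · simp only [hm, hpm, if_false, if_true, Finset.sum_mul]
              exact Finset.sum_congr rfl (fun i _ => by ring)
            · simp [hm, hpm]
      rw [h5, hcψ b hb hba, zero_mul, zero_add] at h4
      have h6 : ∑ m, (if m = a0 then 0 else if p m then (∑ i, ψ b i * Z i m) * x m else 0) =
          x b := by
        rw [Finset.sum_eq_single b]
        · simp [hba, hb, hψ b hb hba b hb hba]
        · intro m _ hmb
          by_cases hm : m = a0
          · simp [hm]
          · by_cases hpm : p m
            · simp [hm, hpm, hψ b hb hba m hpm hm, hmb]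
            · simp [hm, hpm]
        · intro hb'
          exact absurd (Finset.mem_univ b) hb'
      rw [h6] at h4
      exact h4
    have h4 : ∀ i, p i → c i * x a0 = 0 := by
      intro i hi
      have h5 := h2 i hi
      rwa [Finset.sum_eq_zero, add_zero] at h5
      intro m _
      by_cases hm : m = a0
      · simp [hm]
      · by_cases hpm : p m
        · simp [hm, hpm, h3 m hpm hm]
        · simp [hm, hpm]
    obtain ⟨i, hi⟩ := Function.ne_iff.mp hc0
    have hpi : p i := by
      by_contra hpi
      exact hi (hcn i hpi)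
    have h5 : x a0 = 0 := by
      rcases mul_eq_zero.mp (h4 i hpi) with h | h
      · exact absurd h hi
      · exact h
    funext m
    by_cases hm : m = a0
    · rw [hm, h5]; rfl
    · by_cases hpm : p m
      · rw [h3 m hpm hm]; rfl
      · rw [h1 m hpm]; rfl
  have hdet : (aux p a0 Z c).det ≠ 0 := by
    intro h0
    obtain ⟨x, hx0, hx⟩ := Matrix.exists_mulVec_eq_zero_iff.mpr h0
    exact hx0 (hker x hx)
  rw [det_aux p a0 ha0] at hdet
  obtain ⟨a, -, ha⟩ := Finset.exists_ne_zero_of_sum_ne_zero hdet
  by_cases hpa : p a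
  · rw [if_pos hpa] at ha
    exact ⟨a, hpa, right_ne_zero_of_mul ha⟩
  · rw [if_neg hpa] at ha
    exact absurd rfl ha

end Pool.Agent.TSD
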