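import Pool.Agent.TSD.Defs

set_option autoImplicit false

namespace Pool.Agent.TSD

open MvPolynomial Finset

universe u v w

/-- **Eva1**.  Evaluation of a polynomial of degree at most one.

PROOF. First `f = C (coeff 0 f) + ∑ p, C (coeff (single p 1) f) * X p`: compare coefficients; a monomial
`m` with `coeff m f ≠ 0` has degree at most one (`MvPolynomial.le_totalDegree`), so `m = 0` or
`m = single p 1`.  Then apply `aeval v` (`map_add`, `map_sum`, `aeval_C`, `aeval_X`). -/
theorem eva {R : Type u} [CommRing R] {σ : Type v} [Fintype σ] {B : Type w} [CommRing B]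
    [Algebra R B] (f : MvPolynomial σ R) (hf : f.totalDegree ≤ 1) (v : σ → B) :
    aeval v f = algebraMap R B (coeff 0 f) +
      ∑ p, algebraMap R B (coeff (Finsupp.single p 1) f) * v p := by
  classical
  have key : f = C (coeff 0 f) + ∑ p, C (coeff (Finsupp.single p 1) f) * X p := by
    ext m
    rw [coeff_add, coeff_C, coeff_sum]
    by_cases hm0 : m = 0
    · subst hm0
      rw [if_pos rfl, Finset.sum_eq_zero, add_zero]
      intro p _
      rw [coeff_C_mul, coeff_X, if_neg, mul_zero]
      intro h
      have := DFunLike.congr_fun h p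
      simp at this
    · rw [if_neg (Ne.symm hm0), zero_add]
      by_cases hm : ∃ p, m = Finsupp.single p 1
      · obtain ⟨p, rfl⟩ := hm
        rw [Finset.sum_eq_single p]
        · rw [coeff_C_mul, coeff_X, if_pos rfl, mul_one]
        · intro q _ hq
          rw [coeff_C_mul, coeff_X, if_neg, mul_zero]
          intro h
          exact hq (Finsupp.single_left_injective one_ne_zero h)
        · intro h
          exact absurd (Finset.mem_univ _) h
      · rw [Finset.sum_eq_zero]
        · by_contra hne
          have hdeg : (m.sum fun _ e => e) ≤ 1 := (le_totalDegree (mem_support_iff.2 hne)).trans hf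
          obtain ⟨p, hp⟩ : ∃ p, m p ≠ 0 := by
            by_contra hcon
            push Not at hcon
            exact hm0 (Finsupp.ext hcon)
          have hsum : (m.sum fun _ e => e) = ∑ q, m q :=
            Finsupp.sum_fintype _ _ (fun _ => rfl)
          rw [hsum] at hdeg
          have h1 : m p + ∑ q ∈ Finset.univ.erase p, m q ≤ 1 := by
            rw [Finset.add_sum_erase _ _ (Finset.mem_univ p)]
            exact hdeg
          refine hm ⟨p, Finsupp.ext fun q => ?_⟩
          by_cases hqp : q = p
          · subst hqp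
            rw [Finsupp.single_eq_same]
            omega
          · rw [Finsupp.single_eq_of_ne hqp]
            have h2 : m q ≤ ∑ q ∈ Finset.univ.erase p, m q :=
              Finset.single_le_sum (f := fun q => m q) (fun _ _ => Nat.zero_le _)
                (Finset.mem_erase.2 ⟨hqp, Finset.mem_univ q⟩)
            omega
        · intro p _
          rw [coeff_C_mul, coeff_X, if_neg, mul_zero]
          intro h
          exact hm ⟨p, h.symm⟩
  conv_lhs => rw [key]
  simp only [map_add, map_sum, map_mul, aeval_C, aeval_X]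

/-- **Eva2**.  A polynomial of degree one in the first row of variables.

PROOF. `aeval v f = ∑ μ ∈ f.support, algebraMap (coeff μ f) * ∏ p, v p ^ μ p` (`MvPolynomial.aeval_def`,
`eval₂_eq'`).  Split the product over `Fin (n + 1) × Fin (n + 1)` into the rows (`Fintype.prod_prod_type`,
`Fin.prod_univ_succ`): the row `0` is `∏ j, (ξ * z j) ^ μ (0, j) = ξ ^ (∑ j, μ (0, j)) * ∏ j, z j ^ μ (0, j)`
(`mul_pow`, `prod_mul_distrib`, `prod_pow_eq_pow_sum`), and the exponent is `1` by `hf`; the other rows do
not depend on `ξ` (`asg (_) Y (i.succ, j) = Y i j`, `Fin.cons_succ`). -/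
theorem linEv {R : Type u} [CommRing R] {B : Type w} [CommRing B] [Algebra R B] {n : ℕ}
    (f : MvPolynomial (Fin (n + 1) × Fin (n + 1)) R)
    (hf : ∀ μ, coeff μ f ≠ 0 → ∑ j, μ (0, j) = 1) (ξ : B) (z : Fin (n + 1) → B)
    (Y : Fin n → Fin (n + 1) → B) :
    aeval (asg (fun j => ξ * z j) Y) f = ξ * aeval (asg z Y) f := by
  have h : ∀ w : Fin (n + 1) → B, aeval (asg w Y) f = ∑ μ ∈ f.support,
      algebraMap R B (coeff μ f) * ((∏ j, w j ^ μ (0, j)) *
        ∏ i : Fin n, ∏ j, Y i j ^ μ (i.succ, j)) := by
    intro w
    rw [aeval_def, eval₂_eq']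
    refine Finset.sum_congr rfl fun μ _ => ?_
    rw [Fintype.prod_prod_type, Fin.prod_univ_succ]
    simp only [asg, Fin.cons_zero, Fin.cons_succ]
  rw [h, h, Finset.mul_sum]
  refine Finset.sum_congr rfl fun μ hμ => ?_
  have h1 : ∏ j, (ξ * z j) ^ μ (0, j) = ξ * ∏ j, z j ^ μ (0, j) := by
    simp only [mul_pow]
    rw [Finset.prod_mul_distrib, Finset.prod_pow_eq_pow_sum, hf μ (mem_support_iff.1 hμ), pow_one]
  rw [h1]
  ring

end Pool.Agent.TSD
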