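import Pool.Agent.TSD.Defs

set_option autoImplicit false

namespace Pool.Agent.TSD

open MvPolynomial Finset

universe u v w

private theorem GgL_upd {S : Type u} [CommRing S] {ι : Type v} [DecidableEq ι] (p : ι → Prop)
    [DecidablePred p] (a0 : ι) (ha0 : p a0) (Z : Matrix ι ι S) (w z : ι → S)
    (hz : ∀ i, ¬ p i → z i = 0) :
    (aux p a0 Z w).updateCol a0 z = aux p a0 Z z := by
  ext i m
  by_cases hm : m = a0
  · subst hm
    rw [Matrix.updateCol_self]
    unfold aux
    by_cases hi : p i
    · simp [hi]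
    · have : i ≠ m := fun h => hi (h ▸ ha0)
      simp [hi, this, hz i hi]
  · rw [Matrix.updateCol_ne hm]
    simp only [aux, if_neg hm]

private theorem GgL_tr {S : Type u} [CommRing S] {ι : Type v} [DecidableEq ι] (p : ι → Prop)
    [DecidablePred p] (a0 : ι) (Z : Matrix ι ι S) (z : ι → S) :
    aux p a0 Z z = aux p a0 Z (fun i => if p i then z i else 0) := by
  ext i m
  unfold aux
  by_cases hi : p i <;> simp [hi]

/-- **GgL1** (the determinant of `aux` is linear in the column).

PROOF. Write `A z = aux p a0 Z z`.  For `z' i = if p i then z i else 0` we have `A z = A z'` and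
`A z' = (A 0).updateCol a0 z'` (for `¬ p i` the entry of the column `a0` is `[i = a0] = 0`, as `p a0`).
`z' = ∑ a, z' a • Pi.single a 1`.  `Matrix.det_updateCol_sum`-like: `Matrix.cramer` is linear:
`((A 0).updateCol a0 z').det = Matrix.cramer (A 0) z' a0`, so `= ∑ a, z' a * cramer (A 0) (Pi.single a 1) a0`
and for `p a` again `cramer (A 0) (Pi.single a 1) a0 = (A (Pi.single a 1)).det` (for `p a` the vector
`Pi.single a 1` vanishes outside of `p`). -/
theorem det_aux {S : Type u} [CommRing S] {ι : Type v} [DecidableEq ι] [Fintype ι] (p : ι → Prop)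
    [DecidablePred p] (a0 : ι) (ha0 : p a0) (Z : Matrix ι ι S) (z : ι → S) :
    (aux p a0 Z z).det = ∑ a, if p a then z a * gg p a0 Z a else 0 := by
  rw [GgL_tr p a0 Z z, ← GgL_upd p a0 ha0 Z 0 _ (fun i hi => if_neg hi), ← Matrix.cramer_apply,
    LinearMap.pi_apply_eq_sum_univ (Matrix.cramer (aux p a0 Z 0)), Finset.sum_apply]
  refine Finset.sum_congr rfl fun a _ => ?_
  rw [Pi.smul_apply, smul_eq_mul]
  by_cases ha : p a
  · rw [if_pos ha, if_pos ha]
    congr 1
    rw [Matrix.cramer_apply, gg]
    have he : (fun j => if a = j then (1 : S) else 0) = Pi.single a 1 := by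
      ext j
      by_cases h : a = j
      · subst h; simp
      · have h' : j ≠ a := fun e => h e.symm
        simp [h, h']
    rw [he, GgL_upd p a0 ha0 Z 0 _ (fun i hi => ?_)]
    have : i ≠ a := fun h => hi (h ▸ ha)
    simp [this]
  · rw [if_neg ha, if_neg ha, zero_mul]

/-- **GgL2** (the minors are relations of the rows).

PROOF. GgL1 with `z i = Z i b`: the matrix `aux p a0 Z z` has equal columns `a0` and `b` (rows `p i`: `Z i b`
in both; rows `¬ p i`: `0` in both), `Matrix.det_zero_of_column_eq`. -/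
theorem gg_rel {S : Type u} [CommRing S] {ι : Type v} [DecidableEq ι] [Fintype ι] (p : ι → Prop)
    [DecidablePred p] (a0 : ι) (ha0 : p a0) (Z : Matrix ι ι S) (b : ι) (hb : p b) (hba : b ≠ a0) :
    (∑ a, if p a then Z a b * gg p a0 Z a else 0) = 0 := by
  have h := det_aux p a0 ha0 Z (fun i => Z i b)
  rw [← h]
  refine Matrix.det_zero_of_column_eq hba fun i => ?_
  unfold aux
  by_cases hi : p i
  · simp [hi, hba, hb]
  · have h1 : i ≠ b := fun h => hi (h ▸ hb)
    have h2 : i ≠ a0 := fun h => hi (h ▸ ha0)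
    simp [hi, h1, h2]

/-- **GgL3** (base change).

PROOF. `RingHom.map_det` and `φ.mapMatrix (aux p a0 Z (Pi.single a 1)) = aux p a0 (Z.map φ) (Pi.single a 1)`
entry by entry (`apply_ite`, `Pi.single_apply`). -/
theorem gg_map {S S' : Type u} [CommRing S] [CommRing S'] (φ : S →+* S') {ι : Type v}
    [DecidableEq ι] [Fintype ι] (p : ι → Prop) [DecidablePred p] (a0 : ι) (Z : Matrix ι ι S)
    (a : ι) : φ (gg p a0 Z a) = gg p a0 (Z.map φ) a := by
  unfold gg
  rw [RingHom.map_det]
  congr 1
  ext i m
  rw [RingHom.mapMatrix_apply, Matrix.map_apply]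
  unfold aux
  by_cases hi : p i
  · by_cases hm : m = a0
    · by_cases hia : i = a
      · subst hia
        simp [hi, hm]
      · simp [hi, hm, hia]
    · by_cases hpm : p m
      · simp [hi, hm, hpm]
      · simp [hi, hm, hpm]
  · by_cases him : i = m
    · subst him
      simp [hi]
    · simp [hi, him]

/-- **GgL4** (the cofactors of the column `a0` of `aux`).

PROOF. `Matrix.cramer_eq_adjugate_mulVec`, `Matrix.cramer_apply`: `A.adjugate a0 a =
(A.updateCol a0 (Pi.single a 1)).det` for `A = aux p a0 Z z`, and for `p a` the updated matrix is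
`aux p a0 Z (Pi.single a 1)` (in the rows `¬ p i` the entry of the column `a0` is `0` in both, as
`i ≠ a0` and `i ≠ a`). -/
theorem adj_aux {S : Type u} [CommRing S] {ι : Type v} [DecidableEq ι] [Fintype ι] (p : ι → Prop)
    [DecidablePred p] (a0 : ι) (ha0 : p a0) (Z : Matrix ι ι S) (z : ι → S) (a : ι) (ha : p a) :
    (aux p a0 Z z).adjugate a0 a = gg p a0 Z a := by
  have h1 := congrFun (Matrix.cramer_eq_adjugate_mulVec (aux p a0 Z z) (Pi.single a 1)) a0
  rw [Matrix.mulVec_single_one, Matrix.col_apply] at h1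
  rw [← h1, Matrix.cramer_apply, gg, GgL_upd p a0 ha0 Z z _ (fun i hi => ?_)]
  have : i ≠ a := fun h => hi (h ▸ ha)
  simp [this]

end Pool.Agent.TSD
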