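import Pool.Agent.TSD.Defs

set_option autoImplicit false

namespace Pool.Agent.TSD

open MvPolynomial Finset

universe u v w

/-- **GnA1**.  PROOF. For `S = univ` both types of the sum are empty (`#univ = n`), there is one equivalence
(`Equiv.equivOfIsEmpty`, the type of equivalences is `Unique`) and the product is empty. -/
theorem pth_univ {R : Type u} [CommRing R] {n : ℕ} : pth R (univ : Finset (Fin n)) = 1 := by
  have h1 : IsEmpty {i : Fin n // #(univ : Finset (Fin n)) ≤ i.val} :=
    ⟨fun i => by
      have h := i.2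
      have h' : #(univ : Finset (Fin n)) = n := by simp
      have h'' := i.1.2
      omega⟩
  have h2 : IsEmpty {j : Fin n // j ∉ (univ : Finset (Fin n))} := ⟨fun j => j.2 (mem_univ _)⟩
  rw [pth, Finset.sum_eq_single_of_mem (Equiv.equivOfIsEmpty _ _) (mem_univ _)]
  · exact Fintype.prod_empty _
  · intro b _ hb
    exact absurd (Equiv.ext fun i => isEmptyElim i) hb

/-- **GnA2**.  PROOF. For `S = ∅` both types are all of `Fin n` (`Equiv.subtypeUnivEquiv`): reindex the sum over the
equivalences by `Equiv.equivCongr` and the product; compare with `Matrix.permanent`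
(`Matrix.permanent_transpose` to get `∏ i, X (i, σ i)`). -/
theorem pth_empty {R : Type u} [CommRing R] {n : ℕ} :
    pth R (∅ : Finset (Fin n)) = perP R n := by
  have hp : perP R n = ∑ σ : Equiv.Perm (Fin n), ∏ i, (X (i, σ i) : MvPolynomial _ R) := by
    rw [perP, ← Matrix.permanent_transpose]
    simp [Matrix.permanent]
  rw [hp, pth]
  let e1 : {i : Fin n // #(∅ : Finset (Fin n)) ≤ i.val} ≃ Fin n :=
    Equiv.subtypeUnivEquiv fun i => by simp
  let e2 : {j : Fin n // j ∉ (∅ : Finset (Fin n))} ≃ Fin n :=
    Equiv.subtypeUnivEquiv fun j => by simp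
  refine Fintype.sum_equiv (Equiv.equivCongr e1 e2) _ _ fun f => ?_
  refine Fintype.prod_equiv e1 _ _ fun i => ?_
  have h : (Equiv.equivCongr e1 e2 f) (e1 i) = (f i).1 := by
    show e2 (f (e1.symm (e1 i))) = _
    rw [Equiv.symm_apply_apply]
    rfl
  rw [h]
  rfl

/-- **GnA3** (first step).

PROOF. Put `i0 = ⟨#S, hS⟩`.  An equivalence `f` from `{i | #S ≤ i}` to `{j | j ∉ S}` is the same as the value
`j = f i0 ∉ S` and an equivalence `g` from `{i | #S + 1 ≤ i}` to `{j' | j' ∉ insert j S}`
(`#(insert j S) = #S + 1`, `Finset.card_insert_of_notMem`).  Reindex with `Finset.sum_sigma'` and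
`Finset.sum_bij'` (or `Fintype.sum_equiv`; `Equiv` construction by `fun i => if i = i0 then j else g i`); the product
over `{i | #S ≤ i}` is the factor of `i0` times the product over the others.
Alternative: a sum over all `f : Fin n → Fin n` which are injective on `{i | #S ≤ i}`, map it into `Sᶜ`, and are the
identity elsewhere. -/
theorem pth_rec {R : Type u} [CommRing R] {n : ℕ} (S : Finset (Fin n)) (hS : #S < n) :
    pth R S = ∑ j ∈ univ \ S, X (⟨#S, hS⟩, j) * pth R (insert j S) := by
  have hcard : ∀ j ∉ S, #(insert j S) = #S + 1 := fun j hj => Finset.card_insert_of_notMem hj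
  -- the indices: the first one and the others
  let e : {i : Fin n // #S ≤ i.val} ≃ Option {i : Fin n // #S + 1 ≤ i.val} :=
    { toFun := fun i => if h : i.1.val = #S then none else some ⟨i.1, by have := i.2; omega⟩
      invFun := fun o => o.elim ⟨⟨#S, hS⟩, le_rfl⟩ fun i => ⟨i.1, by have := i.2; omega⟩
      left_inv := by
        intro i
        by_cases h : i.1.val = #S
        · simp only [h, dite_true, Option.elim]
          exact Subtype.ext (Fin.ext h.symm)
        · simp only [h, dite_false, Option.elim]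
      right_inv := by
        intro o
        cases o with
        | none => simp
        | some i =>
          have h : i.1.val ≠ #S := by have := i.2; omega
          simp [h] }
  rw [pth]
  have h1 : ∑ f : {i : Fin n // #S ≤ i.val} ≃ {j : Fin n // j ∉ S},
      ∏ i, (X (i.1, (f i).1) : MvPolynomial (Fin n × Fin n) R) =
      ∑ f : Option {i : Fin n // #S + 1 ≤ i.val} ≃ {j : Fin n // j ∉ S},
        X (⟨#S, hS⟩, (f none).1) * ∏ i : {i : Fin n // #S + 1 ≤ i.val}, X (i.1, (f (some i)).1) := by
    refine Fintype.sum_equiv (Equiv.equivCongr e (Equiv.refl _)) _ _ fun f => ?_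
    have h2 : ∏ i : Option {i : Fin n // #S + 1 ≤ i.val},
        (X ((e.symm i).1, ((Equiv.equivCongr e (Equiv.refl _) f) i).1) :
          MvPolynomial (Fin n × Fin n) R) =
        ∏ i, X (i.1, (f i).1) := by
      refine (Fintype.prod_equiv e _ _ fun i => ?_).symm
      simp
    rw [← h2, Fintype.prod_option]
    rfl
  rw [h1]
  have h3 : ∑ f : Option {i : Fin n // #S + 1 ≤ i.val} ≃ {j : Fin n // j ∉ S},
        ((X (⟨#S, hS⟩, (f none).1) : MvPolynomial (Fin n × Fin n) R) *
          ∏ i : {i : Fin n // #S + 1 ≤ i.val}, X (i.1, (f (some i)).1)) =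
      ∑ x : {j : Fin n // j ∉ S},
        ∑ f : {f : Option {i : Fin n // #S + 1 ≤ i.val} ≃ {j : Fin n // j ∉ S} // f none = x},
        ((X (⟨#S, hS⟩, (f.1 none).1) : MvPolynomial (Fin n × Fin n) R) *
          ∏ i : {i : Fin n // #S + 1 ≤ i.val}, X (i.1, (f.1 (some i)).1)) := by
    rw [← Fintype.sum_sigma']
    refine Fintype.sum_equiv (Equiv.sigmaFiberEquiv
      (fun f : Option {i : Fin n // #S + 1 ≤ i.val} ≃ {j : Fin n // j ∉ S} => f none)).symm
      _ _ fun f => rfl
  rw [h3, Finset.sum_subtype (p := fun j => j ∉ S) (univ \ S) (fun j => by simp)]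
  refine Finset.sum_congr rfl fun x _ => ?_
  have hx := hcard x.1 x.2
  -- the two equivalences
  let a : {i : Fin n // #S + 1 ≤ i.val} ≃ {i : Fin n // #(insert x.1 S) ≤ i.val} :=
    Equiv.subtypeEquivRight fun i => by rw [hx]
  let b : {y : {j : Fin n // j ∉ S} // y ≠ x} ≃ {j : Fin n // j ∉ insert x.1 S} :=
    { toFun := fun y => ⟨y.1.1, by
        rw [Finset.mem_insert, not_or]
        exact ⟨fun h => y.2 (Subtype.ext h), y.1.2⟩⟩
      invFun := fun j => ⟨⟨j.1, fun h => j.2 (Finset.mem_insert_of_mem h)⟩, fun h => j.2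
        (Finset.mem_insert.2 (Or.inl (congrArg Subtype.val h)))⟩
      left_inv := fun y => rfl
      right_inv := fun j => rfl }
  rw [pth, Finset.mul_sum]
  refine Fintype.sum_equiv ((Equiv.optionSubtype x).trans (Equiv.equivCongr a b)) _ _ fun f => ?_
  rw [f.2]
  congr 1
  refine Fintype.prod_equiv a _ _ fun i => ?_
  have h5 : ((((Equiv.optionSubtype x).trans (Equiv.equivCongr a b)) f) (a i)).1 =
      (f.1 (some i)).1 := by
    simp [Equiv.equivCongr, b]
  rw [h5]
  rfl

end Pool.Agent.TSD
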