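import Pool.Agent.TSD.GnA

set_option autoImplicit false

namespace Pool.Agent.TSD

open MvPolynomial Finset

universe u v w

/-- The vector of the sums over the paths. -/
private noncomputable def GnB_v (R : Type u) [CommRing R] {n : ℕ} (S : Psub n) :
    MvPolynomial (Fin n × Fin n) R := if S.1 = ∅ then 1 else pth R S.1

private theorem GnB_col {R : Type u} [CommRing R] {n : ℕ} (hn : 1 ≤ n) (S : Finset (Fin n))
    (j : Fin n) :
    ∑ T : Psub n, (if T.1 = insert j S ∨ (insert j S = univ ∧ T.1 = ∅) then
      GnB_v R T else 0) = pth R (insert j S) := by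
  have hne : (∅ : Finset (Fin n)) ≠ univ := by
    intro h
    have : (⟨0, hn⟩ : Fin n) ∈ (∅ : Finset (Fin n)) := h ▸ mem_univ _
    simp at this
  have hins : insert j S ≠ ∅ := Finset.insert_ne_empty j S
  by_cases h : insert j S = univ
  · rw [Finset.sum_eq_single_of_mem (⟨∅, hne⟩ : Psub n) (mem_univ _)]
    · simp [h, GnB_v, pth_univ]
    · intro T _ hT
      rw [if_neg]
      rintro (h1 | h1)
      · exact T.2 (h1.trans h)
      · exact hT (Subtype.ext h1.2)
  · rw [Finset.sum_eq_single_of_mem (⟨insert j S, h⟩ : Psub n) (mem_univ _)]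
    · simp [GnB_v, hins]
    · intro T _ hT
      rw [if_neg]
      rintro (h1 | h1)
      · exact hT (Subtype.ext h1)
      · exact h h1.1

private theorem GnB_mulVec {R : Type u} [CommRing R] {n : ℕ} (hn : 1 ≤ n) (S : Psub n) :
    ((grM R n).mulVec (GnB_v R)) S = if S.1 = ∅ then perP R n else 0 := by
  have hcard : #S.1 < n := by
    have h1 : #S.1 ≤ n := by simpa using Finset.card_le_univ S.1
    refine lt_of_le_of_ne h1 fun h2 => S.2 ?_
    exact (Finset.card_eq_iff_eq_univ _).1 (by simpa using h2)
  have h1 : ∀ T : Psub n, grM R n S T * GnB_v R T =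
      (if S = T then (if S.1 ≠ ∅ then -GnB_v R T else 0) else 0) +
      ∑ j : Fin n, (if j ∉ S.1 then X (⟨#S.1, hcard⟩, j) *
        (if T.1 = insert j S.1 ∨ (insert j S.1 = univ ∧ T.1 = ∅) then GnB_v R T else 0)
        else 0) := by
    intro T
    unfold grM
    rw [add_mul]
    congr 1
    · by_cases h2 : S = T
      · subst h2
        by_cases h3 : S.1 = ∅
        · simp [h3]
        · simp [h3]
      · simp [h2]
    · rw [Finset.sum_comm, Finset.sum_mul]
      refine Finset.sum_congr rfl fun j _ => ?_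
      rw [Finset.sum_eq_single_of_mem (⟨#S.1, hcard⟩ : Fin n) (mem_univ _)]
      · by_cases h2 : j ∉ S.1
        · by_cases h3 : T.1 = insert j S.1 ∨ (insert j S.1 = univ ∧ T.1 = ∅)
          · rw [if_pos ⟨rfl, h2, h3⟩, if_pos h2, if_pos h3]
          · rw [if_neg (fun h => h3 h.2.2), if_pos h2, if_neg h3]
            ring
        · rw [if_neg (fun h => h2 h.2.1), if_neg h2]
          ring
      · intro i _ hi
        rw [if_neg]
        rintro ⟨h2, -⟩
        exact hi (Fin.ext h2)
  have h2 : ((grM R n).mulVec (GnB_v R)) S = ∑ T, grM R n S T * GnB_v R T := rfl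
  rw [h2, Finset.sum_congr rfl fun T _ => h1 T, Finset.sum_add_distrib, Finset.sum_ite_eq,
    if_pos (mem_univ _), Finset.sum_comm]
  have h3 : ∑ j : Fin n, ∑ T : Psub n, (if j ∉ S.1 then
      (X (⟨#S.1, hcard⟩, j) : MvPolynomial (Fin n × Fin n) R) *
        (if T.1 = insert j S.1 ∨ (insert j S.1 = univ ∧ T.1 = ∅) then GnB_v R T else 0)
        else 0) = pth R S.1 := by
    rw [pth_rec S.1 hcard]
    have h4 : univ \ S.1 = univ.filter fun j => j ∉ S.1 := by
      ext j
      simp
    rw [h4, Finset.sum_filter]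
    refine Finset.sum_congr rfl fun j _ => ?_
    by_cases h5 : j ∉ S.1
    · simp only [if_pos h5]
      rw [← Finset.mul_sum, GnB_col hn]
    · simp only [if_neg h5]
      exact Finset.sum_const_zero
  rw [h3]
  by_cases h4 : S.1 = ∅
  · simp only [h4, ne_eq, not_true_eq_false, if_false, if_true, zero_add]
    exact pth_empty
  · simp [h4, GnB_v]

private theorem GnB_tri {R : Type u} [CommRing R] {n : ℕ} (hn : 1 ≤ n) (e : Psub n)
    (he : e.1 = ∅) :
    ((grM R n).updateCol e (Pi.single e 1)).det = 1 := by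
  set A := (grM R n).updateCol e (Pi.single e 1) with hA
  -- a nonzero entry
  have hent : ∀ S T : Psub n, A S T ≠ 0 → S = T ∨ #S.1 < #T.1 := by
    intro S T h
    by_cases hT : T = e
    · subst hT
      left
      by_contra hS
      exact h (by rw [hA, Matrix.updateCol_self, Pi.single_eq_of_ne hS])
    · rw [hA, Matrix.updateCol_ne hT] at h
      by_cases hS : S = T
      · exact Or.inl hS
      · right
        unfold grM at h
        rw [if_neg (fun h' => hS h'.1), zero_add] at h
        obtain ⟨i, -, hi⟩ := Finset.exists_ne_zero_of_sum_ne_zero h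
        obtain ⟨j, -, hj⟩ := Finset.exists_ne_zero_of_sum_ne_zero hi
        have hc : i.val = #S.1 ∧ j ∉ S.1 ∧ (T.1 = insert j S.1 ∨
            (insert j S.1 = univ ∧ T.1 = ∅)) := by
          by_contra h'
          exact hj (if_neg h')
        rcases hc.2.2 with h1 | h1
        · rw [h1, Finset.card_insert_of_notMem hc.2.1]
          exact Nat.lt_succ_self _
        · exact absurd (Subtype.ext (h1.2.trans he.symm)) hT
  have hdiag : ∀ S : Psub n, A S S = if S = e then 1 else -1 := by
    intro S
    by_cases hS : S = e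
    · subst hS
      rw [hA, Matrix.updateCol_self, Pi.single_eq_same, if_pos rfl]
    · rw [hA, Matrix.updateCol_ne hS, if_neg hS]
      unfold grM
      have h1 : S.1 ≠ ∅ := fun h => hS (Subtype.ext (h.trans he.symm))
      rw [if_pos ⟨rfl, h1⟩]
      have h2 : ∑ i : Fin n, ∑ j : Fin n, (if i.val = #S.1 ∧ j ∉ S.1 ∧
          (S.1 = insert j S.1 ∨ (insert j S.1 = univ ∧ S.1 = ∅)) then
          (X (i, j) : MvPolynomial (Fin n × Fin n) R) else 0) = 0 := by
        refine Finset.sum_eq_zero fun i _ => Finset.sum_eq_zero fun j _ => if_neg ?_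
        rintro ⟨-, h3, h4 | h4⟩
        · exact h3 (h4 ▸ Finset.mem_insert_self j S.1)
        · exact h1 h4.2
      rw [h2, add_zero]
  rw [Matrix.det_apply, Finset.sum_eq_single_of_mem (1 : Equiv.Perm (Psub n)) (mem_univ _)]
  · simp only [Equiv.Perm.sign_one, one_smul, Equiv.Perm.one_apply]
    rw [Finset.prod_congr rfl fun S _ => hdiag S, Finset.prod_ite, Finset.prod_const_one,
      one_mul, Finset.prod_const]
    have hc : #(univ.filter fun S : Psub n => ¬ S = e) = 2 ^ n - 2 := by
      rw [Finset.filter_not, Finset.card_sdiff_of_subset (Finset.filter_subset _ _),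
        Finset.filter_eq' univ e, if_pos (mem_univ _), Finset.card_singleton, Finset.card_univ,
        Fintype.card_subtype_compl]
      simp
      omega
    rw [hc]
    refine Even.neg_one_pow ?_
    obtain ⟨m, rfl⟩ : ∃ m, n = m + 1 := ⟨n - 1, by omega⟩
    refine ⟨2 ^ m - 1, ?_⟩
    rw [pow_succ]
    omega
  · intro σ _ hσ
    have hz : ∏ S, A (σ S) S = 0 := by
      by_contra hne
      have h1 : ∀ S, A (σ S) S ≠ 0 := fun S h => hne (Finset.prod_eq_zero (mem_univ S) h)
      have h2 : ∀ S : Psub n, #(σ S).1 ≤ #S.1 := fun S => by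
        rcases hent _ _ (h1 S) with h | h
        · rw [h]
        · exact h.le
      have h3 : ∑ S : Psub n, #(σ S).1 = ∑ S : Psub n, #S.1 :=
        Equiv.sum_comp σ fun S : Psub n => #S.1
      have h4 := (Finset.sum_eq_sum_iff_of_le fun S _ => h2 S).1 h3
      refine hσ (Equiv.ext fun S => ?_)
      rcases hent _ _ (h1 S) with h | h
      · exact h
      · exact absurd (h4 S (mem_univ S)) (ne_of_lt h)
    rw [hz, smul_zero]

/-- **GnB** (Grenet).

PROOF. Let `e : Psub n` be the empty set (`∅ ≠ univ` as `1 ≤ n`), `v S = if S = ∅ then 1 else pth R S`.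
(1) `(grM R n) *ᵥ v = Pi.single e (perP R n)`: row `S` (`#S < n`), `i0 = ⟨#S, _⟩`: only `i = i0` contributes to the
double sum; summing over the columns `T`, each `j ∉ S` contributes `X (i0, j) * v (insert j S)` if
`insert j S ≠ univ` (then `T = insert j S`, `v T = pth R T`) and `X (i0, j) * v ∅ = X (i0, j) * 1 =
X (i0, j) * pth R univ` if `insert j S = univ`.  So the sum is `pth R S` by `pth_rec`.  The diagonal entry contributes
`- pth R S` if `S ≠ ∅` and nothing if `S = ∅`; `pth R ∅ = perP R n`.
(2) `((grM R n).updateCol e ((grM R n) *ᵥ v)).det = v e * (grM R n).det = (grM R n).det` (`Matrix.cramer_apply`,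
`Matrix.cramer_eq_adjugate_mulVec`, `Matrix.adjugate_mulVec...`: `adjugate *ᵥ (M *ᵥ v) = det • v`).
(3) `((grM R n).updateCol e (Pi.single e (perP R n))).det = perP R n * ((grM R n).updateCol e (Pi.single e 1)).det`,
and the last matrix is triangular for the number of elements: the entry `(S, T)` is nonzero only if `S = T` or
(`T ≠ ∅` and `T = insert j S`, `j ∉ S`, so `#S < #T`), with diagonal entries `-1` for `S ≠ ∅` and `1` for `∅`
(`Matrix.det_of_upperTriangular` with a linear order, or `Matrix.BlockTriangular` for `b S = #S`: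
`Matrix.BlockTriangular.det`; or a direct argument: the only permutation contributing is `1`).  So its determinant is
`(-1) ^ (card (Psub n) - 1) = (-1) ^ (2 ^ n - 2) = 1` (`card (Psub n) = 2 ^ n - 1`, `2 ^ n - 2` is even). -/
theorem gnB {R : Type u} [CommRing R] {n : ℕ} (hn : 1 ≤ n) : (grM R n).det = perP R n := by
  have hne : (∅ : Finset (Fin n)) ≠ univ := by
    intro h
    have : (⟨0, hn⟩ : Fin n) ∈ (∅ : Finset (Fin n)) := h ▸ mem_univ _
    simp at this
  let e : Psub n := ⟨∅, hne⟩
  have h1 : (grM R n).mulVec (GnB_v R) = Pi.single e (perP R n) := by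
    funext S
    rw [GnB_mulVec hn S]
    by_cases hS : S = e
    · subst hS
      rw [Pi.single_eq_same, if_pos rfl]
    · rw [Pi.single_eq_of_ne hS, if_neg (fun h => hS (Subtype.ext h))]
  have h2 : ((grM R n).updateCol e ((grM R n).mulVec (GnB_v R))).det = (grM R n).det := by
    rw [← Matrix.cramer_apply, Matrix.cramer_eq_adjugate_mulVec, Matrix.mulVec_mulVec,
      Matrix.adjugate_mul, Matrix.smul_mulVec, Matrix.one_mulVec, Pi.smul_apply]
    simp [GnB_v, e]
  have h3 : (Pi.single e (perP R n) : Psub n → MvPolynomial (Fin n × Fin n) R) =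
      perP R n • Pi.single e 1 := by
    rw [← Pi.single_smul, smul_eq_mul, mul_one]
  rw [← h2, h1, h3, Matrix.det_updateCol_smul, GnB_tri hn e rfl, mul_one]

end Pool.Agent.TSD
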