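import Pool.Agent.TSD.Defs

set_option autoImplicit false

namespace Pool.Agent.TSD

open MvPolynomial Finset

universe u v w

private def GnC_om {L : Type u} [Field L] {n : ℕ} (s t : Fin n → L) (S : Finset (Fin n)) : L :=
  (∏ i : Fin n, if i.val < #S then s i else 1) * ∏ j ∈ S, t j

private theorem GnC_om_ne {L : Type u} [Field L] {n : ℕ} (s t : Fin n → L) (hs : ∀ i, s i ≠ 0)
    (ht : ∀ j, t j ≠ 0) (S : Finset (Fin n)) : GnC_om s t S ≠ 0 := by
  unfold GnC_om
  refine mul_ne_zero ?_ ?_
  · refine Finset.prod_ne_zero_iff.2 fun i _ => ?_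
    split_ifs
    · exact hs i
    · exact one_ne_zero
  · exact Finset.prod_ne_zero_iff.2 fun j _ => ht j

private theorem GnC_om_insert {L : Type u} [Field L] {n : ℕ} (s t : Fin n → L)
    (S : Finset (Fin n)) (i j : Fin n) (hi : i.val = #S) (hj : j ∉ S) :
    GnC_om s t (insert j S) = s i * t j * GnC_om s t S := by
  unfold GnC_om
  rw [card_insert_of_notMem hj, prod_insert hj]
  have h1 : (∏ i' : Fin n, if i'.val < #S + 1 then s i' else 1) =
      s i * ∏ i' : Fin n, if i'.val < #S then s i' else 1 := by
    have h2 : ∀ i' : Fin n, (if i'.val < #S + 1 then s i' else 1) =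
        (if i' = i then s i' else 1) * if i'.val < #S then s i' else 1 := by
      intro i'
      by_cases h : i' = i
      · subst h
        rw [if_pos (by omega), if_pos rfl, if_neg (by omega), mul_one]
      · have hv : i'.val ≠ #S := fun hc => h (Fin.ext (by omega))
        rw [if_neg h, one_mul]
        by_cases h3 : i'.val < #S
        · rw [if_pos h3, if_pos (by omega)]
        · rw [if_neg h3, if_neg (by omega)]
    simp only [h2]
    rw [prod_mul_distrib, prod_ite_eq' univ i s, if_pos (mem_univ i)]
  rw [h1]
  ring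

/-- **GnC1** (torus symmetry of Grenet's matrix).

PROOF. `ω S = (∏ i : Fin n, if i.val < #S then s i else 1) * ∏ j ∈ S, t j`, nonzero;
`ω (insert j S) = s i * t j * ω S` for `j ∉ S`, `i.val = #S`.  `P = Matrix.diagonal (fun S => (ω S)⁻¹)`,
`Q = Matrix.diagonal (fun S => if S = ∅ then (ω univ)⁻¹ else (ω S)⁻¹)`.  Entry `(S, T)` of the claim:
`rescale (grM S T) * C (Q T) = C (P S) * grM S T` (`Matrix.mul_diagonal`, `Matrix.diagonal_mul`, `Matrix.map` of a
diagonal matrix).  `rescale` fixes the constant `-1` (where `S = T ≠ ∅`, `Q S = P S`) and multiplies `X (i, j)` by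
`s i * t j`, and `s i * t j * Q T = P S` for `i.val = #S`, `j ∉ S` and `T = insert j S` (`T ≠ ∅`) or
(`insert j S = univ` and `T = ∅`).  Determinants of `P`, `Q`: products of nonzero elements. -/
theorem gnC {L : Type u} [Field L] {n : ℕ} (s t : Fin n → L) (hs : ∀ i, s i ≠ 0)
    (ht : ∀ j, t j ≠ 0) :
    ∃ P Q : Matrix (Psub n) (Psub n) L, IsUnit P.det ∧ IsUnit Q.det ∧
      (grM L n).map (rescale id s t) * Q.map C = P.map C * grM L n := by
  set p : Psub n → L := fun S => (GnC_om s t S.1)⁻¹ with hp
  set q : Psub n → L := fun S => if S.1 = ∅ then (GnC_om s t univ)⁻¹ else (GnC_om s t S.1)⁻¹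
    with hq
  have hp0 : ∀ S, p S ≠ 0 := fun S => inv_ne_zero (GnC_om_ne s t hs ht _)
  have hq0 : ∀ S, q S ≠ 0 := by
    intro S
    simp only [hq]
    split_ifs
    · exact inv_ne_zero (GnC_om_ne s t hs ht _)
    · exact inv_ne_zero (GnC_om_ne s t hs ht _)
  refine ⟨Matrix.diagonal p, Matrix.diagonal q, ?_, ?_, ?_⟩
  · rw [Matrix.det_diagonal]
    exact IsUnit.mk0 _ (Finset.prod_ne_zero_iff.2 fun S _ => hp0 S)
  · rw [Matrix.det_diagonal]
    exact IsUnit.mk0 _ (Finset.prod_ne_zero_iff.2 fun S _ => hq0 S)
  · have hP : (Matrix.diagonal p).map (C : L → MvPolynomial (Fin n × Fin n) L) =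
        Matrix.diagonal fun S => C (p S) := Matrix.diagonal_map (map_zero C)
    have hQ : (Matrix.diagonal q).map (C : L → MvPolynomial (Fin n × Fin n) L) =
        Matrix.diagonal fun S => C (q S) := Matrix.diagonal_map (map_zero C)
    change (grM L n).map (rescale id s t) *
      (Matrix.diagonal q).map (C : L → MvPolynomial (Fin n × Fin n) L) =
      (Matrix.diagonal p).map (C : L → MvPolynomial (Fin n × Fin n) L) * grM L n
    rw [hP, hQ]
    ext1 S T
    rw [Matrix.mul_diagonal, Matrix.diagonal_mul, Matrix.map_apply]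
    unfold grM
    rw [map_add, map_sum, add_mul, mul_add, Finset.sum_mul, Finset.mul_sum]
    congr 1
    · by_cases h : S = T ∧ S.1 ≠ ∅
      · rw [if_pos h, map_neg, map_one]
        obtain ⟨h1, h2⟩ := h
        subst h1
        have h3 : q S = p S := by
          simp only [hq, hp]
          rw [if_neg h2]
        rw [h3]
        ring
      · rw [if_neg h, map_zero]
        ring
    · refine Finset.sum_congr rfl fun i _ => ?_
      rw [map_sum, Finset.sum_mul, Finset.mul_sum]
      refine Finset.sum_congr rfl fun j _ => ?_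
      by_cases h : i.val = #S.1 ∧ j ∉ S.1 ∧
        (T.1 = insert j S.1 ∨ (insert j S.1 = univ ∧ T.1 = ∅))
      · rw [if_pos h]
        obtain ⟨h1, h2, h3⟩ := h
        have h4 : q T = (GnC_om s t (insert j S.1))⁻¹ := by
          simp only [hq]
          rcases h3 with h3 | ⟨h3, h3'⟩
          · rw [if_neg (by rw [h3]; exact insert_ne_empty _ _), h3]
          · rw [if_pos h3', h3]
        have h5 : s i * t j * q T = p S := by
          rw [h4, GnC_om_insert s t S.1 i j h1 h2]
          simp only [hp]
          have := GnC_om_ne s t hs ht S.1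
          have h6 := hs i
          have h7 := ht j
          field_simp
        have h8 : rescale id s t (X (i, j)) = C (s i * t j) * X (i, j) := by
          unfold rescale
          rw [aeval_X]
          rfl
        rw [h8, ← h5, C_mul (a := s i * t j) (a' := q T)]
        ring
      · rw [if_neg h, map_zero]
        ring

/-- **GnC2** (base change).  PROOF. Entry by entry, `map_add`, `map_sum`, `apply_ite`, `map_X`. -/
theorem gr_map {R R' : Type u} [CommRing R] [CommRing R'] (φ : R →+* R') (n : ℕ) :
    (grM R n).map (MvPolynomial.map φ) = grM R' n := by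
  ext1 S T
  rw [Matrix.map_apply]
  unfold grM
  rw [map_add, map_sum]
  congr 1
  · split_ifs
    · rw [map_neg, map_one]
    · rw [map_zero]
  · refine Finset.sum_congr rfl fun i _ => ?_
    rw [map_sum]
    refine Finset.sum_congr rfl fun j _ => ?_
    split_ifs
    · rw [map_X]
    · rw [map_zero]

/-- **GnC3** (degrees).  PROOF. `totalDegree_add`, `totalDegree_finset_sum`, `totalDegree_neg`, `totalDegree_X_le` or
`totalDegree_X` (if `R` is trivial everything is `0`). -/
theorem gr_deg {R : Type u} [CommRing R] {n : ℕ} (S T : Psub n) :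
    (grM R n S T).totalDegree ≤ 1 := by
  unfold grM
  refine (totalDegree_add _ _).trans (max_le ?_ ?_)
  · split_ifs
    · rw [totalDegree_neg, totalDegree_one]
      exact Nat.zero_le 1
    · rw [totalDegree_zero]
      exact Nat.zero_le 1
  · refine totalDegree_finsetSum_le fun i _ => totalDegree_finsetSum_le fun j _ => ?_
    split_ifs
    · rcases subsingleton_or_nontrivial R with hR | hR
      · rw [Subsingleton.elim (X (i, j) : MvPolynomial (Fin n × Fin n) R) 0, totalDegree_zero]
        exact Nat.zero_le 1
      · rw [totalDegree_X]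
    · rw [totalDegree_zero]
      exact Nat.zero_le 1

/-- **GnC4**.  PROOF. `Fintype.card_subtype_compl`/`Fintype.card_finset`: all `2 ^ n` subsets except one. -/
theorem card_psub (n : ℕ) : Fintype.card (Psub n) = 2 ^ n - 1 := by
  unfold Psub
  rw [Fintype.card_subtype]
  have h1 : (univ.filter fun S : Finset (Fin n) => S ≠ univ) = univ.erase univ := by
    ext S
    simp
  rw [h1, card_erase_of_mem (mem_univ _), card_univ, Fintype.card_finset, Fintype.card_fin]

end Pool.Agent.TSD
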