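import Pool.Agent.TSD.Defs

set_option autoImplicit false

namespace Pool.Agent.TSD

open MvPolynomial Finset

universe u v w

private theorem ind_split {L : Type u} [Field L] {x : L} (hx : x ≠ 0) (a : ℤ) :
    x ^ a * x ^ (Int.toNat (-a)) = x ^ (Int.toNat a) := by
  rw [← zpow_natCast x (Int.toNat (-a)), ← zpow_natCast x (Int.toNat a), ← zpow_add₀ hx]
  congr 1
  omega

/-- **Ind** (independent factors exist in some extension). -/
theorem ind (K : Type u) [Field K] (n c : ℕ) :
    ∃ (L : Type u) (_ : Field L) (_ : Algebra K L) (s : Fin n → L) (t : Fin c → L),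
      Indep s t := by
  classical
  let A := MvPolynomial (Fin n ⊕ Fin c) K
  let L := FractionRing A
  let x : Fin n ⊕ Fin c → L := fun i => algebraMap A L (X i)
  have hinj : Function.Injective (algebraMap A L) := IsFractionRing.injective A L
  have hx : ∀ i, x i ≠ 0 := by
    intro i h
    have : algebraMap A L (X i) = algebraMap A L 0 := by rw [map_zero]; exact h
    exact (MvPolynomial.X_ne_zero (R := K) i) (hinj this)
  refine ⟨L, inferInstance, inferInstance, fun i => x (Sum.inl i), fun j => x (Sum.inr j),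
    fun i => hx _, fun j => hx _, ?_⟩
  intro a b _ hrel
  -- combined exponents
  let e : Fin n ⊕ Fin c → ℤ := Sum.elim a b
  have h1 : ∏ i, x i ^ e i = 1 := by
    rw [Fintype.prod_sum_type]
    exact hrel
  have h2 : ∏ i, x i ^ (Int.toNat (e i)) = ∏ i, x i ^ (Int.toNat (-(e i))) := by
    calc ∏ i, x i ^ (Int.toNat (e i)) = ∏ i, (x i ^ e i * x i ^ (Int.toNat (-(e i)))) :=
          Finset.prod_congr rfl fun i _ => (ind_split (hx i) (e i)).symm
      _ = (∏ i, x i ^ e i) * ∏ i, x i ^ (Int.toNat (-(e i))) := Finset.prod_mul_distrib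
      _ = _ := by rw [h1, one_mul]
  have h3 : (∏ i, (X i : A) ^ (Int.toNat (e i))) = ∏ i, (X i : A) ^ (Int.toNat (-(e i))) := by
    apply hinj
    rw [map_prod, map_prod]
    simpa only [map_pow] using h2
  have h4 : ∀ f : Fin n ⊕ Fin c → ℕ, (∏ i, (X i : A) ^ f i) =
      monomial (∑ i, Finsupp.single i (f i)) (1 : K) := by
    intro f
    rw [monomial_sum_one]
    refine Finset.prod_congr rfl fun i _ => ?_
    rw [X_pow_eq_monomial]
  rw [h4, h4] at h3
  have h5 := MvPolynomial.monomial_left_injective (one_ne_zero (α := K)) h3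
  have h6 : ∀ i, Int.toNat (e i) = Int.toNat (-(e i)) := by
    intro i
    have := DFunLike.congr_fun h5 i
    rw [Finsupp.finset_sum_apply, Finsupp.finset_sum_apply] at this
    simpa [Finsupp.single_apply] using this
  have h7 : ∀ i, e i = 0 := by
    intro i
    have := h6 i
    omega
  exact ⟨funext fun i => h7 (Sum.inl i), funext fun j => h7 (Sum.inr j)⟩

end Pool.Agent.TSD
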