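import Pool.Agent.TSD.GnB
import Pool.Agent.TSD.GnC
import Pool.Agent.TSD.Ind

set_option autoImplicit false

namespace Pool.Agent.TSD

open MvPolynomial Finset

universe u v w

/-- The square case of the symmetry, for all factors different from zero. -/
theorem gnF (k : Type u) [Field k] {n : ℕ} (hn : 1 ≤ n) :
    ∃ M : Matrix (Fin (2 ^ n - 1)) (Fin (2 ^ n - 1)) (MvPolynomial (Fin n × Fin n) k),
      (∀ a b, (M a b).totalDegree ≤ 1) ∧ M.det = perP k n ∧
      RescaleSymmetric (id : Fin n → Fin n) M ∧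
      ∀ (L : Type u) [Field L] [Algebra k L] (s t : Fin n → L), (∀ i, s i ≠ 0) →
        (∀ j, t j ≠ 0) → ∃ P Q : Matrix (Fin (2 ^ n - 1)) (Fin (2 ^ n - 1)) L,
        IsUnit P.det ∧ IsUnit Q.det ∧
        (M.map (MvPolynomial.map (algebraMap k L))).map (rescale id s t) * Q.map C =
          P.map C * M.map (MvPolynomial.map (algebraMap k L)) := by
  have e : Fin (2 ^ n - 1) ≃ Psub n := (Fintype.equivFinOfCardEq (card_psub n)).symm
  have key : ∀ (L : Type u) [Field L] [Algebra k L] (s t : Fin n → L), (∀ i, s i ≠ 0) →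
        (∀ j, t j ≠ 0) → ∃ P Q : Matrix (Fin (2 ^ n - 1)) (Fin (2 ^ n - 1)) L,
        IsUnit P.det ∧ IsUnit Q.det ∧
        (((grM k n).submatrix e e).map (MvPolynomial.map (algebraMap k L))).map
          (rescale id s t) * Q.map C =
          P.map C * ((grM k n).submatrix e e).map (MvPolynomial.map (algebraMap k L)) := by
    intro L _ _ s t hs ht
    obtain ⟨P, Q, hP, hQ, h⟩ := gnC s t hs ht
    refine ⟨P.submatrix e e, Q.submatrix e e, ?_, ?_, ?_⟩
    · rw [Matrix.det_submatrix_equiv_self]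
      exact hP
    · rw [Matrix.det_submatrix_equiv_self]
      exact hQ
    · have h1 : ((grM k n).submatrix e e).map (MvPolynomial.map (algebraMap k L)) =
          (grM L n).submatrix e e := by
        rw [← gr_map (algebraMap k L) n]
        rfl
      rw [h1]
      have h2 := congrArg (fun A : Matrix (Psub n) (Psub n) (MvPolynomial (Fin n × Fin n) L) =>
        A.submatrix e e) h
      rw [← Matrix.submatrix_mul_equiv _ _ e e e, ← Matrix.submatrix_mul_equiv _ _ e e e] at h2
      exact h2
  refine ⟨(grM k n).submatrix e e, fun a b => gr_deg _ _, ?_, ?_, key⟩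
  · rw [Matrix.det_submatrix_equiv_self]
    exact gnB hn
  · obtain ⟨L, _, _, s, t, hst⟩ := ind k n n
    obtain ⟨P, Q, hP, hQ, h⟩ := key L s t hst.s_ne hst.t_ne
    exact ⟨L, _, _, s, t, P, Q, hst, hP, hQ, Or.inl h⟩

end Pool.Agent.TSD
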