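import Pool.Agent.TSD.AdB

set_option autoImplicit false

namespace Pool.Agent.TSD

open MvPolynomial Finset

universe u v w

private theorem gr_mem {L : Type u} [Field L] {N : ℕ} (P : Matrix (Fin N) (Fin N) L) (μ : L)
    (x : Fin N → L) : x ∈ Module.End.maxGenEigenspace (Matrix.toLin' P) μ ↔
      ∃ k : ℕ, ((P - μ • (1 : Matrix (Fin N) (Fin N) L)) ^ k).mulVec x = 0 := by
  have h1 : Matrix.toLin' P - μ • (1 : Module.End L (Fin N → L)) =
      Matrix.toLin' (P - μ • (1 : Matrix (Fin N) (Fin N) L)) := by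
    rw [map_sub, map_smul, Matrix.toLin'_one]
    rfl
  rw [Module.End.mem_maxGenEigenspace]
  refine exists_congr fun k => ?_
  rw [h1, ← Matrix.toLin'_pow, Matrix.toLin'_apply]

private theorem gr_map {L : Type u} [Field L] {N : ℕ} {A P Q : Matrix (Fin N) (Fin N) L} {μ l : L}
    (h : μ • (A * Q) = P * A) {x : Fin N → L}
    (hx : x ∈ Module.End.maxGenEigenspace (Matrix.toLin' Q) l) :
    A.mulVec x ∈ Module.End.maxGenEigenspace (Matrix.toLin' P) (μ * l) := by
  rw [gr_mem] at hx ⊢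
  obtain ⟨k, hk⟩ := hx
  refine ⟨k, ?_⟩
  have h1 : ∀ k : ℕ, (P - (μ * l) • (1 : Matrix (Fin N) (Fin N) L)) ^ k * A =
      μ ^ k • (A * (Q - l • (1 : Matrix (Fin N) (Fin N) L)) ^ k) := by
    intro k
    induction k with
    | zero => simp
    | succ k ih =>
      have h2 : (P - (μ * l) • (1 : Matrix (Fin N) (Fin N) L)) * A =
          μ • (A * (Q - l • (1 : Matrix (Fin N) (Fin N) L))) := by
        rw [Matrix.sub_mul, ← h, Matrix.mul_sub, smul_sub, Matrix.smul_mul, Matrix.one_mul,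
          Matrix.mul_smul, Matrix.mul_one, smul_smul]
      rw [pow_succ, Matrix.mul_assoc, h2, Matrix.mul_smul, ← Matrix.mul_assoc, ih,
        Matrix.smul_mul, smul_smul, Matrix.mul_assoc, ← pow_succ, ← pow_succ']
  rw [Matrix.mulVec_mulVec, h1, Matrix.smul_mulVec, ← Matrix.mulVec_mulVec, hk, Matrix.mulVec_zero,
    smul_zero]

private theorem gr_col {L : Type u} [Field L] [IsAlgClosed L] {N : ℕ}
    {P W : Matrix (Fin N) (Fin N) L} {w : Fin N → L} (hW : IsUnit W.det)
    (hw : ∀ b, (fun i => W i b) ∈ Module.End.maxGenEigenspace (Matrix.toLin' P) (w b))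
    {x : Fin N → L} {l : L} (hx : x ∈ Module.End.maxGenEigenspace (Matrix.toLin' P) l)
    (a : Fin N) (ha : (W⁻¹.mulVec x) a ≠ 0) : w a = l := by
  classical
  by_contra hne
  obtain ⟨c, hc⟩ : ∃ c : Fin N → L, c = W⁻¹.mulVec x := ⟨_, rfl⟩
  rw [← hc] at ha
  have hsum : ∀ c : Fin N → L, W.mulVec c = ∑ b, c b • (fun i => W i b) := by
    intro c
    ext i
    simp [Matrix.mulVec, dotProduct, Finset.sum_apply, mul_comm]
  have hWc : W.mulVec c = x := by
    rw [hc, Matrix.mulVec_mulVec, Matrix.mul_nonsing_inv _ hW, Matrix.one_mulVec]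
  obtain ⟨c', hc'⟩ : ∃ c' : Fin N → L, ∀ b, c' b = if w b = l then 0 else c b :=
    ⟨_, fun _ => rfl⟩
  obtain ⟨c2, hc2⟩ : ∃ c2 : Fin N → L, ∀ b, c2 b = if w b = l then c b else 0 :=
    ⟨_, fun _ => rfl⟩
  have hcc : c' = c - c2 := by
    ext b
    rw [Pi.sub_apply, hc', hc2]
    split_ifs <;> simp
  have h1 : W.mulVec c' ∈ Module.End.maxGenEigenspace (Matrix.toLin' P) l := by
    rw [hcc, Matrix.mulVec_sub, hWc]
    refine Submodule.sub_mem _ hx ?_
    rw [hsum]
    refine Submodule.sum_mem _ fun b _ => ?_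
    rw [hc2]
    split_ifs with hb
    · rw [← hb]
      exact Submodule.smul_mem _ _ (hw b)
    · rw [zero_smul]
      exact Submodule.zero_mem _
  have h2 : W.mulVec c' ∈ ⨆ j, ⨆ (_ : j ≠ l),
      Module.End.maxGenEigenspace (Matrix.toLin' P) j := by
    rw [hsum]
    refine Submodule.sum_mem _ fun b _ => ?_
    rw [hc']
    split_ifs with hb
    · rw [zero_smul]
      exact Submodule.zero_mem _
    · refine Submodule.smul_mem _ _ ?_
      have h3 : Module.End.maxGenEigenspace (Matrix.toLin' P) (w b) ≤ ⨆ j, ⨆ (_ : j ≠ l),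
          Module.End.maxGenEigenspace (Matrix.toLin' P) j :=
        le_iSup₂ (f := fun j (_ : j ≠ l) => Module.End.maxGenEigenspace (Matrix.toLin' P) j) _ hb
      exact h3 (hw b)
  have h3 : W.mulVec c' = 0 := by
    have h4 := (Module.End.independent_maxGenEigenspace (Matrix.toLin' P)) l
    rw [Submodule.disjoint_def] at h4
    exact h4 _ h1 h2
  have h5 : c' = 0 := by
    have h6 : W⁻¹.mulVec (W.mulVec c') = c' := by
      rw [Matrix.mulVec_mulVec, Matrix.nonsing_inv_mul _ hW, Matrix.one_mulVec]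
    rw [← h6, h3, Matrix.mulVec_zero]
  apply ha
  have h7 := congrFun h5 a
  rw [hc', if_neg hne] at h7
  exact h7

private theorem gr_ne {L : Type u} [Field L] {N : ℕ}
    {P W : Matrix (Fin N) (Fin N) L} {w : Fin N → L} (hP : IsUnit P.det) (hW : IsUnit W.det)
    (hw : ∀ b, (fun i => W i b) ∈ Module.End.maxGenEigenspace (Matrix.toLin' P) (w b))
    (a : Fin N) : w a ≠ 0 := by
  intro h0
  have h1 := hw a
  rw [gr_mem, h0] at h1
  obtain ⟨k, hk⟩ := h1
  rw [zero_smul, sub_zero] at hk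
  have hPk : IsUnit (P ^ k).det := by
    rw [Matrix.det_pow]
    exact hP.pow k
  have h2 : (fun i => W i a) = 0 := by
    have h6 : (P ^ k)⁻¹.mulVec ((P ^ k).mulVec (fun i => W i a)) = fun i => W i a := by
      rw [Matrix.mulVec_mulVec, Matrix.nonsing_inv_mul _ hPk, Matrix.one_mulVec]
    rw [← h6, hk, Matrix.mulVec_zero]
  exact hW.ne_zero (Matrix.det_eq_zero_of_column_eq_zero a fun i => congrFun h2 i)

/-- **Gr** (grading).  Matrices `A i` with `μ i • (A i * Q) = P * A i`, `P`, `Q` invertible, `μ i ≠ 0`,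
over an algebraically closed field: after multiplication by invertible matrices `U`, `V` on both sides
the entry `(a, b)` of `A i` is nonzero only if `w a = μ i * v b`, for some nonzero weights `w`, `v`.

PROOF. Let `V`, `v` be as in `adB` for `Q` and `W`, `w` as in `adB` for `P`; put `U = W⁻¹`
(`IsUnit W.det`).
(1) `A i` maps `maxGenEigenspace Q λ` into `maxGenEigenspace P (μ i * λ)`: from `P A = μ • A Q` we get
`(P - μ λ) A = μ • A (Q - λ)`, so `(P - μ λ)^k A = μ^k • A (Q - λ)^k` by induction on `k`; use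
`Module.End.mem_maxGenEigenspace` (`x` is in the space iff some power of `f - λ` kills it).
(2) If `x ∈ maxGenEigenspace P λ` and `(W⁻¹ x) a ≠ 0` then `w a = λ`: `x = ∑ a, (W⁻¹ x) a • W_a` (`W_a` the
`a`-th column, as `W (W⁻¹ x) = x`).  Group by eigenvalues: for `ν ≠ λ` the sum `∑_{a : w a = ν} (W⁻¹ x) a • W_a`
lies in `maxGenEigenspace P ν`, and the sum over all `ν` of these minus `x` (which belongs to the summand
`λ`) is zero; by independence (`Module.End.independent_maxGenEigenspace`, `iSupIndep`, e.g. via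
`iSupIndep.dfinsupp_lsum_injective` or: the sum `z` over all `a` with `w a ≠ λ` lies both in
`maxGenEigenspace P λ` (it is `x` minus terms of this space) and in the supremum of the others, hence is
`0`), and then the linear independence of the columns of `W` (`W` invertible: `W *ᵥ c = 0 → c = 0`,
applied to `c a = if w a = λ then 0 else (W⁻¹ x) a`) gives `(W⁻¹ x) a = 0` for `w a ≠ λ`.
(3) Entry: `(U * A i * V) a b = (W⁻¹ (A i V_b)) a`, `V_b` the `b`-th column, `A i V_b ∈
maxGenEigenspace P (μ i * v b)` by (1); so (2) gives `w a = μ i * v b`.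
(4) Weights are nonzero: if `w a = 0`, the column `W_a` is nonzero (invertible `W`) and killed by a power of
`P`, but `P` is invertible: contradiction; same for `v b` and `Q`.
-/
theorem gr {L : Type u} [Field L] [IsAlgClosed L] {N : ℕ} {ι : Type v}
    (A : ι → Matrix (Fin N) (Fin N) L) (μ : ι → L) (P Q : Matrix (Fin N) (Fin N) L)
    (hP : IsUnit P.det) (hQ : IsUnit Q.det) (hμ : ∀ i, μ i ≠ 0)
    (h : ∀ i, μ i • (A i * Q) = P * A i) :
    ∃ (U V : Matrix (Fin N) (Fin N) L) (w v : Fin N → L), IsUnit U.det ∧ IsUnit V.det ∧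
      (∀ a, w a ≠ 0) ∧ (∀ b, v b ≠ 0) ∧ ∀ i a b, (U * A i * V) a b ≠ 0 → w a = μ i * v b := by
  obtain ⟨V, v, hV, hv⟩ := adB Q
  obtain ⟨W, w, hW, hw⟩ := adB P
  refine ⟨W⁻¹, V, w, v, ?_, hV, gr_ne hP hW hw, gr_ne hQ hV hv, fun i a b hab => ?_⟩
  · rw [Matrix.det_nonsing_inv]
    exact IsUnit.ringInverse hW
  · refine gr_col hW hw (gr_map (h i) (hv b)) a ?_
    have h1 : (W⁻¹.mulVec ((A i).mulVec fun j => V j b)) a = (W⁻¹ * A i * V) a b := by
      rw [Matrix.mulVec_mulVec, Matrix.mul_apply]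
      rfl
    rw [h1]
    exact hab

end Pool.Agent.TSD
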