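import Pool.Agent.TSD.GgL

set_option autoImplicit false

namespace Pool.Agent.TSD

open MvPolynomial Finset

universe u v w

/-- **HBa1** (a solution up to a factor).

PROOF. Let `A = aux p a0 Z z`, `ψ i = if p i then A.adjugate b i else 0`.  For `p m`, `m ≠ a0`:
`∑ i, ψ i * Z i m = ∑ i, A.adjugate b i * A i m` (for `p i` we have `A i m = Z i m`; for `¬ p i` we have
`A i m = [i = m] = 0`) `= (A.adjugate * A) b m = A.det * [b = m]` (`Matrix.adjugate_mul`). -/
theorem hba1 {S : Type u} [CommRing S] {ι : Type v} [DecidableEq ι] [Fintype ι] (p : ι → Prop)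
    [DecidablePred p] (a0 : ι) (ha0 : p a0) (Z : Matrix ι ι S) (z : ι → S) (b : ι) (hb : p b)
    (hba : b ≠ a0) :
    ∃ ψ : ι → S, (∀ i, ¬ p i → ψ i = 0) ∧ ∀ m, p m → m ≠ a0 →
      ∑ i, ψ i * Z i m = if m = b then (aux p a0 Z z).det else 0 := by
  obtain ⟨A, hA⟩ : ∃ A : Matrix ι ι S, A = aux p a0 Z z := ⟨_, rfl⟩
  refine ⟨fun i => if p i then A.adjugate b i else 0, fun i hi => if_neg hi, ?_⟩
  intro m hm hma
  rw [← hA]
  have h1 : ∑ i, (if p i then A.adjugate b i else 0) * Z i m = (A.adjugate * A) b m := by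
    rw [Matrix.mul_apply]
    refine Finset.sum_congr rfl fun i _ => ?_
    by_cases hi : p i
    · rw [if_pos hi, hA]
      congr 1
      unfold aux
      rw [if_pos hi, if_neg hma, if_pos hm]
    · rw [if_neg hi, zero_mul]
      have : A i m = 0 := by
        rw [hA]
        unfold aux
        rw [if_neg hi, if_neg]
        rintro rfl
        exact hi hm
      rw [this, mul_zero]
  rw [h1, Matrix.adjugate_mul, Matrix.smul_apply, Matrix.one_apply, smul_eq_mul]
  by_cases hmb : m = b
  · rw [if_pos hmb, if_pos hmb.symm, mul_one]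
  · rw [if_neg hmb, if_neg (fun h => hmb h.symm), mul_zero]

/-- **HBa2** (proportionality modulo `p1`).

PROOF. Let `A = aux p a0 Z (Pi.single a' 1)`, `A.det = gg p a0 Z a'`.  The row vector `ψ ᵥ* A` has the entry
`ψ a'` at `a0` (rows `¬ p i` have the entry `[i = a0] = 0` there, anyway `ψ i = 0`), the entry
`if m = b then p1 else 0` at `m ≠ a0` with `p m`, and `ψ m = 0` at `m` with `¬ p m` (the entries of the
rows `p i` are `0` there, the row `i = m` contributes `ψ m = 0`).  So
`ψ ᵥ* A = ψ a' • Pi.single a0 1 + p1 • Pi.single b 1`.  Multiply by the adjugate: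
`A.det • ψ = ψ a' • (A.adjugate a0) + p1 • (A.adjugate b)` (`Matrix.mul_adjugate`,
`Matrix.vecMul_vecMul`).  At the entry `a`: `gg a' * ψ a = ψ a' * gg a + p1 * _` by `adj_aux`. -/
theorem hba2 {S : Type u} [CommRing S] {ι : Type v} [DecidableEq ι] [Fintype ι] (p : ι → Prop)
    [DecidablePred p] (a0 : ι) (ha0 : p a0) (Z : Matrix ι ι S) (p1 : S) (b : ι) (hb : p b)
    (hba : b ≠ a0) (ψ : ι → S) (h0 : ∀ i, ¬ p i → ψ i = 0)
    (hψ : ∀ m, p m → m ≠ a0 → ∑ i, ψ i * Z i m = if m = b then p1 else 0) (a a' : ι) (ha : p a)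
    (ha' : p a') : p1 ∣ gg p a0 Z a' * ψ a - gg p a0 Z a * ψ a' := by
  obtain ⟨A, hA⟩ : ∃ A : Matrix ι ι S, A = aux p a0 Z (Pi.single a' 1) := ⟨_, rfl⟩
  have hdet : A.det = gg p a0 Z a' := by
    rw [hA]
    rfl
  have hadj : A.adjugate a0 a = gg p a0 Z a := by
    rw [hA]
    exact adj_aux p a0 ha0 Z _ a ha
  have hv : Matrix.vecMul ψ A = fun m => ψ a' * (if m = a0 then 1 else 0) +
      p1 * (if m = b then 1 else 0) := by
    funext m
    have e0 : Matrix.vecMul ψ A m = ∑ i, ψ i * A i m := rfl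
    rw [e0]
    by_cases hma : m = a0
    · have hmb : m ≠ b := fun h => hba (h.symm.trans hma)
      rw [if_pos hma, if_neg hmb, mul_one, mul_zero, add_zero, Finset.sum_eq_single a']
      · rw [hA, hma]
        unfold aux
        rw [if_pos ha', if_pos rfl, Pi.single_eq_same, mul_one]
      · intro i _ hi
        by_cases hpi : p i
        · rw [hA, hma]
          unfold aux
          rw [if_pos hpi, if_pos rfl, Pi.single_eq_of_ne hi, mul_zero]
        · rw [h0 i hpi, zero_mul]
      · intro h
        exact absurd (Finset.mem_univ _) h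
    · rw [if_neg hma, mul_zero, zero_add]
      by_cases hpm : p m
      · have e1 : ∑ i, ψ i * A i m = ∑ i, ψ i * Z i m := by
          refine Finset.sum_congr rfl fun i _ => ?_
          by_cases hpi : p i
          · congr 1
            rw [hA]
            unfold aux
            rw [if_pos hpi, if_neg hma, if_pos hpm]
          · rw [h0 i hpi, zero_mul, zero_mul]
        rw [e1, hψ m hpm hma]
        by_cases hmb : m = b
        · rw [if_pos hmb, if_pos hmb, mul_one]
        · rw [if_neg hmb, if_neg hmb, mul_zero]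
      · have hmb : m ≠ b := fun h => hpm (h ▸ hb)
        rw [if_neg hmb, mul_zero]
        refine Finset.sum_eq_zero fun i _ => ?_
        by_cases hpi : p i
        · rw [hA]
          unfold aux
          rw [if_pos hpi, if_neg hma, if_neg hpm, mul_zero]
        · rw [h0 i hpi, zero_mul]
  have h2 : Matrix.vecMul (Matrix.vecMul ψ A) A.adjugate = A.det • ψ := by
    rw [Matrix.vecMul_vecMul, Matrix.mul_adjugate, Matrix.vecMul_smul, Matrix.vecMul_one]
  have h3 := congrFun h2 a
  rw [hv] at h3
  have h4 : Matrix.vecMul (fun m => ψ a' * (if m = a0 then 1 else 0) +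
      p1 * (if m = b then 1 else 0)) A.adjugate a =
      ψ a' * A.adjugate a0 a + p1 * A.adjugate b a := by
    show ∑ m, (ψ a' * (if m = a0 then 1 else 0) + p1 * (if m = b then 1 else 0)) *
      A.adjugate m a = _
    simp only [add_mul, mul_ite, mul_one, mul_zero, ite_mul, zero_mul, Finset.sum_add_distrib,
      Finset.sum_ite_eq', Finset.mem_univ, if_true]
  rw [h4, hadj, Pi.smul_apply, smul_eq_mul, hdet] at h3
  refine ⟨A.adjugate b a, ?_⟩
  rw [← h3]
  ring

end Pool.Agent.TSD
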