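import Pool.Agent.TSD.HBa

set_option autoImplicit false

namespace Pool.Agent.TSD

open MvPolynomial Finset

universe u v w

private theorem HBb_mem {S : Type u} [CommRing S] {ι : Type v} [DecidableEq ι] [Fintype ι]
    (p : ι → Prop) [DecidablePred p] (g : ι → S) (x : S)
    (hx : x ∈ Ideal.span {x | ∃ a, p a ∧ g a = x}) :
    ∃ c : ι → S, x = ∑ a, if p a then c a * g a else 0 := by
  refine Submodule.span_induction (p := fun x _ => ∃ c : ι → S,
    x = ∑ a, if p a then c a * g a else 0) ?_ ?_ ?_ ?_ hx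
  · rintro y ⟨a, ha, rfl⟩
    refine ⟨Pi.single a 1, ?_⟩
    rw [Finset.sum_eq_single a]
    · rw [if_pos ha, Pi.single_eq_same, one_mul]
    · intro b _ hb
      rw [Pi.single_eq_of_ne hb, zero_mul, ite_self]
    · intro h
      exact absurd (mem_univ a) h
  · exact ⟨fun _ => 0, by simp⟩
  · rintro y z _ _ ⟨c, hc⟩ ⟨d, hd⟩
    refine ⟨fun a => c a + d a, ?_⟩
    rw [hc, hd, ← Finset.sum_add_distrib]
    refine Finset.sum_congr rfl fun a _ => ?_
    split_ifs
    · ring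
    · simp
  · rintro r y _ ⟨c, hc⟩
    refine ⟨fun a => r * c a, ?_⟩
    rw [smul_eq_mul, hc, Finset.mul_sum]
    refine Finset.sum_congr rfl fun a _ => ?_
    split_ifs
    · ring
    · simp

private theorem HBb_lam {S : Type u} [CommRing S] {ι : Type v} [Fintype ι]
    (p : ι → Prop) [DecidablePred p] (g ψ c : ι → S) (p1 q : S)
    (hq : q = ∑ a, if p a then c a * g a else 0)
    (h : ∀ a a', p a → p a' → p1 ∣ g a' * ψ a - g a * ψ a') (a : ι) (ha : p a) :
    p1 ∣ q * ψ a - (∑ a', if p a' then c a' * ψ a' else 0) * g a := by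
  have h1 : q * ψ a - (∑ a', if p a' then c a' * ψ a' else 0) * g a =
      ∑ a', if p a' then c a' * (g a' * ψ a - g a * ψ a') else 0 := by
    rw [hq, Finset.sum_mul, Finset.sum_mul, ← Finset.sum_sub_distrib]
    refine Finset.sum_congr rfl fun a' _ => ?_
    split_ifs
    · ring
    · ring
  rw [h1]
  refine Finset.dvd_sum fun a' _ => ?_
  split_ifs with h2
  · exact Dvd.dvd.mul_left (h a a' ha h2) _
  · exact dvd_zero _

/-- **HBb** (Hilbert-Burch and Eagon-Northcott, elementary).  If the ideal of the maximal minors of an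
`r × (r - 1)` matrix contains a regular sequence of length three, the matrix has a left inverse.

PROOF. All congruences modulo `p1`.  Write `g a = gg p a0 Z a`.
(1) Elements of the ideal: from `m1`, `m2`, `m3` there are `c1 c2 c3 : ι → S` with
`p_i = ∑ a, if p a then c_i a * g a else 0` (`Ideal.span` of `{g a | p a}`: `Submodule.span_induction`, or
`Ideal.mem_span_range_iff_exists_fun` after rewriting the set as a range over the subtype).
(2) `hba1` with `z = c1` and `det_aux`: `ψ` with support in `p` and `∑ i, ψ i * Z i m = [m = b] p1` for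
`p m`, `m ≠ a0`.  `hba2`: `g a' * ψ a ≡ g a * ψ a'` for `p a`, `p a'`.
(3) Put `λ2 = ∑ a', if p a' then c2 a' * ψ a' else 0`, and `λ3` in the same way.  Multiplying (2) by `c2 a'`
and summing: `p2 * ψ a ≡ λ2 * g a` for `p a`; `p3 * ψ a ≡ λ3 * g a`.
(4) So `(p3 * λ2 - p2 * λ3) * g a ≡ p3 p2 ψ a - p2 p3 ψ a = 0`.  Multiply by `c2 a` and sum:
`(p3 * λ2 - p2 * λ3) * p2 ≡ 0`, so by `h2` `p1 ∣ p3 * λ2 - p2 * λ3`, i.e.
`p3 * λ2 = p1 * u + p2 * λ3`; by `h3` `λ2 = p1 * u' + p2 * ν` for some `ν`.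
(5) `p2 * ψ a ≡ λ2 * g a ≡ p2 * ν * g a`, so `p1 ∣ p2 * (ψ a - ν * g a)`, by `h2` `ψ a - ν * g a = p1 * ψ' a`
for `p a`; put `ψ' a = 0` for `¬ p a`.
(6) For `p m`, `m ≠ a0`: `p1 * ∑ i, ψ' i * Z i m = ∑ i, ψ i * Z i m - ν * ∑ (p i) g i * Z i m =
[m = b] p1 - 0` by `gg_rel`; so `p1 * (∑ i, ψ' i * Z i m - [m = b]) = 0` and `h1` finishes. -/
theorem hbb {S : Type u} [CommRing S] {ι : Type v} [DecidableEq ι] [Fintype ι] (p : ι → Prop)
    [DecidablePred p] (a0 : ι) (ha0 : p a0) (Z : Matrix ι ι S) (p1 p2 p3 : S)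
    (h1 : ∀ x, p1 * x = 0 → x = 0) (h2 : ∀ x, p1 ∣ p2 * x → p1 ∣ x)
    (h3 : ∀ x, (∃ y z, p3 * x = p1 * y + p2 * z) → ∃ y z, x = p1 * y + p2 * z)
    (m1 : p1 ∈ Ig p a0 Z) (m2 : p2 ∈ Ig p a0 Z) (m3 : p3 ∈ Ig p a0 Z) (b : ι) (hb : p b)
    (hba : b ≠ a0) :
    ∃ ψ : ι → S, (∀ i, ¬ p i → ψ i = 0) ∧ ∀ m, p m → m ≠ a0 →
      ∑ i, ψ i * Z i m = if m = b then 1 else 0 := by
  set g : ι → S := fun a => gg p a0 Z a with hg
  obtain ⟨c1, e1⟩ := HBb_mem p g p1 m1
  obtain ⟨c2, e2⟩ := HBb_mem p g p2 m2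
  obtain ⟨c3, e3⟩ := HBb_mem p g p3 m3
  obtain ⟨ψ, s0, s1⟩ := hba1 p a0 ha0 Z c1 b hb hba
  have hdet : (aux p a0 Z c1).det = p1 := by
    rw [det_aux p a0 ha0 Z c1]
    exact e1.symm
  rw [hdet] at s1
  have hcong : ∀ a a', p a → p a' → p1 ∣ g a' * ψ a - g a * ψ a' := fun a a' ha ha' =>
    hba2 p a0 ha0 Z p1 b hb hba ψ s0 s1 a a' ha ha'
  set l2 : S := ∑ a', if p a' then c2 a' * ψ a' else 0 with hl2
  set l3 : S := ∑ a', if p a' then c3 a' * ψ a' else 0 with hl3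
  have k2 : ∀ a, p a → p1 ∣ p2 * ψ a - l2 * g a := HBb_lam p g ψ c2 p1 p2 e2 hcong
  have k3 : ∀ a, p a → p1 ∣ p3 * ψ a - l3 * g a := HBb_lam p g ψ c3 p1 p3 e3 hcong
  have k4 : ∀ a, p a → p1 ∣ (p3 * l2 - p2 * l3) * g a := by
    intro a ha
    have h4 := dvd_sub (Dvd.dvd.mul_left (k3 a ha) p2) (Dvd.dvd.mul_left (k2 a ha) p3)
    have h5 : p2 * (p3 * ψ a - l3 * g a) - p3 * (p2 * ψ a - l2 * g a) =
        (p3 * l2 - p2 * l3) * g a := by ring
    rw [h5] at h4
    exact h4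
  have k5 : p1 ∣ p2 * (p3 * l2 - p2 * l3) := by
    have h6 : p2 * (p3 * l2 - p2 * l3) =
        ∑ a, if p a then c2 a * ((p3 * l2 - p2 * l3) * g a) else 0 := by
      conv_lhs => rw [e2, Finset.sum_mul]
      refine Finset.sum_congr rfl fun a _ => ?_
      split_ifs
      · rw [← e2]
        ring
      · ring
    rw [h6]
    refine Finset.dvd_sum fun a _ => ?_
    split_ifs with h2
    · exact Dvd.dvd.mul_left (k4 a h2) _
    · exact dvd_zero _
  obtain ⟨u, hu⟩ := h2 _ k5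
  obtain ⟨u', ν, hν⟩ := h3 l2 ⟨u, l3, by linear_combination hu⟩
  have k6 : ∀ a, p a → p1 ∣ ψ a - ν * g a := by
    intro a ha
    refine h2 _ ?_
    have h7 : p2 * (ψ a - ν * g a) = (p2 * ψ a - l2 * g a) + p1 * (u' * g a) := by
      rw [hν]
      ring
    rw [h7]
    exact dvd_add (k2 a ha) (Dvd.intro _ rfl)
  have k7 : ∀ a, ∃ y, p a → ψ a - ν * g a = p1 * y := by
    intro a
    by_cases ha : p a
    · obtain ⟨y, hy⟩ := k6 a ha
      exact ⟨y, fun _ => hy⟩
    · exact ⟨0, fun h => absurd h ha⟩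
  choose f hf using k7
  refine ⟨fun i => if p i then f i else 0, fun i hi => if_neg hi, fun m hm hma => ?_⟩
  have h8 := s1 m hm hma
  have h9 := gg_rel p a0 ha0 Z m hm hma
  have h10 : p1 * ((∑ i, (if p i then f i else 0) * Z i m) - if m = b then 1 else 0) = 0 := by
    have h11 : p1 * ∑ i, (if p i then f i else 0) * Z i m =
        (∑ i, ψ i * Z i m) - ν * ∑ a, if p a then Z a m * gg p a0 Z a else 0 := by
      rw [Finset.mul_sum, Finset.mul_sum, ← Finset.sum_sub_distrib]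
      refine Finset.sum_congr rfl fun i _ => ?_
      by_cases hi : p i
      · rw [if_pos hi, if_pos hi]
        have h12 := hf i hi
        simp only [hg] at h12
        linear_combination (-Z i m) * h12
      · rw [if_neg hi, if_neg hi, s0 i hi]
        ring
    rw [mul_sub, h11, h9, h8, mul_zero, sub_zero]
    split_ifs <;> ring
  exact sub_eq_zero.1 (h1 _ h10)

end Pool.Agent.TSD
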