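import Pool.Agent.TSD.Defs

set_option autoImplicit false

namespace Pool.Agent.TSD

open MvPolynomial Finset

universe u v w

/-- **HEv** (values of polynomials of degree one in every row).

PROOF. `aeval v f = ∑ μ ∈ f.support, C (coeff μ f) * ∏ p, v p ^ μ p`.  Each `v (i, j) = asg z Y (i, j)` is homogeneous
of degree `β i` with `β 0 = 0`, `β i.succ = α i`, so the product is homogeneous of degree
`∑ p, μ p * β p.1 = ∑ i, (∑ j, μ (i, j)) * β i = ∑ i, β i = ∑ i, α i` (`IsHomogeneous.pow`,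
`IsHomogeneous.prod`, `Fintype.sum_prod_type`, `Fin.sum_univ_succ`). -/
theorem hEv {R : Type u} [CommRing R] {τ : Type v} {n : ℕ}
    (f : MvPolynomial (Fin (n + 1) × Fin (n + 1)) R)
    (hf : ∀ μ, coeff μ f ≠ 0 → ∀ i, ∑ j, μ (i, j) = 1) (α : Fin n → ℕ)
    (z : Fin (n + 1) → MvPolynomial τ R) (Y : Fin n → Fin (n + 1) → MvPolynomial τ R)
    (hz : ∀ j, (z j).IsHomogeneous 0) (hY : ∀ i j, (Y i j).IsHomogeneous (α i)) :
    (aeval (asg z Y) f).IsHomogeneous (∑ i, α i) := by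
  classical
  set β : Fin (n + 1) → ℕ := Fin.cons 0 α with hβ
  have hv : ∀ p, (asg z Y p).IsHomogeneous (β p.1) := by
    rintro ⟨i, j⟩
    refine Fin.cases ?_ (fun i => ?_) i
    · simpa [asg, hβ] using hz j
    · simpa [asg, hβ] using hY i j
  have hsum : ∑ i, α i = ∑ i, β i := by
    rw [Fin.sum_univ_succ, hβ]
    simp
  rw [hsum, aeval_def, eval₂_eq']
  refine IsHomogeneous.sum _ _ _ fun μ hμ => ?_
  have h1 : ∑ p, β p.1 * μ p = ∑ i, β i := by
    rw [Fintype.sum_prod_type]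
    refine Finset.sum_congr rfl fun i _ => ?_
    show ∑ y, β i * μ (i, y) = β i
    rw [← Finset.mul_sum, hf μ (mem_support_iff.1 hμ) i, mul_one]
  rw [← h1, ← zero_add (∑ p, β p.1 * μ p)]
  exact (isHomogeneous_C _ _).mul (IsHomogeneous.prod _ _ _ fun p _ => (hv p).pow _)

end Pool.Agent.TSD
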