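import Pool.Agent.TSD.Defs

set_option autoImplicit false

namespace Pool.Agent.TSD

open MvPolynomial Finset

universe u v w

private theorem HSp_comp {k : Type u} [CommRing k] {σ : Type v} (P q : MvPolynomial σ k) (s E : ℕ)
    (hP : P.IsHomogeneous s) :
    homogeneousComponent (E + s) (q * P) = homogeneousComponent E q * P := by
  have h1 : q * P = ∑ i ∈ range (q.totalDegree + 1), homogeneousComponent i q * P := by
    rw [← Finset.sum_mul, sum_homogeneousComponent]
  have h2 : ∀ i, homogeneousComponent (E + s) (homogeneousComponent i q * P) =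
      if E = i then homogeneousComponent i q * P else 0 := by
    intro i
    rw [homogeneousComponent_of_mem (n := i + s) ((homogeneousComponent_isHomogeneous i q).mul hP)]
    by_cases h : E = i
    · rw [if_pos h, if_pos (by omega)]
    · rw [if_neg h, if_neg (by omega)]
  rw [h1, map_sum]
  simp only [h2]
  rw [Finset.sum_ite_eq]
  split_ifs with h3
  · rfl
  · rw [homogeneousComponent_eq_zero _ _ (by simpa using h3), zero_mul]

/-- **HSp** (homogeneous coefficients).

PROOF. `f = ∑ j, g j * P j` (`Ideal.mem_span_range_iff_exists_fun`).  Take `h j = homogeneousComponent E (g j)`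
(`homogeneousComponent_isHomogeneous`).  The component of degree `E + s` of `f` is `f`
(`homogeneousComponent_of_mem`/`IsHomogeneous` lemmas), and that of `g j * P j` is
`homogeneousComponent E (g j) * P j` because `P j` is homogeneous of degree `s`: write `g j` as the sum of
its components (`sum_homogeneousComponent`), each product `homogeneousComponent i (g j) * P j` is
homogeneous of degree `i + s` (`IsHomogeneous.mul`), and `homogeneousComponent (E + s)` of it is itself if
`i = E` and zero otherwise. -/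
theorem hSp {k : Type u} [CommRing k] {σ : Type v} {ι : Type w} [Fintype ι]
    (P : ι → MvPolynomial σ k) (s : ℕ) (hP : ∀ j, (P j).IsHomogeneous s) (f : MvPolynomial σ k)
    (E : ℕ) (hf : f.IsHomogeneous (E + s)) (hm : f ∈ Ideal.span (Set.range P)) :
    ∃ h : ι → MvPolynomial σ k, (∀ j, (h j).IsHomogeneous E) ∧ f = ∑ j, h j * P j := by
  obtain ⟨g, hg⟩ := Ideal.mem_span_range_iff_exists_fun.1 hm
  refine ⟨fun j => homogeneousComponent E (g j),
    fun j => homogeneousComponent_isHomogeneous E (g j), ?_⟩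
  have h1 : homogeneousComponent (E + s) f = f := homogeneousComponent_eq_self hf
  rw [← h1, ← hg, map_sum]
  exact Finset.sum_congr rfl fun j _ => HSp_comp (P j) (g j) s E (hP j)

private theorem HSp_mono {k : Type u} [CommRing k] (μ : Fin 3 →₀ ℕ) (c : k) (g : ℕ)
    (hμ : μ.degree = g) :
    ∃ y z, monomial μ c = C (eval ![0, 0, 1] (monomial μ c)) * X 2 ^ g + X 0 * y + X 1 * z := by
  have hd : μ 0 + μ 1 + μ 2 = g := by
    rw [← hμ, Finsupp.degree_eq_sum, Fin.sum_univ_three]
  have he : eval (![0, 0, 1] : Fin 3 → k) (monomial μ c) = c * (0 ^ μ 0 * 0 ^ μ 1) := by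
    rw [eval_monomial, Finsupp.prod_fintype _ _ (fun i => pow_zero _), Fin.prod_univ_three]
    simp
  have hmono : monomial μ c = C c * (X 0 ^ μ 0 * X 1 ^ μ 1 * X 2 ^ μ 2) := by
    rw [monomial_eq, Finsupp.prod_fintype _ _ (fun i => pow_zero _), Fin.prod_univ_three]
  rw [he]
  by_cases h0 : μ 0 = 0
  · by_cases h1 : μ 1 = 0
    · refine ⟨0, 0, ?_⟩
      have h2 : μ 2 = g := by omega
      rw [hmono, h0, h1, h2]
      simp
    · obtain ⟨m, hm⟩ : ∃ m, μ 1 = m + 1 := Nat.exists_eq_succ_of_ne_zero h1
      refine ⟨0, C c * (X 0 ^ μ 0 * X 1 ^ m * X 2 ^ μ 2), ?_⟩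
      rw [hmono, hm, pow_succ (0 : k)]
      simp only [mul_zero, map_zero, zero_mul, zero_add]
      ring
  · obtain ⟨m, hm⟩ : ∃ m, μ 0 = m + 1 := Nat.exists_eq_succ_of_ne_zero h0
    refine ⟨C c * (X 0 ^ m * X 1 ^ μ 1 * X 2 ^ μ 2), 0, ?_⟩
    rw [hmono, hm, pow_succ (0 : k)]
    simp only [mul_zero, map_zero, zero_mul, zero_add, add_zero]
    ring

private theorem HSp_sum {k : Type u} [CommRing k] (s : Finset (Fin 3 →₀ ℕ))
    (c : (Fin 3 →₀ ℕ) → k) (g : ℕ) (hs : ∀ μ ∈ s, μ.degree = g) :
    ∃ y z, ∑ μ ∈ s, monomial μ (c μ) = C (eval ![0, 0, 1] (∑ μ ∈ s, monomial μ (c μ))) * X 2 ^ g +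
      X 0 * y + X 1 * z := by
  classical
  induction s using Finset.induction_on with
  | empty => exact ⟨0, 0, by simp⟩
  | insert a s ha ih =>
    obtain ⟨y, z, h1⟩ := ih fun μ hμ => hs μ (mem_insert_of_mem hμ)
    obtain ⟨y', z', h2⟩ := HSp_mono a (c a) g (hs a (mem_insert_self a s))
    refine ⟨y + y', z + z', ?_⟩
    rw [Finset.sum_insert ha, map_add, C_add]
    generalize eval ![0, 0, 1] (∑ μ ∈ s, monomial μ (c μ)) = e1 at h1 ⊢
    generalize eval ![0, 0, 1] (monomial a (c a)) = e2 at h2 ⊢
    rw [h1, h2]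
    ring

/-- **HRs** (a form in three variables modulo the first two).

PROOF. By linearity over the monomials `μ` of `f` (all of degree `g`: `μ 0 + μ 1 + μ 2 = g`): a monomial with
`μ 0 ≠ 0` is a multiple of `X 0` and vanishes at `(0, 0, 1)`; one with `μ 1 ≠ 0` is a multiple of `X 1` and
vanishes there; the remaining one is `X 2 ^ g`, with value `1`.  E.g. `f = ∑ μ ∈ f.support, monomial μ (coeff μ f)`
and induction over the sum (`Finset.sum_induction`), or the statement for all sums of monomials of
degree `g`. -/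
theorem hRs {k : Type u} [CommRing k] (f : MvPolynomial (Fin 3) k) (g : ℕ)
    (hf : f.IsHomogeneous g) :
    ∃ y z, f = C (eval ![0, 0, 1] f) * X 2 ^ g + X 0 * y + X 1 * z := by
  have h1 := HSp_sum f.support (fun μ => coeff μ f) g (by
    intro μ hμ
    by_contra hc
    exact (mem_support_iff.1 hμ) (hf.coeff_eq_zero hc))
  rw [← MvPolynomial.as_sum f] at h1
  exact h1

end Pool.Agent.TSD
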