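import Pool.Agent.TSD.Defs

set_option autoImplicit false

namespace Pool.Agent.TSD

open MvPolynomial Finset

universe u v w

/-- **InvG** (the inverse of a graded matrix is graded).

PROOF. `h` says `Matrix.diagonal w * Λ = Λ * Matrix.diagonal v` (entries `w a * Λ a b = Λ a b * v b`).  Multiply by
`Λ⁻¹` on both sides: `Λ⁻¹ * diagonal w = diagonal v * Λ⁻¹` (`Matrix.nonsing_inv_mul`, `Matrix.mul_nonsing_inv`,
`hΛ`), i.e. `Λ⁻¹ b a * w a = v b * Λ⁻¹ b a`. -/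
theorem invG {F : Type u} [Field F] {N : ℕ} (Λ : Matrix (Fin N) (Fin N) F) (hΛ : IsUnit Λ.det)
    (w v : Fin N → F) (h : ∀ a b, Λ a b ≠ 0 → w a = v b) (b a : Fin N) (hba : Λ⁻¹ b a ≠ 0) :
    v b = w a := by
  have hc : Matrix.diagonal w * Λ = Λ * Matrix.diagonal v := by
    ext i j
    rw [Matrix.diagonal_mul, Matrix.mul_diagonal]
    by_cases h0 : Λ i j = 0
    · rw [h0]
      simp
    · rw [h i j h0, mul_comm]
  have h2 : Λ⁻¹ * Matrix.diagonal w = Matrix.diagonal v * Λ⁻¹ := by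
    calc Λ⁻¹ * Matrix.diagonal w = Λ⁻¹ * (Matrix.diagonal w * Λ) * Λ⁻¹ := by
          rw [Matrix.mul_assoc, Matrix.mul_assoc, Matrix.mul_nonsing_inv _ hΛ, Matrix.mul_one]
      _ = Λ⁻¹ * (Λ * Matrix.diagonal v) * Λ⁻¹ := by rw [hc]
      _ = Matrix.diagonal v * Λ⁻¹ := by
          rw [← Matrix.mul_assoc, Matrix.nonsing_inv_mul _ hΛ, Matrix.one_mul]
  have h3 : Λ⁻¹ b a * w a = v b * Λ⁻¹ b a := by
    have h4 := congrFun (congrFun h2 b) a
    rw [Matrix.mul_diagonal, Matrix.diagonal_mul] at h4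
    exact h4
  have h5 : Λ⁻¹ b a * w a = Λ⁻¹ b a * v b := by
    rw [h3, mul_comm]
  exact (mul_left_cancel₀ hba h5).symm

end Pool.Agent.TSD
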