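import Pool.Agent.TSD.Defs

set_option autoImplicit false

namespace Pool.Agent.TSD

open MvPolynomial Finset

universe u v w

private theorem leib_prod {R : Type u} [CommRing R] {σ : Type v} {ι : Type w} (s : Finset ι)
    (f : ι → MvPolynomial σ R) (μ : σ →₀ ℕ) (h : coeff μ (∏ a ∈ s, f a) ≠ 0) :
    ∃ d : ι → (σ →₀ ℕ), ∑ a ∈ s, d a = μ ∧ ∀ a ∈ s, coeff (d a) (f a) ≠ 0 := by
  classical
  induction s using Finset.induction_on generalizing μ with
  | empty =>
    refine ⟨fun _ => 0, ?_, by simp⟩
    rw [Finset.prod_empty, coeff_one] at h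
    by_contra hc
    rw [Finset.sum_empty] at hc
    exact h (if_neg hc)
  | insert a s ha ih =>
    rw [Finset.prod_insert ha, coeff_mul] at h
    obtain ⟨x, hx, hx0⟩ := Finset.exists_ne_zero_of_sum_ne_zero h
    obtain ⟨d, hd, hd0⟩ := ih x.2 (right_ne_zero_of_mul hx0)
    refine ⟨Function.update d a x.1, ?_, ?_⟩
    · rw [Finset.sum_insert ha, Function.update_self]
      have h1 : ∑ b ∈ s, Function.update d a x.1 b = ∑ b ∈ s, d b :=
        Finset.sum_congr rfl fun b hb => by
          rw [Function.update_of_ne (ne_of_mem_of_not_mem hb ha)]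
      rw [h1, hd]
      exact Finset.HasAntidiagonal.mem_antidiagonal.1 hx
    · intro b hb
      rcases Finset.mem_insert.1 hb with rfl | hb
      · rw [Function.update_self]
        exact left_ne_zero_of_mul hx0
      · rw [Function.update_of_ne (ne_of_mem_of_not_mem hb ha)]
        exact hd0 b hb

private theorem leib_mo {σ : Type v} (d : σ →₀ ℕ) (h : d.sum (fun _ e => e) ≤ 1) :
    ∃ o : Option σ, mo o = d := by
  classical
  by_cases h0 : d = 0
  · exact ⟨none, h0.symm⟩
  · obtain ⟨p, hp⟩ := Finsupp.ne_iff.1 h0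
    refine ⟨some p, ?_⟩
    show Finsupp.single p 1 = d
    have h1 : d p ≤ 1 := by
      refine le_trans ?_ h
      exact Finset.single_le_sum (f := fun a => d a) (fun _ _ => Nat.zero_le _)
        (Finsupp.mem_support_iff.2 hp)
    have h2 : ∀ q, q ≠ p → d q = 0 := by
      intro q hq
      by_contra hc
      have h3 : d p + d q ≤ 1 := by
        refine le_trans ?_ h
        rw [Finsupp.sum]
        have h4 : ({p, q} : Finset σ) ⊆ d.support := by
          intro x hx
          rcases Finset.mem_insert.1 hx with rfl | hx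
          · exact Finsupp.mem_support_iff.2 hp
          · rw [Finset.mem_singleton.1 hx]
            exact Finsupp.mem_support_iff.2 hc
        refine le_trans (le_of_eq ?_) (Finset.sum_le_sum_of_subset (f := fun a => d a) h4)
        rw [Finset.sum_pair hq.symm]
      have h5 : d p ≠ 0 := hp
      omega
    ext q
    by_cases hq : q = p
    · subst hq
      rw [Finsupp.single_eq_same]
      have h5 : d q ≠ 0 := hp
      omega
    · rw [Finsupp.single_eq_of_ne hq, h2 q hq]

/-- **Leib** (choice of a Leibniz term).  If the monomial `μ` occurs in the determinant of a matrix of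
polynomials of degree at most one, there are a permutation `π` and monomials `mo (τ a)` of the entries
`M a (π a)` with product `μ`.

PROOF. `Matrix.det_transpose`, `Matrix.det_apply'`: `M.det = ∑ π, sign π * ∏ a, M a (π a)`; so
`coeff μ (∏ a, M a (π a)) ≠ 0` for some `π` (`coeff_sum`, `Finset.exists_ne_zero_of_sum_ne_zero`; the sign
is a constant).  General lemma, by induction on a finset `s`: if `coeff μ (∏ a ∈ s, f a) ≠ 0` there are
monomials `d a` with `∑ a ∈ s, d a = μ` and `coeff (d a) (f a) ≠ 0` for `a ∈ s` (`coeff_mul`,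
`Finset.exists_ne_zero_of_sum_ne_zero`, the induction step redefines `d` at the new element with
`Function.update`).  As `(f a).totalDegree ≤ 1`, `le_totalDegree` gives `(d a).sum (fun _ e => e) ≤ 1`, so
`d a = 0 = mo none` or `d a = single p 1 = mo (some p)` (`Finsupp.degree`,
`Finsupp.sum`: if `d a ≠ 0` take `p` in the support, then `single p 1 ≤ d a` and the difference has
degree `0`).  `cm M o a b = coeff (mo o) (M a b)` by definition. -/
theorem leib {R : Type u} [CommRing R] {σ : Type v} {N : ℕ}
    (M : Matrix (Fin N) (Fin N) (MvPolynomial σ R)) (hM : ∀ a b, (M a b).totalDegree ≤ 1)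
    (μ : σ →₀ ℕ) (h : coeff μ M.det ≠ 0) :
    ∃ (π : Equiv.Perm (Fin N)) (τ : Fin N → Option σ), ∑ a, mo (τ a) = μ ∧
      ∀ a, cm M (τ a) a (π a) ≠ 0 := by
  classical
  rw [← Matrix.det_transpose, Matrix.det_apply', coeff_sum] at h
  obtain ⟨π, -, hπ⟩ := Finset.exists_ne_zero_of_sum_ne_zero h
  have h1 : coeff μ (∏ a, M a (π a)) ≠ 0 := by
    intro hc
    apply hπ
    have h2 : ((Equiv.Perm.sign π : ℤ) : MvPolynomial σ R) =
        C (((Equiv.Perm.sign π : ℤ) : R)) := by
      rw [map_intCast]
    rw [h2, coeff_C_mul]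
    have h3 : ∏ i, M.transpose (π i) i = ∏ a, M a (π a) := rfl
    rw [h3, hc, mul_zero]
  obtain ⟨d, hd, hd0⟩ := leib_prod univ (fun a => M a (π a)) μ h1
  have h4 : ∀ a, ∃ o : Option σ, mo o = d a := fun a =>
    leib_mo (d a) ((le_totalDegree (mem_support_iff.2 (hd0 a (Finset.mem_univ a)))).trans
      (hM a (π a)))
  choose τ hτ using h4
  refine ⟨π, τ, ?_, fun a => ?_⟩
  · rw [← hd]
    exact Finset.sum_congr rfl fun a _ => hτ a
  · show coeff (mo (τ a)) (M a (π a)) ≠ 0
    rw [hτ a]
    exact hd0 a (Finset.mem_univ a)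

end Pool.Agent.TSD
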