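import Pool.Agent.TSD.Defs

set_option autoImplicit false

namespace Pool.Agent.TSD

open MvPolynomial Finset

universe u v w

/-- **Lev** (levels).  There is a function `e` on `L` with `e (s_i t_(κ j) z) = e z + [i = i0]` for
`z ≠ 0`.

PROOF. Let `G` be the subgroup of `Lˣ` generated by the units `s_i t_(κ j)`.  Every `γ ∈ G` has the form
`∏ i, s i ^ a i * ∏ j, t j ^ b j` with integers `∑ a = ∑ b` (this holds for the generators, with
`a = Pi.single i 1`, `b = Pi.single (κ j) 1`, for `1`, and is stable under products and inverses: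
`Subgroup.closure_induction`), and by independence `a` is unique: if two pairs `(a, b)`, `(a', b')` give the
same element, `(a - a', b - b')` gives `1` (`zpow_sub₀`, `prod_div_distrib`), so `a = a'`.  Define
`deg γ = a i0` (choice; for `γ ∉ G` put `0`): `deg (s_i t_(κ j) γ) = deg γ + [i = i0]` for `γ ∈ G`, by
uniqueness.  Choose a representative `r z` of each coset: for `z : Lˣ` let `q z : Lˣ ⧸ G` be its class and
`r z = (q z).out`; then `z = r z * γ` with `γ = (r z)⁻¹ * z ∈ G` (`QuotientGroup.mk_out_eq_mul` or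
`QuotientGroup.out_eq'`, `QuotientGroup.eq`).  Put `e z = deg ((r z)⁻¹ * z)` for `z ≠ 0` (as a unit,
`Units.mk0`), `e 0 = 0`.  Multiplication by `s_i t_(κ j) ∈ G` does not change the coset (commutative group),
so `r` is unchanged and `e` changes by `[i = i0]`.

(If more convenient: avoid units and take the subgroup of the group with zero as a set
`{γ | ∃ a b, ∑ a = ∑ b ∧ γ = ∏ s ^ a * ∏ t ^ b}` and the equivalence relation `z ~ z'` iff
`∃ γ` in this set, `z = γ * z'`; the representative is `Quotient.out`.) -/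
theorem lev {L : Type u} [Field L] {n c : ℕ} (κ : Fin n → Fin c)
    (s : Fin n → L) (t : Fin c → L) (hst : Indep s t) (i0 : Fin n) :
    ∃ e : L → ℤ, ∀ i j (z : L), z ≠ 0 →
      e (s i * t (κ j) * z) = e z + if i = i0 then 1 else 0 := by
  classical
  let m : (Fin n → ℤ) × (Fin c → ℤ) → L := fun p => (∏ i, s i ^ p.1 i) * ∏ j, t j ^ p.2 j
  let ok : (Fin n → ℤ) × (Fin c → ℤ) → Prop := fun p => ∑ i, p.1 i = ∑ j, p.2 j
  have m_ne : ∀ p, m p ≠ 0 := fun p =>
    mul_ne_zero (prod_ne_zero_iff.2 fun i _ => zpow_ne_zero _ (hst.s_ne i))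
      (prod_ne_zero_iff.2 fun j _ => zpow_ne_zero _ (hst.t_ne j))
  have m_add : ∀ p q, m (p + q) = m p * m q := by
    intro p q
    simp only [m, Prod.fst_add, Prod.snd_add, Pi.add_apply]
    rw [prod_congr rfl fun i _ => zpow_add₀ (hst.s_ne i) (p.1 i) (q.1 i),
      prod_congr rfl fun j _ => zpow_add₀ (hst.t_ne j) (p.2 j) (q.2 j), prod_mul_distrib,
      prod_mul_distrib]
    ring
  have ok_add : ∀ p q, ok p → ok q → ok (p + q) := by
    intro p q hp hq
    simp only [ok, Prod.fst_add, Prod.snd_add, Pi.add_apply, sum_add_distrib] at hp hq ⊢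
    rw [hp, hq]
  have ok_neg : ∀ p, ok p → ok (-p) := by
    intro p hp
    simp only [ok, Prod.fst_neg, Prod.snd_neg, Pi.neg_apply, sum_neg_distrib] at hp ⊢
    rw [hp]
  have m_zero : m 0 = 1 := by simp [m]
  have uniq : ∀ p q, ok p → ok q → m p = m q → p = q := by
    intro p q hp hq h
    have h1 : m (p + -q) = 1 := by
      have h2 : m (p + -q) * m q = m q := by
        rw [← m_add, neg_add_cancel_right, h]
      exact mul_right_cancel₀ (m_ne q) (by rw [h2, one_mul])
    obtain ⟨h3, h4⟩ := hst.rel _ _ (ok_add _ _ hp (ok_neg _ hq)) h1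
    have h5 : p + -q = 0 := Prod.ext h3 h4
    rwa [← sub_eq_add_neg, sub_eq_zero] at h5
  let S : Setoid {z : L // z ≠ 0} :=
    { r := fun z z' => ∃ p, ok p ∧ z.1 = m p * z'.1
      iseqv :=
        { refl := fun z => ⟨0, by simp [ok], by rw [m_zero, one_mul]⟩
          symm := by
            rintro z z' ⟨p, hp, h⟩
            refine ⟨-p, ok_neg p hp, ?_⟩
            rw [h, ← mul_assoc, ← m_add, neg_add_cancel, m_zero, one_mul]
          trans := by
            rintro z z' z'' ⟨p, hp, h⟩ ⟨q, hq, h'⟩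
            refine ⟨p + q, ok_add p q hp hq, ?_⟩
            rw [h, h', m_add]
            exact (mul_assoc _ _ _).symm } }
  let rep : {z : L // z ≠ 0} → {z : L // z ≠ 0} := fun z => (Quotient.mk S z).out
  have hrep : ∀ z : {z : L // z ≠ 0}, ∃ p, ok p ∧ z.1 = m p * (rep z).1 := fun z =>
    S.symm (Quotient.exact (Quotient.out_eq (Quotient.mk S z)))
  choose P hP1 hP2 using hrep
  refine ⟨fun z => if h : z ≠ 0 then (P ⟨z, h⟩).1 i0 else 0, ?_⟩
  intro i j z hz
  let g : (Fin n → ℤ) × (Fin c → ℤ) := (Pi.single i 1, Pi.single (κ j) 1)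
  have hg : ok g := by simp [ok, g]
  have hmg : m g = s i * t (κ j) := by
    simp only [m, g]
    rw [prod_eq_single i (fun b _ hb => by rw [Pi.single_eq_of_ne hb, zpow_zero])
        (fun h => absurd (mem_univ _) h),
      prod_eq_single (κ j) (fun b _ hb => by rw [Pi.single_eq_of_ne hb, zpow_zero])
        (fun h => absurd (mem_univ _) h)]
    simp
  have hz' : s i * t (κ j) * z ≠ 0 :=
    mul_ne_zero (mul_ne_zero (hst.s_ne i) (hst.t_ne _)) hz
  have e1 : rep ⟨s i * t (κ j) * z, hz'⟩ = rep ⟨z, hz⟩ := by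
    have : Quotient.mk S ⟨s i * t (κ j) * z, hz'⟩ = Quotient.mk S ⟨z, hz⟩ :=
      Quotient.sound ⟨g, hg, by rw [hmg]⟩
    simp only [rep, this]
  have e2 : m (P ⟨s i * t (κ j) * z, hz'⟩) = m (g + P ⟨z, hz⟩) := by
    have h1 := hP2 ⟨s i * t (κ j) * z, hz'⟩
    have h2 := hP2 ⟨z, hz⟩
    rw [e1] at h1
    have h3 : s i * t (κ j) * z = m (g + P ⟨z, hz⟩) * (rep ⟨z, hz⟩).1 := by
      rw [m_add, hmg, mul_assoc (s i * t (κ j)), ← h2]
    exact mul_right_cancel₀ (rep ⟨z, hz⟩).2 (h1.symm.trans h3)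
  have e3 := uniq _ _ (hP1 _) (ok_add _ _ hg (hP1 _)) e2
  simp only [dif_pos hz', dif_pos hz]
  rw [e3]
  simp only [Prod.fst_add, Pi.add_apply, g, Pi.single_apply]
  rw [add_comm]
  congr 1
  simp only [eq_comm]

end Pool.Agent.TSD
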