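import Pool.Agent.TSD.SpL
import Pool.Agent.TSD.HSp

set_option autoImplicit false

namespace Pool.Agent.TSD

open MvPolynomial Finset
open Pool.Agent.H53.AC

universe u v w

/-- **Lft** (the property of being full is open).

PROOF. Put `E = 3 * D + s`, and let `Mn` be the (finite) type of the `μ : Fin 3 →₀ ℕ` of degree `E`
(`μ 0 + μ 1 + μ 2 = E`; finite e.g. as a subtype of `Finset` `antidiagonal`-like, `Finset.finsuppAntidiag univ E`,
or inject into `Fin 3 → Fin (E + 1)`).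
(1) Every `μ ∈ Mn` has some `μ l ≥ D`, so `monomial μ 1` is a multiple of `X l ^ D` and lies in
`Ideal.span (Set.range p)`; by `hSp` `monomial μ 1 = ∑ j, h μ j * p j` with `h μ j` homogeneous of degree `3 * D`.
(2) Put `G μ = ∑ j, map (algebraMap k (RatFunc k)) (h μ j) * P j`, homogeneous of degree `E`, and
`B μ ν = coeff ν (G μ)`.  It specializes to `coeff ν (∑ j, h μ j * p j) = [μ = ν]` (`coeff_mul` is a sum of products,
`sp_sum`, `sp_mul`, `sp_c`; `coeff_map`).  By `sp_det` `B.det` specializes to `1`, so `B.det ≠ 0`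
(`sp_z`).
(3) Since `G μ` is homogeneous of degree `E`, `G μ = ∑ ν : Mn, B μ ν • monomial ν 1`.  For `l`, let `ν0 = single l E ∈ Mn`
and `c = (row ν0 of B⁻¹)`, `c ᵥ* B = Pi.single ν0 1`.  Then `∑ μ, c μ • G μ = monomial ν0 1 = X l ^ E`, and the
left side lies in `Ideal.span (Set.range P)`. -/
theorem lft {k : Type u} [Field k] {ι : Type v} [Fintype ι] (p : ι → MvPolynomial (Fin 3) k)
    (P : ι → MvPolynomial (Fin 3) (RatFunc k)) (s : ℕ) (hp : ∀ j, (p j).IsHomogeneous s)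
    (hP : ∀ j, (P j).IsHomogeneous s)
    (hsp : ∀ j m, SpecializesTo (coeff m (P j)) (coeff m (p j))) (D : ℕ)
    (hD : ∀ l : Fin 3, (X l : MvPolynomial (Fin 3) k) ^ D ∈ Ideal.span (Set.range p)) :
    ∃ E : ℕ, ∀ l : Fin 3, (X l : MvPolynomial (Fin 3) (RatFunc k)) ^ E ∈
      Ideal.span (Set.range P) := by
  classical
  set φ : k →+* RatFunc k := algebraMap k (RatFunc k) with hφ
  refine ⟨3 * D + s, fun l => ?_⟩
  have hfin : ({μ : Fin 3 →₀ ℕ | μ.degree = 3 * D + s}).Finite :=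
    (Finsupp.finite_of_degree_le (3 * D + s)).subset fun μ hμ => le_of_eq hμ
  letI : Fintype {μ : Fin 3 →₀ ℕ // μ.degree = 3 * D + s} := hfin.fintype
  -- (1) the monomials of degree `E`
  have h1 : ∀ μ : {μ : Fin 3 →₀ ℕ // μ.degree = 3 * D + s}, ∃ h : ι → MvPolynomial (Fin 3) k,
      (∀ j, (h j).IsHomogeneous (3 * D)) ∧ monomial μ.1 (1 : k) = ∑ j, h j * p j := by
    rintro ⟨μ, hμ⟩
    refine hSp p s hp (monomial μ 1) (3 * D) (isHomogeneous_monomial 1 hμ) ?_
    obtain ⟨l', hl'⟩ : ∃ l' : Fin 3, D ≤ μ l' := by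
      by_contra hc
      push Not at hc
      have h2 : μ.degree = μ 0 + μ 1 + μ 2 := by
        rw [Finsupp.degree_eq_sum, Fin.sum_univ_three]
      have := hc 0
      have := hc 1
      have := hc 2
      omega
    have h3 : monomial μ (1 : k) = monomial (μ - Finsupp.single l' D) 1 * X l' ^ D := by
      rw [X_pow_eq_monomial, monomial_mul, one_mul, tsub_add_cancel_of_le]
      exact Finsupp.single_le_iff.2 hl'
    rw [h3]
    exact Ideal.mul_mem_left _ _ (hD l')
  choose h hh hh' using h1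
  -- (2) the polynomials `G`
  set G : {μ : Fin 3 →₀ ℕ // μ.degree = 3 * D + s} → MvPolynomial (Fin 3) (RatFunc k) :=
    fun μ => ∑ j, map φ (h μ j) * P j with hG
  have hGh : ∀ μ, (G μ).IsHomogeneous (3 * D + s) := fun μ =>
    IsHomogeneous.sum _ _ _ fun j _ => ((hh μ j).map φ).mul (hP j)
  set B : Matrix {μ : Fin 3 →₀ ℕ // μ.degree = 3 * D + s}
      {μ : Fin 3 →₀ ℕ // μ.degree = 3 * D + s} (RatFunc k) :=
    fun μ ν => coeff ν.1 (G μ) with hB
  have hBs : ∀ μ ν, SpecializesTo (B μ ν) ((1 : Matrix {μ : Fin 3 →₀ ℕ // μ.degree = 3 * D + s}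
      {μ : Fin 3 →₀ ℕ // μ.degree = 3 * D + s} k) μ ν) := by
    intro μ ν
    have h2 : (1 : Matrix {μ : Fin 3 →₀ ℕ // μ.degree = 3 * D + s}
        {μ : Fin 3 →₀ ℕ // μ.degree = 3 * D + s} k) μ ν = coeff ν.1 (∑ j, h μ j * p j) := by
      rw [← hh' μ, coeff_monomial, Matrix.one_apply]
      simp only [Subtype.ext_iff]
    rw [h2]
    show SpecializesTo (coeff ν.1 (∑ j, map φ (h μ j) * P j)) _
    rw [coeff_sum, coeff_sum]
    refine sp_sum _ _ _ fun j _ => ?_
    rw [coeff_mul, coeff_mul]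
    refine sp_sum _ _ _ fun x _ => ?_
    rw [coeff_map]
    exact sp_mul (sp_c _) (hsp j x.2)
  have hdet : B.det ≠ 0 := by
    intro hc
    have h2 := sp_det B 1 hBs
    rw [hc, Matrix.det_one] at h2
    exact one_ne_zero (sp_z h2)
  have hunit : IsUnit B.det := isUnit_iff_ne_zero.2 hdet
  -- (3)
  have hdeg : (Finsupp.single l (3 * D + s)).degree = 3 * D + s := Finsupp.degree_single _ _
  set ν0 : {μ : Fin 3 →₀ ℕ // μ.degree = 3 * D + s} := ⟨Finsupp.single l (3 * D + s), hdeg⟩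
    with hν0
  set c : {μ : Fin 3 →₀ ℕ // μ.degree = 3 * D + s} → RatFunc k :=
    Matrix.vecMul (Pi.single ν0 1) B⁻¹ with hc
  have hcB : Matrix.vecMul c B = Pi.single ν0 1 := by
    rw [hc, Matrix.vecMul_vecMul, Matrix.nonsing_inv_mul B hunit, Matrix.vecMul_one]
  have hX : (X l : MvPolynomial (Fin 3) (RatFunc k)) ^ (3 * D + s) = ∑ μ, C (c μ) * G μ := by
    ext m
    rw [coeff_X_pow, coeff_sum]
    simp only [coeff_C_mul]
    by_cases hm : m.degree = 3 * D + s
    · have h2 : ∑ μ, c μ * coeff m (G μ) = Matrix.vecMul c B ⟨m, hm⟩ := rfl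
      rw [h2, hcB, Pi.single_apply]
      simp only [hν0, Subtype.mk.injEq]
      by_cases h3 : Finsupp.single l (3 * D + s) = m
      · rw [if_pos h3, if_pos h3.symm]
      · rw [if_neg h3, if_neg (Ne.symm h3)]
    · rw [if_neg, Finset.sum_eq_zero]
      · intro μ _
        rw [(hGh μ).coeff_eq_zero hm, mul_zero]
      · rintro rfl
        exact hm hdeg
  rw [hX]
  refine Ideal.sum_mem _ fun μ _ => Ideal.mul_mem_left _ _ ?_
  exact Ideal.sum_mem _ fun j _ => Ideal.mul_mem_left _ _ (Ideal.subset_span ⟨j, rfl⟩)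

end Pool.Agent.TSD
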