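import Pool.Agent.TSD.Defs

set_option autoImplicit false

namespace Pool.Agent.TSD

open MvPolynomial Finset

universe u v w

theorem lin_row {S : Type u} [CommRing S] {ι : Type v} [DecidableEq ι] [Fintype ι]
    (Z A : Matrix ι ι S) (a : ι) :
    (Z.updateRow a (A a)).det = ∑ b, A a b * Z.adjugate b a := by
  rw [← Matrix.cramer_transpose_apply, Matrix.cramer_eq_adjugate_mulVec, ← Matrix.adjugate_transpose]
  simp only [Matrix.mulVec, dotProduct, Matrix.transpose_apply]
  exact Finset.sum_congr rfl fun b _ => mul_comm _ _

/-- **Lin** (linear term of a determinant).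

PROOF. `Matrix.det` is multilinear in the rows (`Matrix.detRowAlternating.toMultilinearMap`, or
`Matrix.detRowAlternating`), `MultilinearMap.map_add_univ` gives
`(Z' + A').det = ∑ s : Finset ι, (s.piecewise A' Z').det` with `Z' = Z.map C`, `A' = X • A.map C` (order of the
summands as convenient).  The summand `s` is `X ^ #s * C (s.piecewise A Z).det` (`MultilinearMap.map_piecewise_smul`
or `Matrix.det_mul_column`/pull the factor out of every row of `s`; and `RingHom.map_det` for `Polynomial.C`).
Take the coefficient of `X ^ 1`: on the right `f`, on the left the sum over the `s` with one element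
(`Polynomial.coeff_X_pow_mul'`, `Polynomial.coeff_C`), i.e. `∑ a, (Z.updateRow a (A a)).det`
(`Finset.piecewise_singleton`, `Function.update`; the sum over `#s = 1`: `Finset.sum_powersetCard`-like,
`Finset.card_eq_one`; e.g. `Finset.sum_subset` from the image of `a ↦ {a}`).  Finally
`(Z.updateRow a (A a)).det = ∑ b, A a b * Z.adjugate b a`: `A a = ∑ b, A a b • Pi.single b 1`,
`Matrix.adjugate_apply`, linearity in the row `a` (e.g. `Matrix.cramer_transpose_apply`,
`Matrix.cramer` is linear; or `Matrix.mul_adjugate_apply_eq...`).
Alternative: the derivative of both sides at `0`: `Polynomial.derivative` of `∑ σ, sign σ * ∏ i, _`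
(`Polynomial.derivative_prod`), evaluated at `0`. -/
theorem lin {S : Type u} [CommRing S] {ι : Type v} [DecidableEq ι] [Fintype ι] (Z A : Matrix ι ι S)
    (f : S) (h : (Z.map Polynomial.C + (Polynomial.X : Polynomial S) • A.map Polynomial.C).det =
      Polynomial.X * Polynomial.C f) :
    f = ∑ a, ∑ b, A a b * Z.adjugate b a := by
  classical
  let Zp : ι → ι → Polynomial S := fun i j => Polynomial.C (Z i j)
  let Ap : ι → ι → Polynomial S := fun i j => Polynomial.C (A i j)
  let F : MultilinearMap (Polynomial S) (fun _ : ι => ι → Polynomial S) (Polynomial S) :=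
    (Matrix.detRowAlternating (n := ι) (R := Polynomial S)).toMultilinearMap
  have hF : ∀ M : ι → ι → Polynomial S, F M = Matrix.det (Matrix.of M) := fun M => rfl
  have h1 : (Z.map Polynomial.C + (Polynomial.X : Polynomial S) • A.map Polynomial.C).det =
      F ((fun i => (Polynomial.X : Polynomial S) • Ap i) + Zp) := by
    rw [hF]
    congr 1
    ext i j : 2
    simp [Zp, Ap, add_comm]
  have h2 : ∀ s : Finset ι, F (s.piecewise (fun i => (Polynomial.X : Polynomial S) • Ap i) Zp) =
      (Polynomial.X : Polynomial S) ^ s.card * Polynomial.C (Matrix.det (Matrix.of (s.piecewise A Z))) := by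
    intro s
    have e1 : s.piecewise (fun i => (Polynomial.X : Polynomial S) • Ap i) Zp =
        fun i => (if i ∈ s then (Polynomial.X : Polynomial S) else 1) • (s.piecewise Ap Zp) i := by
      funext i
      by_cases hi : i ∈ s
      · simp [hi]
      · simp [hi]
    rw [e1, MultilinearMap.map_smul_univ]
    have e2 : (∏ i, if i ∈ s then (Polynomial.X : Polynomial S) else 1) =
        (Polynomial.X : Polynomial S) ^ s.card := by
      rw [Finset.prod_ite_mem, Finset.univ_inter, Finset.prod_const]
    rw [e2, smul_eq_mul, hF, RingHom.map_det]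
    congr 2
    ext i j : 2
    by_cases hi : i ∈ s
    · simp [hi, Ap]
    · simp [hi, Zp]
  rw [h1, MultilinearMap.map_add_univ] at h
  have h3 := congrArg (fun P : Polynomial S => P.coeff 1) h
  simp only [Polynomial.finset_sum_coeff] at h3
  rw [Polynomial.coeff_X_mul, Polynomial.coeff_C_zero] at h3
  rw [← h3]
  have h4 : ∀ s : Finset ι, (F (s.piecewise (fun i => (Polynomial.X : Polynomial S) • Ap i) Zp)).coeff 1 =
      if s.card = 1 then Matrix.det (Matrix.of (s.piecewise A Z)) else 0 := by
    intro s
    rw [h2 s, Polynomial.coeff_mul_C, Polynomial.coeff_X_pow]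
    by_cases hs : s.card = 1
    · simp [hs]
    · have : ¬ (1 = s.card) := fun h => hs h.symm
      simp [hs, this]
  rw [Finset.sum_congr rfl fun s _ => h4 s, ← Finset.sum_filter, ← Finset.powerset_univ,
    ← Finset.powersetCard_eq_filter, Finset.powersetCard_one, Finset.sum_map]
  refine Finset.sum_congr rfl fun a _ => ?_
  rw [← lin_row]
  congr 1
  ext i j
  by_cases hi : i = a
  · subst hi
    simp [Matrix.updateRow_self]
  · simp [hi, Matrix.updateRow_ne hi]

end Pool.Agent.TSD
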