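import Pool.Agent.TSD.Defs

set_option autoImplicit false

namespace Pool.Agent.TSD

open MvPolynomial Finset

universe u v w

/-- **PEv1** (values of the permanent). -/
theorem per_ev {R : Type u} [CommRing R] {B : Type v} [CommRing B] [Algebra R B] {n : ℕ}
    (z : Fin (n + 1) → B) (Y : Fin n → Fin (n + 1) → B) :
    aeval (asg z Y) (perP R (n + 1)) = pr z Y := by
  simp only [perP, pr, Matrix.permanent, map_sum, map_prod, Matrix.of_apply, aeval_X, asg]

private theorem pm_apply {n : ℕ} (σ : Equiv.Perm (Fin n)) (i j : Fin n) :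
    (pm σ) (i, j) = if σ i = j then 1 else 0 := by
  classical
  rw [pm, Finsupp.finset_sum_apply]
  rw [Finset.sum_eq_single i]
  · simp [Finsupp.single_apply]
  · intro b _ hb
    rw [Finsupp.single_apply, if_neg]
    intro h
    exact hb (congrArg Prod.fst h)
  · intro h
    exact absurd (Finset.mem_univ i) h

private theorem pm_inj {n : ℕ} (σ τ : Equiv.Perm (Fin n)) (h : pm σ = pm τ) : σ = τ := by
  ext1 i
  have h1 := DFunLike.congr_fun h (i, τ i)
  rw [pm_apply, pm_apply, if_pos rfl] at h1
  by_contra hne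
  rw [if_neg hne] at h1
  exact absurd h1 (by norm_num)

/-- **PEv2** (coefficients of the permanent). -/
theorem per_co {R : Type u} [CommRing R] {n : ℕ} (σ : Equiv.Perm (Fin n)) :
    coeff (pm σ) (perP R n) = 1 := by
  classical
  have h1 : perP R n = ∑ τ : Equiv.Perm (Fin n), monomial (pm τ) (1 : R) := by
    rw [perP, ← Matrix.permanent_transpose]
    simp only [Matrix.permanent, Matrix.transpose_apply, Matrix.of_apply]
    refine Finset.sum_congr rfl fun τ _ => ?_
    rw [pm, monomial_sum_one]
    rfl
  rw [h1, coeff_sum, Finset.sum_eq_single σ]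
  · rw [coeff_monomial, if_pos rfl]
  · intro τ _ hτ
    rw [coeff_monomial, if_neg]
    intro h
    exact hτ (pm_inj _ _ h)
  · intro h
    exact absurd (Finset.mem_univ σ) h

/-- **PEv3**. -/
theorem pm_row {n : ℕ} (σ : Equiv.Perm (Fin n)) (i : Fin n) : ∑ j, (pm σ) (i, j) = 1 := by
  simp only [pm_apply]
  rw [Finset.sum_ite_eq]
  simp

end Pool.Agent.TSD
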