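import Pool.Agent.TSD.SpL

set_option autoImplicit false

namespace Pool.Agent.TSD

open MvPolynomial Finset
open Pool.Agent.H53.AC

universe u v w

private theorem spE_expand {R : Type u} [CommRing R] {σ : Type v} {τ : Type w} [Fintype σ]
    (f : MvPolynomial σ R) (g : σ → MvPolynomial τ R) (S : Finset (σ →₀ ℕ)) (hS : f.support ⊆ S) :
    aeval g f = ∑ μ ∈ S, C (coeff μ f) * ∏ p, g p ^ μ p := by
  rw [aeval_def, eval₂_eq']
  rw [← Finset.sum_subset hS]
  · rfl
  · intro μ _ hμ
    rw [notMem_support_iff.1 hμ, C_0, zero_mul]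

/-- **SpE** (values at polynomials over `k`). -/
theorem spE {k : Type u} [Field k] {σ : Type v} {τ : Type w} [Fintype σ]
    (F : MvPolynomial σ (RatFunc k)) (f : MvPolynomial σ k)
    (h : ∀ m, SpecializesTo (coeff m F) (coeff m f)) (x : σ → MvPolynomial τ k) (m : τ →₀ ℕ) :
    SpecializesTo (coeff m (aeval (fun p => MvPolynomial.map (algebraMap k (RatFunc k)) (x p)) F))
      (coeff m (aeval x f)) := by
  have hsub : f.support ⊆ F.support := by
    intro μ hμ
    rw [mem_support_iff] at hμ ⊢
    intro h0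
    apply hμ
    have := h μ
    rw [h0] at this
    exact sp_z this
  rw [spE_expand F _ F.support (Finset.Subset.refl _), spE_expand f x F.support hsub]
  rw [coeff_sum, coeff_sum]
  refine sp_sum _ _ _ fun μ _ => ?_
  have h1 : (∏ p, (MvPolynomial.map (algebraMap k (RatFunc k)) (x p)) ^ μ p) =
      MvPolynomial.map (algebraMap k (RatFunc k)) (∏ p, x p ^ μ p) := by
    rw [map_prod]
    simp only [map_pow]
  rw [h1, coeff_C_mul, coeff_C_mul, coeff_map]
  exact sp_mul (h μ) (sp_c _)

end Pool.Agent.TSD
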