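import Pool.Agent.TSD.Defs

set_option autoImplicit false

namespace Pool.Agent.TSD

open MvPolynomial Finset

universe u v w

/-- **Sqr1** (squares of independent factors are independent). -/
theorem sqr1 {L : Type u} [Field L] {n c : ℕ} (s : Fin n → L) (t : Fin c → L) (h : Indep s t) :
    Indep (fun i => s i ^ 2) (fun j => t j ^ 2) := by
  refine ⟨fun i => pow_ne_zero 2 (h.s_ne i), fun j => pow_ne_zero 2 (h.t_ne j), ?_⟩
  intro a b hab hrel
  have key := h.rel (fun i => 2 * a i) (fun j => 2 * b j)
    (by rw [← Finset.mul_sum, ← Finset.mul_sum, hab]) (by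
      rw [← hrel]
      congr 1
      · refine Finset.prod_congr rfl fun i _ => ?_
        rw [zpow_mul]; norm_cast
      · refine Finset.prod_congr rfl fun i _ => ?_
        rw [zpow_mul]; norm_cast)
  constructor
  · funext i
    have := congrFun key.1 i
    simp only [Pi.zero_apply] at this ⊢
    omega
  · funext j
    have := congrFun key.2 j
    simp only [Pi.zero_apply] at this ⊢
    omega

private theorem sqr_aux {L : Type u} [Field L] {n c N : ℕ} (κ : Fin n → Fin c) (s : Fin n → L)
    (t : Fin c → L) (P : Matrix (Fin N) (Fin N) L) :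
    (P.map (C : L →+* MvPolynomial (Fin n × Fin n) L)).map (rescale κ s t) = P.map C := by
  ext1 i j
  simp [rescale, algHom_C, algebraMap_eq]

/-- **Sqr2** (the transposed symmetry applied twice). -/
theorem sqr2 {L : Type u} [Field L] {n c N : ℕ} (κ : Fin n → Fin c) (s : Fin n → L)
    (t : Fin c → L) (M : Matrix (Fin N) (Fin N) (MvPolynomial (Fin n × Fin n) L))
    (P Q : Matrix (Fin N) (Fin N) L) (hP : IsUnit P.det) (hQ : IsUnit Q.det)
    (h : M.map (rescale κ s t) * Q.map C = P.map C * M.transpose) :
    ∃ P' Q' : Matrix (Fin N) (Fin N) L, IsUnit P'.det ∧ IsUnit Q'.det ∧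
      M.map (rescale κ (fun i => s i ^ 2) (fun j => t j ^ 2)) * Q'.map C = P'.map C * M := by
  have hcomp : ∀ f : MvPolynomial (Fin n × Fin n) L, rescale κ s t (rescale κ s t f) =
      rescale κ (fun i => s i ^ 2) (fun j => t j ^ 2) f := by
    intro f
    induction f using MvPolynomial.induction_on with
    | C a => simp [rescale, algHom_C, algebraMap_eq]
    | add p q hp hq => simp only [map_add, hp, hq]
    | mul_X p i hp =>
      simp only [map_mul, hp]
      congr 1
      simp only [rescale, aeval_X, map_mul, algHom_C, algebraMap_eq]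
      simp only [map_pow]
      ring
  -- second application
  have h2 := congrArg (fun A => A.map (rescale κ s t)) h
  simp only [Matrix.map_mul] at h2
  rw [sqr_aux, sqr_aux, Matrix.map_map] at h2
  have e1 : (⇑(rescale κ s t) ∘ ⇑(rescale κ s t) :
      MvPolynomial (Fin n × Fin n) L → MvPolynomial (Fin n × Fin n) L) =
      ⇑(rescale κ (fun i => s i ^ 2) (fun j => t j ^ 2)) := funext hcomp
  rw [e1] at h2
  -- transposed
  have h3 := congrArg Matrix.transpose h
  simp only [Matrix.transpose_mul, Matrix.transpose_transpose] at h3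
  have hQ' : IsUnit Q.transpose.det := by rwa [Matrix.det_transpose]
  have hP' : IsUnit P.transpose.det := by rwa [Matrix.det_transpose]
  have e2 : (Q.transpose⁻¹.map (C : L →+* MvPolynomial (Fin n × Fin n) L)) *
      (Q.map C).transpose = 1 := by
    rw [← Matrix.transpose_map, ← Matrix.map_mul, Matrix.nonsing_inv_mul _ hQ']
    ext1 i j
    simp [Matrix.one_apply, apply_ite]
  have e3 : ((P.map (C : L →+* MvPolynomial (Fin n × Fin n) L)).transpose) *
      (P.transpose⁻¹.map C) = 1 := by
    rw [← Matrix.transpose_map, ← Matrix.map_mul, Matrix.mul_nonsing_inv _ hP']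
    ext1 i j
    simp [Matrix.one_apply, apply_ite]
  have h4 : (M.map (rescale κ s t)).transpose =
      (Q.transpose⁻¹.map C) * (M * (P.map C).transpose) := by
    rw [← h3, ← Matrix.mul_assoc, e2, Matrix.one_mul]
  refine ⟨P * Q.transpose⁻¹, Q * P.transpose⁻¹, ?_, ?_, ?_⟩
  · rw [Matrix.det_mul]
    exact hP.mul ((Matrix.isUnit_nonsing_inv_det_iff).2 hQ')
  · rw [Matrix.det_mul]
    exact hQ.mul ((Matrix.isUnit_nonsing_inv_det_iff).2 hP')
  · rw [Matrix.map_mul, Matrix.map_mul, ← Matrix.mul_assoc, h2, Matrix.transpose_map, h4]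
    simp only [Matrix.mul_assoc]
    rw [e3, Matrix.mul_one]

end Pool.Agent.TSD
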