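import Pool.Agent.TSD.Defs

set_option autoImplicit false

namespace Pool.Agent.TSD

open MvPolynomial Finset

universe u v w

/-- **TfF** (the next family is full: radical argument).

PROOF. Let `𝔭` be a prime ideal containing `I`.  Claim: `X 0`, `X 1`, `X 2 ∈ 𝔭`.
* `X 0 ∈ 𝔭` by `h0` (`Ideal.IsPrime.mem_of_pow_mem`).
* `hdiag`: `X 1 ^ d * (C e * X 1 ^ a * X 2 ^ b) ∈ 𝔭` (subtract a multiple of `X 0`); `C e` is a unit, so
  `X 1 ∈ 𝔭` or `X 2 ∈ 𝔭`.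
* If `X 2 ∈ 𝔭`: by `hP` and `1 ≤ α`, `X 1 ^ d * P j ∈ 𝔭` for all `j`.  If `X 1 ∉ 𝔭` then all `P j ∈ 𝔭`, so
  `X 1 ^ D ∈ 𝔭` by `hD` and `X 1 ∈ 𝔭` anyway.
* If `X 1 ∈ 𝔭`: by `hP` for `i` and `1 ≤ d`, `X 2 ^ α * T i ∈ 𝔭`; if `X 2 ∉ 𝔭` then `T i ∈ 𝔭`, so
  `C t * X 2 ^ g ∈ 𝔭` by `hT`, so `X 2 ∈ 𝔭` anyway.
Hence `X l ∈ I.radical` for all `l` (`Ideal.radical_eq_sInf`, `Ideal.mem_radical_iff`): some `X l ^ (D l) ∈ I`;
take `D' = ∑ l, D l` (`Ideal.pow_mem_of_le`-like: `Ideal.mul_mem_left`, `pow_add`). -/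
theorem tfF {k : Type u} [Field k] {ι : Type v} (P T : ι → MvPolynomial (Fin 3) k)
    (I : Ideal (MvPolynomial (Fin 3) k)) (A d α D : ℕ) (hα : 1 ≤ α) (hd : 1 ≤ d)
    (h0 : (X 0 : MvPolynomial (Fin 3) k) ^ A ∈ I)
    (hP : ∀ j, X 1 ^ d * P j + X 2 ^ α * T j ∈ I)
    (hD : ∀ l : Fin 3, (X l : MvPolynomial (Fin 3) k) ^ D ∈ Ideal.span (Set.range P)) (e t : k)
    (he : e ≠ 0) (ht : t ≠ 0) (a b g : ℕ) (q : MvPolynomial (Fin 3) k)
    (hdiag : X 1 ^ d * (C e * X 1 ^ a * X 2 ^ b + X 0 * q) ∈ I) (i : ι)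
    (hT : ∃ y z, T i = C t * X 2 ^ g + X 0 * y + X 1 * z) :
    ∃ D' : ℕ, ∀ l : Fin 3, (X l : MvPolynomial (Fin 3) k) ^ D' ∈ I := by
  have key : ∀ l : Fin 3, (X l : MvPolynomial (Fin 3) k) ∈ I.radical := by
    intro l
    rw [Ideal.radical_eq_sInf, Submodule.mem_sInf]
    rintro (𝔭 : Ideal (MvPolynomial (Fin 3) k)) ⟨hI, hp⟩
    have x0 : X 0 ∈ 𝔭 := hp.mem_of_pow_mem _ (hI h0)
    have hC : ∀ c : k, c ≠ 0 → (C c : MvPolynomial (Fin 3) k) ∉ 𝔭 := by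
      intro c hc hm
      exact hp.ne_top (Ideal.eq_top_of_isUnit_mem _ hm ((isUnit_iff_ne_zero.mpr hc).map C))
    have h12 : X 1 ∈ 𝔭 ∨ X 2 ∈ 𝔭 := by
      have h1 : X 1 ^ d * (C e * X 1 ^ a * X 2 ^ b + X 0 * q) ∈ 𝔭 := hI hdiag
      have h2 : X 1 ^ d * (C e * X 1 ^ a * X 2 ^ b) ∈ 𝔭 := by
        have h3 : X 1 ^ d * (C e * X 1 ^ a * X 2 ^ b) =
            X 1 ^ d * (C e * X 1 ^ a * X 2 ^ b + X 0 * q) - X 1 ^ d * q * X 0 := by ring
        rw [h3]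
        exact 𝔭.sub_mem h1 (𝔭.mul_mem_left _ x0)
      rcases hp.mem_or_mem h2 with h3 | h3
      · exact Or.inl (hp.mem_of_pow_mem _ h3)
      · rcases hp.mem_or_mem h3 with h4 | h4
        · rcases hp.mem_or_mem h4 with h5 | h5
          · exact absurd h5 (hC e he)
          · exact Or.inl (hp.mem_of_pow_mem _ h5)
        · exact Or.inr (hp.mem_of_pow_mem _ h4)
    have x1 : X 1 ∈ 𝔭 := by
      rcases h12 with h | h
      · exact h
      · by_contra hn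
        have hPm : ∀ j, P j ∈ 𝔭 := by
          intro j
          have h1 := hI (hP j)
          have h2 : X 2 ^ α * T j ∈ 𝔭 := 𝔭.mul_mem_right _ (Ideal.pow_mem_of_mem _ h _ hα)
          have h3 : X 1 ^ d * P j ∈ 𝔭 := (Ideal.add_mem_iff_left _ h2).mp h1
          rcases hp.mem_or_mem h3 with h4 | h4
          · exact absurd (hp.mem_of_pow_mem _ h4) hn
          · exact h4
        have hle : Ideal.span (Set.range P) ≤ 𝔭 := by
          rw [Ideal.span_le]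
          rintro _ ⟨j, rfl⟩
          exact hPm j
        exact hn (hp.mem_of_pow_mem _ (hle (hD 1)))
    have x2 : X 2 ∈ 𝔭 := by
      by_contra hn
      have h1 := hI (hP i)
      have h2 : X 1 ^ d * P i ∈ 𝔭 := 𝔭.mul_mem_right _ (Ideal.pow_mem_of_mem _ x1 _ hd)
      have h3 : X 2 ^ α * T i ∈ 𝔭 := (Ideal.add_mem_iff_right _ h2).mp h1
      rcases hp.mem_or_mem h3 with h4 | h4
      · exact hn (hp.mem_of_pow_mem _ h4)
      · obtain ⟨y, z, hyz⟩ := hT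
        have h5 : C t * X 2 ^ g ∈ 𝔭 := by
          have h6 : C t * X 2 ^ g = T i - y * X 0 - z * X 1 := by
            rw [hyz]
            ring
          rw [h6]
          exact 𝔭.sub_mem (𝔭.sub_mem h4 (𝔭.mul_mem_left _ x0)) (𝔭.mul_mem_left _ x1)
        rcases hp.mem_or_mem h5 with h6 | h6
        · exact hC t ht h6
        · exact hn (hp.mem_of_pow_mem _ h6)
    fin_cases l
    · exact x0
    · exact x1
    · exact x2
  choose D hD using fun l => Ideal.mem_radical_iff.mp (key l)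
  refine ⟨∑ l, D l, fun l => ?_⟩
  obtain ⟨c, hc⟩ := Nat.exists_eq_add_of_le (Finset.single_le_sum
    (fun i _ => Nat.zero_le (D i)) (Finset.mem_univ l))
  rw [hc, pow_add]
  exact I.mul_mem_right _ (hD l)

end Pool.Agent.TSD
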