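import Pool.Agent.TSD.PrL

set_option autoImplicit false

namespace Pool.Agent.TSD

open MvPolynomial Finset

universe u v w

/-- **TfS** (choice of a pair of columns).

PROOF. Write `c j = pr (Pi.single j 1) y` and `B i j = pr (Pi.single i 1) (Fin.cons (Pi.single j 1) (Fin.tail y))`.
`B` is symmetric (`pr_swap`), `B k k = 0` (`pr_unit`), and for every vector `w`
`pr (Pi.single i 1) (Fin.cons w (Fin.tail y)) = ∑ j, w j * B i j` (`pr_swap`, `pr_lin`, `pr_swap`).  With
`w = y 0` (`Fin.cons_self_tail`): `c i = ∑ j, y 0 j * B i j`.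
Let `c k ≠ 0` and suppose that the claim fails; then for this `k` and all `i`, `j`:
`c k * B i j - c j * B i k = 0`.  For `i = k`: `c k * B k j = c j * B k k = 0`, so `B k j = 0` for all `j`, and by
symmetry `B i k = 0` for all `i`; then `c k * B i j = 0`, so `B = 0` and `c k = 0`, a contradiction. -/
theorem tfS {F : Type u} [Field F] {m : ℕ} (y : Fin (m + 1) → Fin (m + 2) → F)
    (h : ∃ k, pr (Pi.single k 1) y ≠ 0) :
    ∃ j k i, pr (Pi.single i 1) (Fin.cons
      (fun q => pr (Pi.single k 1) y * (Pi.single j 1 : Fin (m + 2) → F) q -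
        pr (Pi.single j 1) y * (Pi.single k 1 : Fin (m + 2) → F) q) (Fin.tail y)) ≠ 0 := by
  have hsym : ∀ i j : Fin (m + 2), pr (Pi.single i (1 : F)) (Fin.cons (Pi.single j 1) (Fin.tail y)) =
      pr (Pi.single j 1) (Fin.cons (Pi.single i 1) (Fin.tail y)) := fun i j => pr_swap _ _ _
  have hlin : ∀ (i : Fin (m + 2)) (w : Fin (m + 2) → F),
      pr (Pi.single i 1) (Fin.cons w (Fin.tail y)) =
        ∑ j, w j * pr (Pi.single i 1) (Fin.cons (Pi.single j 1) (Fin.tail y)) := by
    intro i w
    rw [pr_swap, pr_lin]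
    exact Finset.sum_congr rfl fun j _ => by rw [hsym]
  by_contra hn
  push Not at hn
  obtain ⟨k, hk⟩ := h
  have hrel : ∀ j i : Fin (m + 2), pr (Pi.single k 1) y *
      pr (Pi.single i 1) (Fin.cons (Pi.single j 1) (Fin.tail y)) - pr (Pi.single j 1) y *
      pr (Pi.single i 1) (Fin.cons (Pi.single k 1) (Fin.tail y)) = 0 := by
    intro j i
    have h2 := hlin i (fun q => pr (Pi.single k 1) y * (Pi.single j 1 : Fin (m + 2) → F) q -
      pr (Pi.single j 1) y * (Pi.single k 1 : Fin (m + 2) → F) q)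
    rw [hn j k i] at h2
    simp only [sub_mul, Finset.sum_sub_distrib, mul_assoc, ← Finset.mul_sum] at h2
    simp only [Pi.single_apply, ite_mul, one_mul, zero_mul, Finset.sum_ite_eq', Finset.mem_univ,
      if_true] at h2
    exact h2.symm
  have h1 : ∀ j, pr (Pi.single k (1 : F)) (Fin.cons (Pi.single j 1) (Fin.tail y)) = 0 := by
    intro j
    have h2 := hrel j k
    rw [pr_unit, mul_zero, sub_zero] at h2
    exact (mul_eq_zero.mp h2).resolve_left hk
  refine hk ?_
  have h3 : pr (Pi.single k 1) y = pr (Pi.single k 1) (Fin.cons (y 0) (Fin.tail y)) := by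
    rw [Fin.cons_self_tail]
  rw [h3, hlin]
  exact Finset.sum_eq_zero fun j _ => by rw [h1, mul_zero]

end Pool.Agent.TSD
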