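import Pool.Agent.TSD.Nxt
import Pool.Agent.TSD.HSp
import Pool.Agent.TSD.TfS
import Pool.Agent.TSD.TfF

set_option autoImplicit false

namespace Pool.Agent.TSD

open MvPolynomial Finset

universe u v w

/-- **TfN** (induction step of the test families).

PROOF. Let `s = ∑ i, α i`, `P j = pr (Pi.single j 1) Y`, homogeneous of degree `s` (`pr_hom` with `β = 0`;
`Pi.single j 1` has entries `0`, `1`, homogeneous of degree `0`).  `D` from `full`; `X 0 ^ (D + s) ∈ span (range P)`
and `hSp` with `E = D`: `X 0 ^ (D + s) = ∑ j, h j * P j`, `h j` homogeneous of degree `D`.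
Evaluation at `(0, 0, 1)`: `y i j = eval ![0, 0, 1] (Y i j)`; `pr (Pi.single j 1) y = eval ![0, 0, 1] (P j)`
(`pr_map`).  Some of these is nonzero, since `X 2 ^ D ∈ span (range P)` has the value `1` at `(0, 0, 1)`.
`tfS` gives `j`, `k`, `i`.
Put `E' = D + s` (so `X 0 ^ E'` is the above power), and
`b q = X 0 ^ (1 + 2 * s) * h q + X 2 ^ (1 + E') * (P k * (Pi.single j 1) q - P j * (Pi.single k 1) q)`,
homogeneous of degree `d := 1 + E' + s` (first part: `1 + 2 s + D = 1 + E' + s`; second: `1 + E' + s`).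
New family: `α' = Fin.cons (α 0) (Fin.cons d (fun i : Fin m => α i.succ))`,
`Y' = nxt (X 2 ^ α 0) (X 1 ^ d) b Y`.
`pos`, `hom`: by `Fin.cases` (`0` is homogeneous of every degree).
By `nxt_pr` with `c = X 2 ^ α 0`, `d = X 1 ^ d`:
(1) `P'_0 := pr (Pi.single 0 1) Y' = ∑ q, b q * P q = X 0 ^ (1 + 2 * s) * X 0 ^ E' + X 2 ^ (1 + E') * (P k * P j - P j * P k) =
X 0 ^ (1 + 2 * s + E')`.
(2) `P'_(q+1) = X 1 ^ d * P q + X 2 ^ α 0 * T q`, `T q = pr (Pi.single q 1) (Fin.cons b (Fin.tail Y))`.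
(3) `pr (Y' 0) Y' = X 1 ^ d * pr (Y 0) Y + 2 * X 2 ^ α 0 * P'_0`.
`diag`: with `pr (Y 0) Y = C e * X 1 ^ a * X 2 ^ b + X 0 * q` from `diag` for `Y`, (3) gives the same `e`, the
exponents `a + d`, `b`, and `q' = X 1 ^ d * q + 2 * X 2 ^ α 0 * X 0 ^ (2 * s + E')`.
`full`: `tfF` with `I` the span of the `P'`, `A = 1 + 2 * s + E'`, `α = α 0`; `h0` by (1); `hP` by (2);
`hdiag`: `X 1 ^ d * pr (Y 0) Y = pr (Y' 0) Y' - 2 * X 2 ^ α 0 * P'_0 ∈ I`, where
`pr (Y' 0) Y' = ∑ j, Y' 0 j * P'_j ∈ I` by `pr_lin`; `hT`: `T i` is homogeneous (of degree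
`g = d + ∑ i : Fin m, α i.succ`: `pr_hom` with the row degrees `Fin.cons d (fun i => α i.succ)`), so `hRs` gives
the form with `t = eval ![0, 0, 1] (T i)`, and by `pr_map` this is
`pr (Pi.single i 1) (Fin.cons (b at (0, 0, 1)) (Fin.tail y))` with `b q` at `(0, 0, 1)` equal to
`0 + 1 * (pr (Pi.single k 1) y * [j = q] - pr (Pi.single j 1) y * [k = q])` (as `1 + 2 s ≥ 1` and `X 0 = 0` there),
which is nonzero by the choice of `j`, `k`, `i`. -/
theorem tfN {k : Type u} [Field k] {m : ℕ} (α : Fin (m + 1) → ℕ)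
    (Y : Fin (m + 1) → Fin (m + 2) → MvPolynomial (Fin 3) k) (h : Good k m α Y) :
    ∃ (α' : Fin (m + 2) → ℕ) (Y' : Fin (m + 2) → Fin (m + 3) → MvPolynomial (Fin 3) k),
      Good k (m + 1) α' Y' := by
  classical
  obtain ⟨D, hD⟩ := h.full
  obtain ⟨e, a, bb, q, he, hdiag⟩ := h.diag
  obtain ⟨s, hs⟩ : ∃ s : ℕ, s = ∑ i, α i := ⟨_, rfl⟩
  obtain ⟨P, hP⟩ : ∃ P : Fin (m + 2) → MvPolynomial (Fin 3) k,
    P = fun j => pr (Pi.single j 1) Y := ⟨_, rfl⟩
  have hPj : ∀ j, pr (Pi.single j 1) Y = P j := fun j => by rw [hP]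
  rw [← hP] at hD
  have hPhom : ∀ j, (P j).IsHomogeneous s := by
    intro j
    have h1 := pr_hom (Pi.single j (1 : MvPolynomial (Fin 3) k)) Y 0 α (fun j' => by
      by_cases hj : j' = j
      · subst hj
        rw [Pi.single_eq_same]
        exact isHomogeneous_one _ _
      · rw [Pi.single_eq_of_ne hj]
        exact isHomogeneous_zero _ _ _) h.hom
    rw [zero_add, ← hs, hPj] at h1
    exact h1
  have hX0 : (X 0 : MvPolynomial (Fin 3) k) ^ (D + s) ∈ Ideal.span (Set.range P) := by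
    rw [pow_add]
    exact Ideal.mul_mem_right _ _ (hD 0)
  obtain ⟨hh, hhom, hsum⟩ := hSp P s hPhom (X 0 ^ (D + s)) D (isHomogeneous_X_pow _ _) hX0
  obtain ⟨y, hy⟩ : ∃ y : Fin (m + 1) → Fin (m + 2) → k, y = fun i j => eval ![0, 0, 1] (Y i j) :=
    ⟨_, rfl⟩
  have hev : ∀ (j : Fin (m + 2)) (Z : Fin (m + 1) → Fin (m + 2) → MvPolynomial (Fin 3) k),
      eval ![0, 0, 1] (pr (Pi.single j 1) Z) =
        pr (Pi.single j 1) (fun i j => eval ![0, 0, 1] (Z i j)) := by
    intro j Z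
    rw [pr_map]
    congr 1
    funext j'
    by_cases hj : j' = j
    · subst hj
      simp
    · simp [Pi.single_eq_of_ne hj]
  have hyP : ∀ j, pr (Pi.single j 1) y = eval ![0, 0, 1] (P j) := by
    intro j
    rw [← hPj, hev, hy]
  have hne : ∃ k', pr (Pi.single k' 1) y ≠ 0 := by
    by_contra hcon
    push Not at hcon
    have h1 : (X 2 : MvPolynomial (Fin 3) k) ^ D ∈ RingHom.ker (eval (![0, 0, 1] : Fin 3 → k)) := by
      refine (Ideal.span_le.2 ?_) (hD 2)
      rintro _ ⟨j, rfl⟩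
      rw [SetLike.mem_coe, RingHom.mem_ker, ← hyP]
      exact hcon j
    rw [RingHom.mem_ker] at h1
    simp at h1
  obtain ⟨j, k', i, hjk⟩ := tfS y hne
  obtain ⟨E', hE'⟩ : ∃ E' : ℕ, E' = D + s := ⟨_, rfl⟩
  obtain ⟨d, hd⟩ : ∃ d : ℕ, d = 1 + E' + s := ⟨_, rfl⟩
  obtain ⟨b, hb⟩ : ∃ b : Fin (m + 2) → MvPolynomial (Fin 3) k, b = fun q =>
    X 0 ^ (1 + 2 * s) * hh q + X 2 ^ (1 + E') * (P k' * (Pi.single j 1 : Fin (m + 2) → _) q -
      P j * (Pi.single k' 1 : Fin (m + 2) → _) q) := ⟨_, rfl⟩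
  have hsing : ∀ (j q : Fin (m + 2)), ((Pi.single j 1 : Fin (m + 2) → MvPolynomial (Fin 3) k)
      q).IsHomogeneous 0 := by
    intro j q
    by_cases hj : q = j
    · subst hj
      rw [Pi.single_eq_same]
      exact isHomogeneous_one _ _
    · rw [Pi.single_eq_of_ne hj]
      exact isHomogeneous_zero _ _ _
  have hbhom : ∀ q, (b q).IsHomogeneous d := by
    intro q
    rw [hb]
    refine IsHomogeneous.add ?_ ?_
    · have h1 := (isHomogeneous_X_pow (R := k) (0 : Fin 3) (1 + 2 * s)).mul (hhom q)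
      rw [show 1 + 2 * s + D = d by omega] at h1
      exact h1
    · have h1 := ((hPhom k').mul (hsing j q)).sub ((hPhom j).mul (hsing k' q))
      have h2 := (isHomogeneous_X_pow (R := k) (2 : Fin 3) (1 + E')).mul h1
      rw [show 1 + E' + (s + 0) = d by omega] at h2
      exact h2
  obtain ⟨n1, n2, n3⟩ := nxt_pr (X 2 ^ α 0) (X 1 ^ d) b Y
  have hbP : ∑ q, b q * pr (Pi.single q 1) Y = X 0 ^ (1 + 2 * s + E') := by
    have h1 : ∀ q, b q * pr (Pi.single q 1) Y = X 0 ^ (1 + 2 * s) * (hh q * P q) +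
        X 2 ^ (1 + E') * (P k' * ((Pi.single j 1 : Fin (m + 2) → MvPolynomial (Fin 3) k) q * P q) -
          P j * ((Pi.single k' 1 : Fin (m + 2) → MvPolynomial (Fin 3) k) q * P q)) := by
      intro q
      rw [hPj, hb]
      ring
    simp_rw [h1]
    rw [Finset.sum_add_distrib, ← Finset.mul_sum, ← Finset.mul_sum, Finset.sum_sub_distrib,
      ← Finset.mul_sum, ← Finset.mul_sum, ← hsum]
    have h2 : ∀ j : Fin (m + 2),
        ∑ q, (Pi.single j 1 : Fin (m + 2) → MvPolynomial (Fin 3) k) q * P q = P j := by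
      intro j
      rw [Finset.sum_eq_single j]
      · simp
      · intro q _ hq
        rw [Pi.single_eq_of_ne hq, zero_mul]
      · simp
    rw [h2, h2, hE']
    ring
  rw [hbP] at n1 n3
  obtain ⟨Y', hY'⟩ : ∃ Y', Y' = nxt (X 2 ^ α 0) (X 1 ^ d) b Y := ⟨_, rfl⟩
  rw [← hY'] at n1 n3
  simp_rw [← hY', hPj] at n2
  obtain ⟨α', hα'⟩ : ∃ α' : Fin (m + 2) → ℕ,
    α' = Fin.cons (α 0) (Fin.cons d (fun i : Fin m => α i.succ)) := ⟨_, rfl⟩
  obtain ⟨I, hI⟩ : ∃ I, I = Ideal.span (Set.range fun j => pr (Pi.single j 1) Y') := ⟨_, rfl⟩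
  have hmemI : ∀ j, pr (Pi.single j 1) Y' ∈ I := fun j => hI ▸ Ideal.subset_span ⟨j, rfl⟩
  refine ⟨α', Y', ?_, ?_, ?_, ?_⟩
  · rw [hα']
    refine Fin.cases (h.pos 0) (Fin.cases ?_ ?_)
    · simp only [Fin.cons_succ, Fin.cons_zero]
      omega
    · intro i
      simp only [Fin.cons_succ]
      exact h.pos _
  · rw [hα', hY']
    unfold nxt
    refine Fin.cases ?_ (Fin.cases ?_ ?_)
    · refine Fin.cases ?_ ?_
      · simp only [Fin.cons_zero]
        exact isHomogeneous_X_pow _ _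
      · intro q
        simp only [Fin.cons_succ, Fin.cons_zero]
        exact h.hom 0 q
    · refine Fin.cases ?_ ?_
      · simp only [Fin.cons_zero, Fin.cons_succ]
        exact isHomogeneous_X_pow _ _
      · intro q
        simp only [Fin.cons_succ, Fin.cons_zero]
        exact hbhom q
    · intro i
      refine Fin.cases ?_ ?_
      · simp only [Fin.cons_zero, Fin.cons_succ]
        exact isHomogeneous_zero _ _ _
      · intro q
        simp only [Fin.cons_succ]
        exact h.hom _ q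
  · rw [← hI]
    refine tfF P (fun q => pr (Pi.single q 1) (Fin.cons b (Fin.tail Y))) I (1 + 2 * s + E') d (α 0)
      D (h.pos 0) (by omega) ?_ ?_ hD e (eval ![0, 0, 1] (pr (Pi.single i 1)
        (Fin.cons b (Fin.tail Y)))) he ?_ a bb (d + ∑ i : Fin m, α i.succ) q ?_ i ?_
    · rw [← n1]
      exact hmemI 0
    · intro q
      rw [← n2]
      exact hmemI _
    · rw [hev]
      have h1 : (fun i' j' => eval (![0, 0, 1] : Fin 3 → k)
          ((Fin.cons b (Fin.tail Y) : Fin (m + 1) → Fin (m + 2) → _) i' j')) =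
          Fin.cons (fun q => pr (Pi.single k' 1) y * (Pi.single j 1 : Fin (m + 2) → k) q -
            pr (Pi.single j 1) y * (Pi.single k' 1 : Fin (m + 2) → k) q) (Fin.tail y) := by
        funext i'
        refine Fin.cases ?_ ?_ i'
        · funext q
          simp only [Fin.cons_zero]
          rw [hb, hyP, hyP]
          simp only [map_add, map_mul, map_pow, map_sub, eval_X]
          have h2 : ∀ j q : Fin (m + 2), eval (![0, 0, 1] : Fin 3 → k)
              ((Pi.single j 1 : Fin (m + 2) → MvPolynomial (Fin 3) k) q) =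
              (Pi.single j 1 : Fin (m + 2) → k) q := by
            intro j q
            by_cases hj : q = j
            · subst hj
              simp
            · simp [Pi.single_eq_of_ne hj]
          rw [h2, h2]
          simp
        · intro i''
          simp only [Fin.cons_succ, hy]
          rfl
      rw [h1]
      exact hjk
    · rw [← hdiag]
      have h1 : X 1 ^ d * pr (Y 0) Y = pr (Y' 0) Y' - 2 * X 2 ^ α 0 * pr (Pi.single 0 1) Y' := by
        rw [n3, n1]
        ring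
      rw [h1]
      refine Ideal.sub_mem _ ?_ (Ideal.mul_mem_left _ _ (hmemI 0))
      rw [pr_lin]
      exact Ideal.sum_mem _ fun j _ => Ideal.mul_mem_left _ _ (hmemI j)
    · refine hRs _ _ ?_
      have h1 := pr_hom (Pi.single i (1 : MvPolynomial (Fin 3) k)) (Fin.cons b (Fin.tail Y)) 0
        (Fin.cons d (fun i : Fin m => α i.succ)) (hsing i) (by
          refine Fin.cases ?_ ?_
          · simp only [Fin.cons_zero]
            exact hbhom
          · intro i'
            simp only [Fin.cons_succ]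
            exact h.hom _)
      rw [zero_add, Fin.sum_univ_succ] at h1
      simpa only [Fin.cons_zero, Fin.cons_succ] using h1
  · refine ⟨e, a + d, bb, X 1 ^ d * q + 2 * X 2 ^ α 0 * X 0 ^ (2 * s + E'), he, ?_⟩
    rw [n3, hdiag]
    ring

end Pool.Agent.TSD
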