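import Pool.Agent.TSD.TfB
import Pool.Agent.TSD.TfN

set_option autoImplicit false

namespace Pool.Agent.TSD

open MvPolynomial Finset

universe u v w

/-- **Tf** (test families). -/
theorem tf {k : Type u} [Field k] (h2 : (2 : k) ≠ 0) (m : ℕ) :
    ∃ (α : Fin (m + 2) → ℕ) (Y : Fin (m + 2) → Fin (m + 3) → MvPolynomial (Fin 3) k),
      Good k (m + 1) α Y := by
  induction m with
  | zero => exact tfB h2
  | succ m ih =>
    obtain ⟨α, Y, h⟩ := ih
    exact tfN α Y h

end Pool.Agent.TSD
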