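import Pool.Agent.TSD.MainF
import Pool.Agent.TSD.Tf
import Pool.Agent.TSD.SpE
import Pool.Agent.TSD.Lft
import Pool.Agent.TSD.HEv
import Pool.Agent.TSD.PEv
import Pool.Agent.TSD.Sqr
import Pool.Agent.TSD.Bc

set_option autoImplicit false

namespace Pool.Agent.TSD

open MvPolynomial Finset
open Pool.Agent.H53.AC

universe u v w

theorem asg_map {R : Type u} {R' : Type v} {n : ℕ} (φ : R → R') (z : Fin (n + 1) → R)
    (Y : Fin n → Fin (n + 1) → R) :
    (fun p => φ (asg z Y p)) = asg (fun j => φ (z j)) (fun i j => φ (Y i j)) := by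
  funext p
  obtain ⟨i, j⟩ := p
  refine Fin.cases ?_ ?_ i
  · rfl
  · intro i
    rfl

theorem single_map {R : Type u} {R' : Type v} [CommRing R] [CommRing R'] (φ : R →+* R') {n : ℕ}
    (j : Fin n) : (fun q => φ ((Pi.single j 1 : Fin n → R) q)) = (Pi.single j 1 : Fin n → R') := by
  funext q
  rw [Pi.single_apply, Pi.single_apply]
  split_ifs
  · exact map_one φ
  · exact map_zero φ

theorem hom_zero {R : Type u} [CommRing R] {τ : Type v} {n : ℕ} (i j : Fin n) :
    ((Pi.single j 1 : Fin n → MvPolynomial τ R) i).IsHomogeneous 0 := by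
  rw [Pi.single_apply]
  split_ifs
  · exact isHomogeneous_one _ _
  · exact isHomogeneous_zero _ _ _

theorem coeff_zero_of_hom {R : Type u} [CommRing R] {τ : Type v} {f : MvPolynomial τ R} {α : ℕ}
    (h : f.IsHomogeneous α) (hα : 1 ≤ α) : constantCoeff f = 0 := by
  by_contra h0
  rw [constantCoeff_eq] at h0
  have := h h0
  simp at this
  omega

/-- The main bound. -/
theorem main {k : Type u} [Field k] (h2 : (2 : k) ≠ 0) {n c N : ℕ} (hn : 3 ≤ n)
    (κ : Fin n → Fin c) (M : Matrix (Fin N) (Fin N) (MvPolynomial (Fin n × Fin n) (RatFunc k)))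
    (hB : BorderRep k M) (hR : RescaleSymmetric κ M) :
    1 + ∑ m ∈ Ico 1 n, n.choose m / W κ m ≤ N := by
  obtain ⟨m, rfl⟩ : ∃ m, n = m + 2 + 1 := ⟨n - 3, by omega⟩
  obtain ⟨hdeg, hsp⟩ := hB
  obtain ⟨L, _, _, s, t, P, Q, hst, hP, hQ, hsym⟩ := hR
  -- plain symmetry over `L`
  obtain ⟨s1, t1, P1, Q1, hst1, hP1, hQ1, hsym1⟩ : ∃ (s1 : Fin (m + 2 + 1) → L) (t1 : Fin c → L)
      (P1 Q1 : Matrix (Fin N) (Fin N) L), Indep s1 t1 ∧ IsUnit P1.det ∧ IsUnit Q1.det ∧
      (M.map (MvPolynomial.map (algebraMap (RatFunc k) L))).map (rescale κ s1 t1) * Q1.map C =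
        P1.map C * M.map (MvPolynomial.map (algebraMap (RatFunc k) L)) := by
    rcases hsym with h | h
    · exact ⟨s, t, P, Q, hst, hP, hQ, h⟩
    · obtain ⟨P', Q', hP', hQ', h'⟩ := sqr2 κ s t _ P Q hP hQ h
      exact ⟨_, _, P', Q', sqr1 s t hst, hP', hQ', h'⟩
  -- base change to an algebraically closed field
  set F := AlgebraicClosure L with hF
  set φ : RatFunc k →+* F := (algebraMap L F).comp (algebraMap (RatFunc k) L) with hφ
  have hinj : Function.Injective φ := φ.injective
  set MF : Matrix (Fin N) (Fin N) (MvPolynomial (Fin (m + 2 + 1) × Fin (m + 2 + 1)) F) :=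
    M.map (MvPolynomial.map φ) with hMF
  have hMF' : (M.map (MvPolynomial.map (algebraMap (RatFunc k) L))).map
      (MvPolynomial.map (algebraMap L F)) = MF := by
    rw [hMF, Matrix.map_map]
    congr 1
    funext x
    exact MvPolynomial.map_map _ _ x
  have hst2 := bc_indep (algebraMap L F) s1 t1 hst1
  have hsym2 := bc_sym (algebraMap L F) κ s1 t1 _ P1 Q1 hsym1
  rw [hMF'] at hsym2
  have hPF : IsUnit (P1.map (algebraMap L F)).det := by
    have := RingHom.map_det (algebraMap L F) P1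
    rw [RingHom.mapMatrix_apply] at this
    rw [← this]
    exact hP1.map _
  have hQF : IsUnit (Q1.map (algebraMap L F)).det := by
    have := RingHom.map_det (algebraMap L F) Q1
    rw [RingHom.mapMatrix_apply] at this
    rw [← this]
    exact hQ1.map _
  have hdetF : MF.det = MvPolynomial.map φ M.det := by
    have := RingHom.map_det (MvPolynomial.map φ) M
    rw [RingHom.mapMatrix_apply] at this
    rw [this]
  have hcoF : ∀ μ, coeff μ MF.det = φ (coeff μ M.det) := by
    intro μ
    rw [hdetF, coeff_map]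
  have hco : ∀ σ : Equiv.Perm (Fin (m + 2 + 1)), coeff (pm σ) MF.det ≠ 0 := by
    intro σ h0
    rw [hcoF, map_eq_zero] at h0
    have h1 := hsp (pm σ)
    rw [h0, per_co σ] at h1
    exact one_ne_zero (sp_z h1)
  have hrowF := rowDeg κ _ _ hst2 MF.det _ _ hPF.ne_zero hQF.ne_zero
    (symDet κ _ _ MF _ _ hsym2) (hco 1)
  have hrowK : ∀ μ, coeff μ M.det ≠ 0 → ∀ i, ∑ j, μ (i, j) = 1 := by
    intro μ hμ i
    apply hrowF μ _ i
    rw [hcoF, Ne, map_eq_zero]
    exact hμ
  -- the test family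
  obtain ⟨α, Y, hY⟩ := tf h2 m
  set ψ : k →+* RatFunc k := algebraMap k (RatFunc k) with hψ
  set YK : Fin (m + 2) → Fin (m + 3) → MvPolynomial (Fin 3) (RatFunc k) :=
    fun i j => MvPolynomial.map ψ (Y i j) with hYK
  obtain ⟨D, hD⟩ := hY.full
  obtain ⟨E, hE⟩ := lft (fun j : Fin (m + 3) => pr (Pi.single j 1) Y)
    (fun j => aeval (asg (Pi.single j 1) YK) M.det) (0 + ∑ i, α i)
    (fun j => pr_hom _ _ 0 α (fun i => hom_zero i j) hY.hom)
    (fun j => by
      rw [zero_add]
      exact hEv M.det hrowK α _ _ (fun i => hom_zero i j)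
        (fun i j => (hY.hom i j).map _))
    (fun j μ => by
      have h1 := spE M.det (perP k (m + 2 + 1)) hsp (asg (Pi.single j 1) Y) μ
      rw [per_ev, asg_map, single_map] at h1
      exact h1) D hD
  -- conclusion
  refine mainF κ _ _ hst2 MF ?_ _ _ hPF hQF hsym2 hco
    (fun i j => MvPolynomial.map φ (YK i j)) ?_ E ?_
  · intro a b
    refine le_trans ?_ (hdeg a b)
    exact Finset.sup_mono (support_map_subset _ _)
  · intro i j
    exact coeff_zero_of_hom (((hY.hom i j).map _).map _) (hY.pos i)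
  · intro l
    have h1 := bc_span (MvPolynomial.map φ) _ _ (hE l)
    rw [map_pow, map_X] at h1
    have h3 : (fun j : Fin (m + 3) => MvPolynomial.map φ
        (aeval (asg (Pi.single j 1) YK) M.det)) = fun j =>
        aeval (asg (Pi.single j 1) fun i j => MvPolynomial.map φ (YK i j)) MF.det := by
      funext j
      rw [bc_ev, hdetF, single_map]
    rw [h3] at h1
    exact h1

end Pool.Agent.TSD
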