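import Pool.Agent.TSD.InvG
import Pool.Agent.TSD.Aff

set_option autoImplicit false

namespace Pool.Agent.TSD

open MvPolynomial Finset

universe u v w

private theorem Norm_upd {F : Type u} [Field F] {N : ℕ} (b0 : Fin N) (z : Fin N → F) :
    ((1 : Matrix (Fin N) (Fin N) F).updateCol b0 z).det = z b0 := by
  rw [← Matrix.cramer_apply, Matrix.cramer_one]
  rfl

/-- **Norm** (normal form: constants only on the diagonal).

PROOF. Let `Λ = cm M none`, and `a0`, `b0` with `Λ.adjugate b0 a0 ≠ 0`.
(1) `Λ' = Λ.updateCol b0 (Pi.single a0 1)`, `Λ'.det = Λ.adjugate b0 a0 ≠ 0` (`Matrix.cramer_eq_adjugate_mulVec`,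
`Matrix.cramer_apply`, `Matrix.mulVec_single_one`).  With `v' = Function.update v b0 (w a0)`: `Λ' a b ≠ 0` implies
`w a = v' b` (`hg none`, `hχ`), so by `invG` `Λ'⁻¹ b a ≠ 0` implies `v' b = w a`.
(2) `Λ'⁻¹ * Λ` has the columns `Pi.single b 1` for `b ≠ b0` (there `Λ` and `Λ'` agree) and the column
`z i = (Λ'⁻¹ * Λ) i b0` at `b0`; its determinant is `z b0` (it is `(1 : Matrix).updateCol b0 z`; `Matrix.det_one`,
`Matrix.cramer_one`: `cramer 1 = id`), and it is `0` since `Λ.det = 0`.  So `z b0 = 0`.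
(3) `V = (1 : Matrix _ _ F).updateCol b0 (fun i => (if i = b0 then 1 else 0) - z i)`; `V.det = 1 - z b0 = 1` (same
`cramer` computation).  `M' = (Λ'⁻¹).map C * M * V.map C`.  By `Aff`: `M'.det = C (Λ'⁻¹.det * V.det) * M.det`
(`cst = Λ'⁻¹.det ≠ 0`), degrees at most one, `cm M' o = Λ'⁻¹ * cm M o * V`.
(4) `cm M' none = (Λ'⁻¹ * Λ) * V`: column `b ≠ b0`: `Pi.single b 1`; column `b0`: `z - ∑ i, (column i) * z i =
z - ∑ i ≠ b0, z i • Pi.single i 1 = 0` (as `z b0 = 0`).
(5) Grading: if `cm M' o a b ≠ 0` there are `i`, `j` with `Λ'⁻¹ a i ≠ 0`, `cm M o i j ≠ 0`, `V j b ≠ 0`, so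
`v' a = w i = χ o * v j`.  If `j ≠ b`, then `b = b0`, `j ≠ b0` and `z j ≠ 0`, so for some `i'`
`Λ'⁻¹ j i' ≠ 0` and `Λ i' b0 ≠ 0`: `v j = v' j = w i' = v b0 = v b`.  And `v' a = if a = b0 then w a0 else v a`;
`w' = w a0`. -/
theorem norm {F : Type u} [Field F] {σ : Type v} {N : ℕ}
    (M : Matrix (Fin N) (Fin N) (MvPolynomial σ F)) (hM : ∀ a b, (M a b).totalDegree ≤ 1)
    (χ : Option σ → F) (hχ : χ none = 1) (w v : Fin N → F) (hw : ∀ a, w a ≠ 0)
    (hg : ∀ o a b, cm M o a b ≠ 0 → w a = χ o * v b) (hdet : (cm M none).det = 0)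
    (hadj : (cm M none).adjugate ≠ 0) :
    ∃ (M' : Matrix (Fin N) (Fin N) (MvPolynomial σ F)) (b0 : Fin N) (w' cst : F), cst ≠ 0 ∧
      w' ≠ 0 ∧ M'.det = C cst * M.det ∧ (∀ a b, (M' a b).totalDegree ≤ 1) ∧
      (∀ a b, cm M' none a b = if a = b ∧ a ≠ b0 then 1 else 0) ∧
      ∀ o a b, cm M' o a b ≠ 0 → (if a = b0 then w' else v a) = χ o * v b := by
  obtain ⟨b0, a0, h0⟩ : ∃ b0 a0, (cm M none).adjugate b0 a0 ≠ 0 := by
    by_contra hc
    push Not at hc
    exact hadj (Matrix.ext fun i j => hc i j)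
  set Λ := cm M none with hΛ
  set Λ' := Λ.updateCol b0 (Pi.single a0 1) with hΛ'
  have hd' : Λ'.det ≠ 0 := by
    rw [hΛ', ← Matrix.cramer_apply, Matrix.cramer_eq_adjugate_mulVec, Matrix.mulVec_single_one]
    exact h0
  have hu : IsUnit Λ'.det := isUnit_iff_ne_zero.2 hd'
  set v' : Fin N → F := Function.update v b0 (w a0) with hv'
  have hgr : ∀ a b, Λ' a b ≠ 0 → w a = v' b := by
    intro a b hab
    rw [hΛ', Matrix.updateCol_apply] at hab
    rw [hv', Function.update_apply]
    by_cases hb : b = b0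
    · rw [if_pos hb] at hab ⊢
      by_cases ha : a = a0
      · rw [ha]
      · exact absurd (Pi.single_eq_of_ne ha _) hab
    · rw [if_neg hb] at hab ⊢
      have := hg none a b hab
      rwa [hχ, one_mul] at this
  have hinv := invG Λ' hu w v' hgr
  -- the product
  have hcol : ∀ b, b ≠ b0 → ∀ i, (Λ'⁻¹ * Λ) i b = if i = b then 1 else 0 := by
    intro b hb i
    have e : (Λ'⁻¹ * Λ) i b = (Λ'⁻¹ * Λ') i b := by
      rw [Matrix.mul_apply, Matrix.mul_apply]
      refine Finset.sum_congr rfl fun j _ => ?_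
      rw [hΛ', Matrix.updateCol_apply, if_neg hb]
    rw [e, Matrix.nonsing_inv_mul _ hu, Matrix.one_apply]
  set z : Fin N → F := fun i => (Λ'⁻¹ * Λ) i b0 with hz
  have hprod : Λ'⁻¹ * Λ = (1 : Matrix (Fin N) (Fin N) F).updateCol b0 z := by
    ext i b
    rw [Matrix.updateCol_apply]
    by_cases hb : b = b0
    · rw [if_pos hb, hb]
    · rw [if_neg hb, hcol b hb, Matrix.one_apply]
  have hz0 : z b0 = 0 := by
    rw [← Norm_upd b0 z, ← hprod, Matrix.det_mul, hdet, mul_zero]
  set V : Matrix (Fin N) (Fin N) F :=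
    (1 : Matrix (Fin N) (Fin N) F).updateCol b0 (fun i => (if i = b0 then 1 else 0) - z i) with hV
  have hVd : V.det = 1 := by
    rw [hV, Norm_upd, if_pos rfl, hz0, sub_zero]
  refine ⟨Λ'⁻¹.map C * M * V.map C, b0, w a0, Λ'⁻¹.det, ?_, hw a0, ?_, ?_, ?_, ?_⟩
  · rw [Matrix.det_nonsing_inv]
    simpa using hd'
  · rw [det_CMC, hVd, mul_one]
  · exact deg_mul M hM _ _
  · intro a b
    rw [cm_mul, ← hΛ, hprod, Matrix.mul_apply]
    by_cases hb : b = b0
    · subst hb
      rw [if_neg (fun h => h.2 h.1)]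
      have e : ∀ j, ((1 : Matrix (Fin N) (Fin N) F).updateCol b z) a j * V j b
          = (if j = b then z a * (1 - z b) else 0) - (if j = b then 0 else if a = j then z j else 0) := by
        intro j
        rw [hV, Matrix.updateCol_apply, Matrix.updateCol_apply, if_pos rfl]
        by_cases hj : j = b
        · subst hj
          simp
        · rw [if_neg hj, if_neg hj, if_neg hj, if_neg hj, Matrix.one_apply]
          split_ifs <;> simp
      rw [Finset.sum_congr rfl fun j _ => e j, Finset.sum_sub_distrib, Finset.sum_ite_eq' univ b,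
        if_pos (Finset.mem_univ _), hz0, sub_zero, mul_one]
      by_cases hab : a = b
      · subst hab
        rw [hz0, zero_sub, neg_eq_zero]
        refine Finset.sum_eq_zero fun j _ => ?_
        by_cases hj : j = a
        · rw [if_pos hj]
        · rw [if_neg hj, if_neg (fun h => hj h.symm)]
      · have : ∀ j, (if j = b then 0 else if a = j then z j else 0) = if a = j then z j else 0 := by
          intro j
          by_cases hj : j = b
          · rw [if_pos hj, if_neg (fun h => hab (h.trans hj))]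
          · rw [if_neg hj]
        rw [Finset.sum_congr rfl fun j _ => this j, Finset.sum_ite_eq univ a,
          if_pos (Finset.mem_univ _), sub_self]
    · have e : ∀ j, ((1 : Matrix (Fin N) (Fin N) F).updateCol b0 z) a j * V j b
          = if j = b then (if a = b then 1 else 0) else 0 := by
        intro j
        rw [hV, Matrix.updateCol_apply, Matrix.updateCol_apply, if_neg hb, Matrix.one_apply,
          Matrix.one_apply]
        by_cases hj : j = b
        · subst hj
          simp [hb]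
        · simp [hj]
      rw [Finset.sum_congr rfl fun j _ => e j, Finset.sum_ite_eq' univ b,
        if_pos (Finset.mem_univ _)]
      by_cases hab : a = b
      · rw [if_pos hab, if_pos ⟨hab, fun h => hb (hab ▸ h)⟩]
      · rw [if_neg hab, if_neg (fun h => hab h.1)]
  · intro o a b hab
    rw [cm_mul] at hab
    obtain ⟨j, hj1, hj2⟩ : ∃ j, (Λ'⁻¹ * cm M o) a j ≠ 0 ∧ V j b ≠ 0 := by
      by_contra hc
      push Not at hc
      refine hab ?_
      rw [Matrix.mul_apply]
      refine Finset.sum_eq_zero fun j _ => ?_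
      by_cases h1 : (Λ'⁻¹ * cm M o) a j = 0
      · rw [h1, zero_mul]
      · rw [hc j h1, mul_zero]
    obtain ⟨i, hi1, hi2⟩ : ∃ i, Λ'⁻¹ a i ≠ 0 ∧ cm M o i j ≠ 0 := by
      by_contra hc
      push Not at hc
      refine hj1 ?_
      rw [Matrix.mul_apply]
      refine Finset.sum_eq_zero fun i _ => ?_
      by_cases h1 : Λ'⁻¹ a i = 0
      · rw [h1, zero_mul]
      · rw [hc i h1, mul_zero]
    have h1 : v' a = w i := hinv a i hi1
    have h2 : w i = χ o * v j := hg o i j hi2
    have h3 : (if a = b0 then w a0 else v a) = v' a := by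
      rw [hv', Function.update_apply]
    have h4 : v j = v b := by
      by_cases hjb : j = b
      · rw [hjb]
      · rw [hV, Matrix.updateCol_apply] at hj2
        by_cases hb : b = b0
        · rw [if_pos hb] at hj2
          have hjb0 : j ≠ b0 := fun h => hjb (h.trans hb.symm)
          rw [if_neg hjb0, zero_sub, neg_ne_zero] at hj2
          obtain ⟨i', h5, h6⟩ : ∃ i', Λ'⁻¹ j i' ≠ 0 ∧ Λ i' b0 ≠ 0 := by
            by_contra hc
            push Not at hc
            refine hj2 ?_
            change (Λ'⁻¹ * Λ) j b0 = 0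
            rw [Matrix.mul_apply]
            refine Finset.sum_eq_zero fun i _ => ?_
            by_cases h1 : Λ'⁻¹ j i = 0
            · rw [h1, zero_mul]
            · rw [hc i h1, mul_zero]
          have h7 := hinv j i' h5
          have h8 := hg none i' b0 h6
          rw [hχ, one_mul] at h8
          rw [hv', Function.update_apply, if_neg hjb0] at h7
          rw [h7, h8, hb]
        · rw [if_neg hb, Matrix.one_apply, if_neg hjb] at hj2
          exact absurd rfl hj2
    rw [h3, h1, h2, h4]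

end Pool.Agent.TSD
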