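import Pool.Agent.TSD.Defs

set_option autoImplicit false

namespace Pool.Agent.TSD

open MvPolynomial Finset

universe u v w

theorem mon_aux {F : Type u} [Field F] (D : ℕ) (i : Fin 3) (S : Set (Fin 3 →₀ ℕ))
    (hS : ∀ s ∈ S, s i = 0) (x : MvPolynomial (Fin 3) F)
    (hx : X i ^ D * x ∈ Ideal.span ((fun s => monomial s (1 : F)) '' S)) :
    x ∈ Ideal.span ((fun s => monomial s (1 : F)) '' S) := by
  rw [mem_ideal_span_monomial_image] at hx ⊢
  intro m hm
  have h1 : coeff (Finsupp.single i D + m) (X i ^ D * x) = coeff m x := by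
    rw [X_pow_eq_monomial, coeff_monomial_mul, one_mul]
  have h2 : Finsupp.single i D + m ∈ (X i ^ D * x).support := by
    rw [mem_support_iff, h1]
    exact mem_support_iff.mp hm
  obtain ⟨s, hs, hle⟩ := hx _ h2
  refine ⟨s, hs, fun j => ?_⟩
  by_cases hj : j = i
  · subst hj
    rw [hS s hs]
    exact Nat.zero_le _
  · have h3 := hle j
    rwa [Finsupp.add_apply, Finsupp.single_eq_of_ne hj, zero_add] at h3

/-- **Mon** (powers of the variables form a regular sequence).

PROOF. Divisibility by `X i ^ D` and membership in the ideal `(X 0 ^ D, X 1 ^ D)` are read off the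
monomials: `MvPolynomial.mem_ideal_span_monomial_image` (`X i ^ D = monomial (single i D) 1`):
`x ∈ Ideal.span {X 0 ^ D, X 1 ^ D}` iff every `m ∈ x.support` has `D ≤ m 0` or `D ≤ m 1`; same with one
generator (`Ideal.mem_span_singleton`).  Multiplication by `X 2 ^ D` shifts the support:
`coeff (m + single 2 D) (X 2 ^ D * x) = coeff m x` (`coeff_monomial_mul`), and the exponents at `0` and `1`
are not changed; same for `X 1 ^ D` and the exponent at `0`.  First claim: `X 0 ^ D ≠ 0`, or the same
coefficient formula (valid over every commutative ring). -/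
theorem mon {F : Type u} [Field F] (D : ℕ) :
    (∀ x : MvPolynomial (Fin 3) F, X 0 ^ D * x = 0 → x = 0) ∧
    (∀ x : MvPolynomial (Fin 3) F, X 0 ^ D ∣ X 1 ^ D * x → X 0 ^ D ∣ x) ∧
    (∀ x : MvPolynomial (Fin 3) F, (∃ y z, X 2 ^ D * x = X 0 ^ D * y + X 1 ^ D * z) →
      ∃ y z, x = X 0 ^ D * y + X 1 ^ D * z) := by
  refine ⟨fun x hx => ?_, fun x hx => ?_, fun x hx => ?_⟩
  · rcases mul_eq_zero.mp hx with h | h
    · exact absurd h (pow_ne_zero _ (X_ne_zero _))
    · exact h
  · have h1 : ∀ y : MvPolynomial (Fin 3) F, X 0 ^ D ∣ y ↔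
        y ∈ Ideal.span ((fun s => monomial s (1 : F)) '' {Finsupp.single (0 : Fin 3) D}) := by
      intro y
      rw [Set.image_singleton, Ideal.mem_span_singleton, X_pow_eq_monomial]
    rw [h1] at hx ⊢
    refine mon_aux D 1 _ ?_ x hx
    intro s hs
    rw [Set.mem_singleton_iff.mp hs]
    exact Finsupp.single_eq_of_ne (by decide)
  · have h1 : ∀ y : MvPolynomial (Fin 3) F, (∃ a b, y = X 0 ^ D * a + X 1 ^ D * b) ↔
        y ∈ Ideal.span ((fun s => monomial s (1 : F)) ''
          {Finsupp.single (0 : Fin 3) D, Finsupp.single (1 : Fin 3) D}) := by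
      intro y
      rw [Set.image_pair, Ideal.mem_span_pair, X_pow_eq_monomial, X_pow_eq_monomial]
      constructor
      · rintro ⟨a, b, h⟩
        exact ⟨a, b, by rw [h]; ring⟩
      · rintro ⟨a, b, h⟩
        exact ⟨a, b, by rw [← h]; ring⟩
    rw [h1] at hx ⊢
    refine mon_aux D 2 _ ?_ x hx
    intro s hs
    rcases hs with hs | hs
    · rw [hs]
      exact Finsupp.single_eq_of_ne (by decide)
    · rw [Set.mem_singleton_iff.mp hs]
      exact Finsupp.single_eq_of_ne (by decide)

end Pool.Agent.TSD
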