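import Pool.Agent.TSD.HBb
import Pool.Agent.TSD.Mon
import Pool.Agent.TSD.Ev

set_option autoImplicit false

namespace Pool.Agent.TSD

open MvPolynomial Finset

universe u v w

/-- **Reg0** (an ideal of maximal minors of height three is the whole ring).

PROOF. For `b` with `p b`, `b ≠ a0` apply `hbb` with `p1 = X 0 ^ D`, `p2 = X 1 ^ D`, `p3 = X 2 ^ D` and
`mon D`; apply the ring homomorphism `constantCoeff` to the resulting relations (`map_sum`, `map_mul`,
`apply_ite`): they are the hypotheses of `ev` for `Z.map constantCoeff`.  So some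
`gg p a0 (Z.map constantCoeff) a ≠ 0`, and this is `constantCoeff (gg p a0 Z a)` by `gg_map`.
(`constantCoeff : MvPolynomial (Fin 3) F →+* F`; if the universe of `gg_map` is a problem: both rings are
in `Type u`.) -/
theorem reg0 {F : Type u} [Field F] {ι : Type v} [DecidableEq ι] [Fintype ι] (p : ι → Prop)
    [DecidablePred p] (a0 : ι) (ha0 : p a0) (Z : Matrix ι ι (MvPolynomial (Fin 3) F)) (D : ℕ)
    (h : ∀ l : Fin 3, (X l : MvPolynomial (Fin 3) F) ^ D ∈ Ig p a0 Z) :
    ∃ a, p a ∧ constantCoeff (gg p a0 Z a) ≠ 0 := by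
  obtain ⟨m1, m2, m3⟩ := mon (F := F) D
  obtain ⟨a, ha, hne⟩ := ev p a0 ha0 (Z.map (constantCoeff : MvPolynomial (Fin 3) F →+* F)) (by
    intro b hb hba
    obtain ⟨ψ, hψ, hrel⟩ := hbb p a0 ha0 Z (X 0 ^ D) (X 1 ^ D) (X 2 ^ D) m1 m2 m3 (h 0) (h 1)
      (h 2) b hb hba
    refine ⟨fun i => constantCoeff (ψ i), fun i hi => by simp [hψ i hi], ?_⟩
    intro m hm hma
    have h1 := congrArg (constantCoeff : MvPolynomial (Fin 3) F →+* F) (hrel m hm hma)
    rw [map_sum, apply_ite (constantCoeff : MvPolynomial (Fin 3) F →+* F), map_one,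
      map_zero] at h1
    simpa using h1)
  refine ⟨a, ha, ?_⟩
  rw [gg_map]
  exact hne

end Pool.Agent.TSD
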