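import Pool.Agent.TSD.Lin
import Pool.Agent.TSD.Eva
import Pool.Agent.TSD.AdjB

set_option autoImplicit false

namespace Pool.Agent.TSD

open MvPolynomial Finset

universe u v w

private theorem RegA_split {R : Type u} [AddCommMonoid R] {m : ℕ}
    (g : Fin (m + 1) × Fin (m + 1) → R) :
    ∑ p, g p = (∑ k, g (0, k)) + ∑ i : Fin m, ∑ k, g (i.succ, k) := by
  rw [Fintype.sum_prod_type, Fin.sum_univ_succ]

/-- **RegA** (the values of the determinant lie in both ideals of minors).

PROOF. Write `R0 = MvPolynomial (Fin 3) F`, `A a b = C (cm M (some (0, j)) a b) : R0`, `p a := l a0 ≤ l a` and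
`Z = M.map (aeval (asg 0 Y))`.
(1) `eva`: `Z a b = C (coeff 0 (M a b)) + ∑ (rows i.succ) ∑ j, C (coeff _ (M a b)) * Y i j`
(`asg 0 Y (0, j) = 0`), so `Z a b ≠ 0` implies `cm M o a b ≠ 0` for some `o` with `r0 0 o = 0`
(`o = none` or `o = some (i.succ, j)`; `mo none = 0`, `mo (some p) = single p 1`), hence `l a = l' b` by `hl`.
With `h0`, `h1` (`l' b = l b` for `b ≠ a0`, `l' a0 = l a0 - 1`) this gives
`p a ↔ (p b ∧ b ≠ a0)`: if `b ≠ a0`, `l a = l b`; if `b = a0`, `l a = l a0 - 1` so `¬ p a`.
(2) Let `B = Polynomial R0` (an `F`-algebra), `ξ = Polynomial.X`.  For all `a`, `b`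
`aeval (asg (fun i => ξ * Pi.single j 1 i) (fun i j => Polynomial.C (Y i j))) (M a b) =
Polynomial.C (Z a b) + ξ * Polynomial.C (A a b)`, by `eva` (split the sum over the pairs into the row `0`,
where only `(0, j)` contributes, and the other rows).  Taking determinants (`AlgHom.map_det`) and
`linEv` for `f = M.det`:
`(Z.map C + ξ • A.map C).det = ξ * aeval (asg (Pi.single j 1) (C ∘ Y)) M.det = ξ * C (E)` with
`E = aeval (asg (Pi.single j 1) Y) M.det` (`aeval` commutes with the `F`-algebra map
`Polynomial.C`: `MvPolynomial.map_aeval`, `aeval_algHom_apply` with `Polynomial.CAlgHom` or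
`MvPolynomial.aeval_unique`-like).
(3) `lin`: `E = ∑ a, ∑ b, A a b * Z.adjugate b a`, and by `adjB` (with (1)) every `Z.adjugate b a` is `0` or
`gg p a0 Z a * gg (cp p a0) a0 Zᵀ b` with `p a`, `cp p a0 b`, which lies in both ideals. -/
theorem regA {F : Type u} [Field F] {m N : ℕ}
    (M : Matrix (Fin N) (Fin N) (MvPolynomial (Fin (m + 1) × Fin (m + 1)) F))
    (hM : ∀ a b, (M a b).totalDegree ≤ 1) (l l' : Fin N → ℤ)
    (hl : ∀ o a b, cm M o a b ≠ 0 → l a = l' b + r0 0 o) (a0 : Fin N) (h0 : l a0 = l' a0 + 1)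
    (h1 : ∀ a, a ≠ a0 → l a = l' a) (hrow : ∀ μ, coeff μ M.det ≠ 0 → ∑ j, μ (0, j) = 1)
    (Y : Fin m → Fin (m + 1) → MvPolynomial (Fin 3) F) :
    (∀ a b, M.map (aeval (asg 0 Y)) a b ≠ 0 → (l a0 ≤ l a ↔ (l a0 ≤ l b ∧ b ≠ a0))) ∧
    ∀ j, aeval (asg (Pi.single j 1) Y) M.det ∈
        Ig (fun a => l a0 ≤ l a) a0 (M.map (aeval (asg 0 Y))) ∧
      aeval (asg (Pi.single j 1) Y) M.det ∈
        Ig (cp (fun a => l a0 ≤ l a) a0) a0 (M.map (aeval (asg 0 Y))).transpose := by
  have hp1 : ∀ a b, M.map (aeval (asg 0 Y)) a b ≠ 0 → (l a0 ≤ l a ↔ (l a0 ≤ l b ∧ b ≠ a0)) := by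
    intro a b hZ
    have hex : ∃ o, r0 (0 : Fin (m + 1)) o = 0 ∧ cm M o a b ≠ 0 := by
      by_contra hcon
      push Not at hcon
      apply hZ
      rw [Matrix.map_apply, eva (M a b) (hM a b)]
      have e0 : coeff 0 (M a b) = 0 := hcon none rfl
      rw [e0, map_zero, zero_add]
      refine Finset.sum_eq_zero fun p _ => ?_
      obtain ⟨i, k⟩ := p
      refine Fin.cases ?_ (fun i' => ?_) i
      · simp [asg]
      · have e1 : coeff (Finsupp.single (i'.succ, k) 1) (M a b) = 0 :=
          hcon (some (i'.succ, k)) (by simp [r0])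
        rw [e1, map_zero, zero_mul]
    obtain ⟨o, ho, hc⟩ := hex
    have h2 := hl o a b hc
    rw [ho, add_zero] at h2
    by_cases hb : b = a0
    · subst hb
      constructor
      · intro h3; omega
      · rintro ⟨_, h3⟩; exact absurd rfl h3
    · have h4 := h1 b hb
      constructor
      · intro h3; exact ⟨by omega, hb⟩
      · rintro ⟨h3, _⟩; omega
  refine ⟨hp1, fun j => ?_⟩
  have key : ((M.map (aeval (asg 0 Y))).map Polynomial.C +
      (Polynomial.X : Polynomial (MvPolynomial (Fin 3) F)) •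
        (Matrix.of fun a b => (C (cm M (some (0, j)) a b) : MvPolynomial (Fin 3) F)).map
          Polynomial.C).det =
      Polynomial.X * Polynomial.C (aeval (asg (Pi.single j 1) Y) M.det) := by
    have e1 : (M.map (aeval (asg 0 Y))).map Polynomial.C +
      (Polynomial.X : Polynomial (MvPolynomial (Fin 3) F)) •
        (Matrix.of fun a b => (C (cm M (some (0, j)) a b) : MvPolynomial (Fin 3) F)).map
          Polynomial.C =
        M.map (aeval (asg (fun k => (Polynomial.X : Polynomial (MvPolynomial (Fin 3) F)) *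
          (Pi.single j 1 : Fin (m + 1) → Polynomial (MvPolynomial (Fin 3) F)) k)
          (fun i k => Polynomial.C (Y i k)))) := by
      ext1 a b
      rw [Matrix.add_apply, Matrix.smul_apply, Matrix.map_apply, Matrix.map_apply,
        Matrix.map_apply, Matrix.map_apply, Matrix.of_apply, eva (M a b) (hM a b),
        eva (M a b) (hM a b)]
      rw [RegA_split, RegA_split]
      have e2 : ∑ k, algebraMap F (Polynomial (MvPolynomial (Fin 3) F))
          (coeff (Finsupp.single ((0 : Fin (m + 1)), k) 1) (M a b)) *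
          asg (fun k => (Polynomial.X : Polynomial (MvPolynomial (Fin 3) F)) *
          (Pi.single j 1 : Fin (m + 1) → Polynomial (MvPolynomial (Fin 3) F)) k)
          (fun i k => Polynomial.C (Y i k)) (0, k) =
          Polynomial.X * Polynomial.C (C (cm M (some (0, j)) a b)) := by
        rw [Finset.sum_eq_single j]
        · simp only [asg, Fin.cons_zero, Pi.single_eq_same, mul_one]
          rw [mul_comm]
          rfl
        · intro k _ hk
          simp [asg, Pi.single_eq_of_ne hk]
        · intro h; exact absurd (Finset.mem_univ _) h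
      have e3 : ∑ k, algebraMap F (MvPolynomial (Fin 3) F)
          (coeff (Finsupp.single ((0 : Fin (m + 1)), k) 1) (M a b)) *
          asg 0 Y (0, k) = 0 := by
        refine Finset.sum_eq_zero fun k _ => ?_
        simp [asg]
      rw [e2, e3, zero_add, smul_eq_mul, map_add, map_sum]
      simp only [map_sum, map_mul]
      have e4 : ∀ (i : Fin m) (k : Fin (m + 1)),
          asg (fun k => (Polynomial.X : Polynomial (MvPolynomial (Fin 3) F)) *
          (Pi.single j 1 : Fin (m + 1) → Polynomial (MvPolynomial (Fin 3) F)) k)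
          (fun i k => Polynomial.C (Y i k)) (i.succ, k) = Polynomial.C (asg 0 Y (i.succ, k)) := by
        intro i k
        simp [asg]
      simp only [e4]
      have e5 : ∀ c : F, algebraMap F (Polynomial (MvPolynomial (Fin 3) F)) c =
          Polynomial.C (algebraMap F (MvPolynomial (Fin 3) F) c) := fun c => rfl
      simp only [e5]
      ring
    rw [e1, ← AlgHom.mapMatrix_apply, ← AlgHom.map_det, linEv M.det hrow]
    congr 1
    have e6 : asg (Pi.single j 1 : Fin (m + 1) → Polynomial (MvPolynomial (Fin 3) F))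
        (fun i k => Polynomial.C (Y i k)) =
        algebraMap (MvPolynomial (Fin 3) F) (Polynomial (MvPolynomial (Fin 3) F)) ∘
          asg (Pi.single j 1) Y := by
      funext p
      obtain ⟨i, k⟩ := p
      refine Fin.cases ?_ (fun i' => ?_) i
      · by_cases hk : k = j
        · subst hk; simp [asg]
        · simp [asg, Pi.single_eq_of_ne hk]
      · simp [asg]
    rw [e6, aeval_algebraMap_apply]
    rfl
  have hE := lin _ _ _ key
  constructor
  · rw [hE]
    refine Ideal.sum_mem _ fun a _ => Ideal.sum_mem _ fun b _ => Ideal.mul_mem_left _ _ ?_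
    rw [adjB (fun a => l a0 ≤ l a) a0 le_rfl _ hp1 a b]
    split_ifs with h
    · exact Ideal.mul_mem_right _ _ (Ideal.subset_span ⟨a, h.1, rfl⟩)
    · exact Ideal.zero_mem _
  · rw [hE]
    refine Ideal.sum_mem _ fun a _ => Ideal.sum_mem _ fun b _ => Ideal.mul_mem_left _ _ ?_
    rw [adjB (fun a => l a0 ≤ l a) a0 le_rfl _ hp1 a b]
    split_ifs with h
    · exact Ideal.mul_mem_left _ _ (Ideal.subset_span ⟨b, h.2, rfl⟩)
    · exact Ideal.zero_mem _

end Pool.Agent.TSD
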