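import Pool.Agent.TSD.Align
import Pool.Agent.TSD.RegA
import Pool.Agent.TSD.Reg0

set_option autoImplicit false

namespace Pool.Agent.TSD

open MvPolynomial Finset

universe u v w

/-- **Reg** (regularity).

PROOF. (1) `M.det ≠ 0` (otherwise `hD` says `X l ^ D ∈ ⊥`), so some `coeff μ M.det ≠ 0`; `align` (with
`i0 = 0` and `hrow`) gives `π`, `a0`.  Put `M' = M.submatrix id π`, `l'' = l' ∘ π`: then `cm M' o a b =
cm M o a (π b)`, `M'.det = sign π * M.det` (`Matrix.det_permute'`, up to the unit `±1`), so `M'` satisfies all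
hypotheses (`hrow`: the coefficients change by a sign; `hD`: the ideals are the same as the generators
change by a sign).
(2) `regA` for `M'`, with `p a := l a0 ≤ l a` and `Z = M'.map (aeval (asg 0 Y))`: `X l ^ D ∈ Ig p a0 Z` and
`∈ Ig (cp p a0) a0 Zᵀ` (the ideal spanned by the values is contained in both).  `reg0` twice (`p a0` and
`cp p a0 a0` hold): `a` with `p a`, `constantCoeff (gg p a0 Z a) ≠ 0`, and `b` with `cp p a0 b` and
`constantCoeff (gg (cp p a0) a0 Zᵀ b) ≠ 0`.  By `adjB` `constantCoeff (Z.adjugate b a) ≠ 0`.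
(3) `constantCoeff (Z.adjugate b a) = (Z.map constantCoeff).adjugate b a` (`RingHom.map_adjugate`), and
`Z.map constantCoeff = cm M' none`: by `eva` `Z a b = C (coeff 0 (M' a b)) + ∑ C _ * Y i j` and
`constantCoeff (Y i j) = 0` (`mo none = 0`).
(4) `cm M' none = (cm M none).submatrix id π = cm M none * P` for a permutation matrix `P`
(`Matrix.submatrix_id_mul...`, `Equiv.toPEquiv.toMatrix`, or `P = (1).submatrix id π`), so if
`(cm M none).adjugate = 0` then `(cm M' none).adjugate = P.adjugate * 0 = 0` (`Matrix.adjugate_mul_distrib`),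
a contradiction. -/
theorem reg {F : Type u} [Field F] {m N : ℕ}
    (M : Matrix (Fin N) (Fin N) (MvPolynomial (Fin (m + 1) × Fin (m + 1)) F))
    (hM : ∀ a b, (M a b).totalDegree ≤ 1) (l l' : Fin N → ℤ)
    (hl : ∀ o a b, cm M o a b ≠ 0 → l a = l' b + r0 0 o)
    (hrow : ∀ μ, coeff μ M.det ≠ 0 → ∑ j, μ (0, j) = 1)
    (Y : Fin m → Fin (m + 1) → MvPolynomial (Fin 3) F)
    (hY : ∀ i j, constantCoeff (Y i j) = 0) (D : ℕ)
    (hD : ∀ l : Fin 3, (X l : MvPolynomial (Fin 3) F) ^ D ∈
      Ideal.span (Set.range fun j => aeval (asg (Pi.single j 1) Y) M.det)) :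
    (cm M none).adjugate ≠ 0 := by
  classical
  intro hadj
  have hdet : M.det ≠ 0 := by
    intro h0
    have h1 := hD 0
    simp only [h0, map_zero] at h1
    have h2 : (Set.range fun _ : Fin (m + 1) => (0 : MvPolynomial (Fin 3) F)) ⊆ {0} := by
      rintro _ ⟨_, rfl⟩
      rfl
    have h3 := Ideal.mem_span_singleton.1 (Ideal.span_mono h2 h1)
    exact pow_ne_zero D (X_ne_zero (0 : Fin 3)) (zero_dvd_iff.1 h3)
  obtain ⟨μ, hμ⟩ : ∃ μ, coeff μ M.det ≠ 0 := by
    by_contra hc
    push Not at hc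
    exact hdet (MvPolynomial.ext _ _ fun μ => by rw [hc μ, coeff_zero])
  obtain ⟨π, a0, h0, h1⟩ := align 0 M hM l l' hl μ hμ (hrow μ hμ)
  obtain ⟨e, he, hde⟩ : ∃ e : F, e * e = 1 ∧ (M.submatrix id π).det = C e * M.det := by
    refine ⟨((Equiv.Perm.sign π : ℤ) : F), ?_, ?_⟩
    · rw [← Int.cast_mul, ← Units.val_mul, Int.units_mul_self]
      simp
    · rw [Matrix.det_permute', map_intCast]
  have hrow' : ∀ μ, coeff μ (M.submatrix id π).det ≠ 0 → ∑ j, μ (0, j) = 1 := by
    intro μ h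
    apply hrow μ
    intro h'
    apply h
    rw [hde, coeff_C_mul, h', mul_zero]
  obtain ⟨hZ, hI⟩ := regA (M.submatrix id π) (fun a b => hM a (π b)) l (fun b => l' (π b))
    (fun o a b h => hl o a (π b) h) a0 h0 h1 hrow' Y
  have hg : ∀ j, aeval (asg (Pi.single j 1) Y) M.det =
      C e * aeval (asg (Pi.single j 1) Y) (M.submatrix id π).det := by
    intro j
    rw [hde, map_mul, ← mul_assoc]
    have : aeval (asg (Pi.single j 1) Y) (C e : MvPolynomial (Fin (m + 1) × Fin (m + 1)) F) =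
        (C e : MvPolynomial (Fin 3) F) := by
      rw [aeval_C]
      rfl
    rw [this, ← C_mul, he, C_1, one_mul]
  have hI1 : ∀ i : Fin 3, (X i : MvPolynomial (Fin 3) F) ^ D ∈
      Ig (fun a => l a0 ≤ l a) a0 ((M.submatrix id π).map (aeval (asg 0 Y))) := by
    intro i
    refine (Ideal.span_le.2 ?_) (hD i)
    rintro _ ⟨j, rfl⟩
    simp only [hg j]
    exact Ideal.mul_mem_left _ _ (hI j).1
  have hI2 : ∀ i : Fin 3, (X i : MvPolynomial (Fin 3) F) ^ D ∈
      Ig (cp (fun a => l a0 ≤ l a) a0) a0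
        ((M.submatrix id π).map (aeval (asg 0 Y))).transpose := by
    intro i
    refine (Ideal.span_le.2 ?_) (hD i)
    rintro _ ⟨j, rfl⟩
    simp only [hg j]
    exact Ideal.mul_mem_left _ _ (hI j).2
  obtain ⟨a, ha, ha'⟩ := reg0 (fun a => l a0 ≤ l a) a0 le_rfl _ D hI1
  obtain ⟨b, hb, hb'⟩ := reg0 (cp (fun a => l a0 ≤ l a) a0) a0 (Or.inr rfl) _ D hI2
  have hab := adjB (fun a => l a0 ≤ l a) a0 le_rfl _ hZ a b
  rw [if_pos ⟨ha, hb⟩] at hab
  have hc := congrArg (constantCoeff (R := F) (σ := Fin 3)) hab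
  rw [map_mul] at hc
  have hne := mul_ne_zero ha' hb'
  rw [← hc] at hne
  apply hne
  have hmap : constantCoeff (((M.submatrix id π).map (aeval (asg 0 Y))).adjugate b a) =
      (((M.submatrix id π).map (aeval (asg 0 Y))).map
        (constantCoeff (R := F) (σ := Fin 3))).adjugate b a := by
    have := RingHom.map_adjugate (constantCoeff (R := F) (σ := Fin 3))
      ((M.submatrix id π).map (aeval (asg 0 Y)))
    exact congrFun (congrFun this b) a
  have hv : ∀ p : Fin (m + 1) × Fin (m + 1),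
      constantCoeff (asg (0 : Fin (m + 1) → MvPolynomial (Fin 3) F) Y p) = 0 := by
    rintro ⟨i, j⟩
    refine Fin.cases ?_ (fun i => ?_) i
    · simp [asg]
    · simpa [asg] using hY i j
  have hcm : ((M.submatrix id π).map (aeval (asg 0 Y))).map
      (constantCoeff (R := F) (σ := Fin 3)) = cm (M.submatrix id π) none := by
    ext a b
    change constantCoeff (aeval (asg 0 Y) (M a (π b))) = coeff 0 (M a (π b))
    rw [eva _ (hM a (π b)), map_add, map_sum]
    rw [Finset.sum_eq_zero (fun p _ => by rw [map_mul, hv p, mul_zero]), add_zero]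
    rw [MvPolynomial.algebraMap_eq, constantCoeff_C]
  rw [hmap, hcm]
  have hP : cm (M.submatrix id π) none =
      cm M none * (1 : Matrix (Fin N) (Fin N) F).submatrix (Equiv.refl (Fin N)) π := by
    rw [Matrix.mul_submatrix_one]
    rfl
  rw [hP, Matrix.adjugate_mul_distrib, hadj, mul_zero]
  rfl

end Pool.Agent.TSD
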