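import Pool.Agent.TSD.SymC

set_option autoImplicit false

namespace Pool.Agent.TSD

open MvPolynomial Finset

universe u v w

/-- **RowD** (row degrees).  If the rescaling multiplies `f` by a constant (`rescale f * C q = C p * f`,
`p, q ≠ 0`), the factors are independent and `f` contains the monomial of the identity permutation, then
every monomial of `f` contains exactly one variable of each row.

PROOF. Put `e m = ∏ p, (s p.1 * t (κ p.2)) ^ m p`.  Comparing coefficients (`coeff_rescale`), for every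
`m` with `coeff m f ≠ 0` we get `e m = p / q`; in particular for `m0 = pm 1`.  So `e m = e m0`.  Now
`e m = (∏ i, s i ^ (∑ j, m (i, j))) * ∏ j', t j' ^ (∑ over (i, j) with κ j = j' of m (i, j))`
(`Fintype.prod_prod_type`, `mul_pow`, `Finset.prod_pow_eq_pow_sum`, `Finset.prod_fiberwise`-like
regrouping: `∏ j, t (κ j) ^ c j = ∏ j', t j' ^ ∑ j with κ j = j', c j`).  Let
`a i = (∑ j, m (i, j) : ℤ) - ∑ j, m0 (i, j)` and `b j' = (sum over κ j = j' of m (i, j)) - (the same for
m0)`.  Then `∑ i, a i = ∑ j', b j'` (both are the total degree of `m` minus that of `m0`), and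
`(∏ i, s i ^ a i) * ∏ j', t j' ^ b j' = 1` (`zpow_sub₀`, the factors are nonzero).  `Indep.rel` gives
`a = 0`, i.e. `∑ j, m (i, j) = ∑ j, m0 (i, j) = 1` (for `m0 = pm 1 = ∑ i, single (i, i) 1`:
`m0 (i, j) = if i = j then 1 else 0`). -/
theorem rowDeg {L : Type u} [Field L] {n c : ℕ} (κ : Fin n → Fin c)
    (s : Fin n → L) (t : Fin c → L) (hst : Indep s t) (f : MvPolynomial (Fin n × Fin n) L)
    (p q : L) (hp : p ≠ 0) (hq : q ≠ 0) (h : rescale κ s t f * C q = C p * f)
    (h1 : coeff (pm (1 : Equiv.Perm (Fin n))) f ≠ 0) (m : (Fin n × Fin n) →₀ ℕ)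
    (hm : coeff m f ≠ 0) (i : Fin n) : ∑ j, m (i, j) = 1 := by
  classical
  have he : ∀ m : (Fin n × Fin n) →₀ ℕ, (∏ p, (s p.1 * t (κ p.2)) ^ m p) =
      (∏ i, s i ^ (∑ j, m (i, j))) *
        ∏ j', t j' ^ (∑ p : Fin n × Fin n with κ p.2 = j', m p) := by
    intro m
    simp only [mul_pow, Finset.prod_mul_distrib]
    congr 1
    · rw [Fintype.prod_prod_type]
      exact Finset.prod_congr rfl fun i _ =>
        Finset.prod_pow_eq_pow_sum Finset.univ (fun j => m (i, j)) (s i)
    · rw [← Finset.prod_fiberwise (Finset.univ : Finset (Fin n × Fin n)) (fun p => κ p.2)]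
      refine Finset.prod_congr rfl fun j' _ => ?_
      rw [← Finset.prod_pow_eq_pow_sum]
      refine Finset.prod_congr rfl fun p hp => ?_
      rw [(Finset.mem_filter.1 hp).2]
  have hc : ∀ m : (Fin n × Fin n) →₀ ℕ, coeff m f ≠ 0 →
      (∏ p, (s p.1 * t (κ p.2)) ^ m p) * q = p := by
    intro m hm
    have h2 := congrArg (coeff m) h
    rw [mul_comm, coeff_C_mul, coeff_C_mul, coeff_rescale] at h2
    have h3 : ((∏ p, (s p.1 * t (κ p.2)) ^ m p) * q) * coeff m f = p * coeff m f := by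
      rw [← h2]
      ring
    exact mul_right_cancel₀ hm h3
  have hA : ∀ i : Fin n, ∑ j, (pm (1 : Equiv.Perm (Fin n))) (i, j) = 1 := by
    intro i
    have : ∀ j, (pm (1 : Equiv.Perm (Fin n))) (i, j) = if i = j then 1 else 0 := by
      intro j
      simp only [pm, Finsupp.coe_finsetSum, Finset.sum_apply, Equiv.Perm.coe_one, id_eq,
        Finsupp.single_apply, Prod.mk.injEq]
      by_cases hij : i = j
      · subst hij
        simp
      · rw [if_neg hij]
        refine Finset.sum_eq_zero fun k _ => ?_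
        rw [if_neg]
        rintro ⟨h1, h2⟩
        exact hij (h1.symm.trans h2)
    simp [this]
  have key : (∏ i, s i ^ (∑ j, m (i, j))) *
        ∏ j', t j' ^ (∑ p : Fin n × Fin n with κ p.2 = j', m p) =
      (∏ i, s i ^ (∑ j, (pm (1 : Equiv.Perm (Fin n))) (i, j))) *
        ∏ j', t j' ^ (∑ p : Fin n × Fin n with κ p.2 = j', (pm (1 : Equiv.Perm (Fin n))) p) := by
    rw [← he, ← he]
    exact mul_right_cancel₀ hq ((hc m hm).trans (hc _ h1).symm)
  have htot : ∀ m : (Fin n × Fin n) →₀ ℕ, ∑ i, ∑ j, m (i, j) =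
      ∑ j', ∑ p : Fin n × Fin n with κ p.2 = j', m p := by
    intro m
    rw [Finset.sum_fiberwise (Finset.univ : Finset (Fin n × Fin n)) (fun p => κ p.2),
      Fintype.sum_prod_type]
  have hrel := hst.rel
    (fun i => ((∑ j, m (i, j) : ℕ) : ℤ) - ((∑ j, (pm (1 : Equiv.Perm (Fin n))) (i, j) : ℕ) : ℤ))
    (fun j' => ((∑ p : Fin n × Fin n with κ p.2 = j', m p : ℕ) : ℤ) -
      ((∑ p : Fin n × Fin n with κ p.2 = j', (pm (1 : Equiv.Perm (Fin n))) p : ℕ) : ℤ))
    (by
      rw [Finset.sum_sub_distrib, Finset.sum_sub_distrib]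
      have e1 := congrArg (Nat.cast : ℕ → ℤ) (htot m)
      have e2 := congrArg (Nat.cast : ℕ → ℤ) (htot (pm (1 : Equiv.Perm (Fin n))))
      simp only [Nat.cast_sum] at e1 e2 ⊢
      rw [e1, e2])
    (by
      have hs0 : ∀ i, s i ≠ 0 := hst.s_ne
      have ht0 : ∀ j, t j ≠ 0 := hst.t_ne
      simp only [zpow_sub₀ (hs0 _), zpow_sub₀ (ht0 _), zpow_natCast, Finset.prod_div_distrib]
      rw [div_mul_div_comm, key, div_self]
      refine mul_ne_zero (Finset.prod_ne_zero_iff.2 fun i _ => pow_ne_zero _ (hs0 i))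
        (Finset.prod_ne_zero_iff.2 fun i _ => pow_ne_zero _ (ht0 i)))
  have h4 := congrFun hrel.1 i
  simp only [Pi.zero_apply, hA] at h4
  omega

end Pool.Agent.TSD
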