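import Pool.Agent.TSD.Gr
import Pool.Agent.TSD.RowD
import Pool.Agent.TSD.Lev
import Pool.Agent.TSD.Reg
import Pool.Agent.TSD.Norm
import Pool.Agent.TSD.Cyc
import Pool.Agent.TSD.CntC

set_option autoImplicit false

namespace Pool.Agent.TSD

open MvPolynomial Finset

universe u v w

theorem wt_ne {L : Type u} [Field L] {n c : ℕ} (κ : Fin n → Fin c) (s : Fin n → L)
    (t : Fin c → L) (hst : Indep s t) (o : Option (Fin n × Fin n)) : wt κ s t o ≠ 0 := by
  rcases o with _ | p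
  · exact one_ne_zero
  · exact mul_ne_zero (hst.s_ne _) (hst.t_ne _)

theorem det_cm_none {R : Type u} [CommRing R] {σ : Type v} {N : ℕ}
    (M : Matrix (Fin N) (Fin N) (MvPolynomial σ R)) :
    (cm M none).det = coeff 0 M.det := by
  have h := RingHom.map_det (constantCoeff : MvPolynomial σ R →+* R) M
  rw [constantCoeff_eq] at h
  rw [h]
  congr 1

/-- The theorem over an algebraically closed field, for the plain symmetry. -/
theorem mainF {F : Type u} [Field F] [IsAlgClosed F] {m c N : ℕ} (κ : Fin (m + 1) → Fin c)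
    (s : Fin (m + 1) → F) (t : Fin c → F) (hst : Indep s t)
    (M : Matrix (Fin N) (Fin N) (MvPolynomial (Fin (m + 1) × Fin (m + 1)) F))
    (hM : ∀ a b, (M a b).totalDegree ≤ 1) (P Q : Matrix (Fin N) (Fin N) F)
    (hP : IsUnit P.det) (hQ : IsUnit Q.det)
    (h : M.map (rescale κ s t) * Q.map C = P.map C * M)
    (hco : ∀ σ : Equiv.Perm (Fin (m + 1)), coeff (pm σ) M.det ≠ 0)
    (Y : Fin m → Fin (m + 1) → MvPolynomial (Fin 3) F)
    (hY : ∀ i j, constantCoeff (Y i j) = 0) (D : ℕ)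
    (hD : ∀ l : Fin 3, (X l : MvPolynomial (Fin 3) F) ^ D ∈
      Ideal.span (Set.range fun j => aeval (asg (Pi.single j 1) Y) M.det)) :
    1 + ∑ q ∈ Ico 1 (m + 1), (m + 1).choose q / W κ q ≤ N := by
  have hrow := rowDeg κ s t hst M.det P.det Q.det hP.ne_zero hQ.ne_zero
    (symDet κ s t M P Q h) (hco 1)
  obtain ⟨U, V, w, v, hU, hV, hw, hv, hg⟩ := gr (fun o => cm M o) (wt κ s t) P Q hP hQ
    (wt_ne κ s t hst) (symCoeff κ s t M P Q h)
  set M1 : Matrix (Fin N) (Fin N) (MvPolynomial (Fin (m + 1) × Fin (m + 1)) F) :=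
    (U.map C : Matrix (Fin N) (Fin N) (MvPolynomial (Fin (m + 1) × Fin (m + 1)) F)) * M *
      (V.map C : Matrix (Fin N) (Fin N) (MvPolynomial (Fin (m + 1) × Fin (m + 1)) F)) with hM1
  have hdet1 : M1.det = C (U.det * V.det) * M.det := det_CMC M U V
  have hc0 : U.det * V.det ≠ 0 := mul_ne_zero hU.ne_zero hV.ne_zero
  have hco1 : ∀ μ, coeff μ M1.det = U.det * V.det * coeff μ M.det := by
    intro μ
    rw [hdet1, coeff_C_mul]
  have hg1 : ∀ o a b, cm M1 o a b ≠ 0 → w a = wt κ s t o * v b := by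
    intro o a b hab
    apply hg o a b
    rw [← cm_mul M U V o]
    exact hab
  obtain ⟨e, he⟩ := lev κ s t hst 0
  have hl : ∀ o a b, cm M1 o a b ≠ 0 → e (w a) = e (v b) + r0 0 o := by
    intro o a b hab
    rw [hg1 o a b hab]
    rcases o with _ | p
    · simp [wt, r0]
    · exact he p.1 p.2 (v b) (hv b)
  have hrow1 : ∀ μ, coeff μ M1.det ≠ 0 → ∑ j, μ (0, j) = 1 := by
    intro μ hμ
    rw [hco1] at hμ
    exact hrow μ (right_ne_zero_of_mul hμ) 0
  have hD1 : ∀ l : Fin 3, (X l : MvPolynomial (Fin 3) F) ^ D ∈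
      Ideal.span (Set.range fun j => aeval (asg (Pi.single j 1) Y) M1.det) := by
    intro l
    refine (Ideal.span_le.2 ?_) (hD l)
    rintro _ ⟨j, rfl⟩
    have h1 : aeval (asg (Pi.single j 1) Y) M.det = C (U.det * V.det)⁻¹ *
        aeval (asg (Pi.single j 1) Y) M1.det := by
      rw [hdet1, map_mul, ← mul_assoc, aeval_C, algebraMap_eq, ← C_mul,
        inv_mul_cancel₀ hc0, C_1, one_mul]
    simp only [SetLike.mem_coe]
    rw [h1]
    exact Ideal.mul_mem_left _ _ (Ideal.subset_span ⟨j, rfl⟩)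
  have hadj := reg M1 (deg_mul M hM U V) (fun a => e (w a)) (fun b => e (v b)) hl hrow1 Y hY D hD1
  have hdet0 : (cm M1 none).det = 0 := by
    rw [det_cm_none]
    by_contra h0
    have := hrow1 0 h0
    simp at this
  obtain ⟨M2, b0, w', cst, hcst, hw', hdet2, hM2, hnone, hg2⟩ :=
    norm M1 (deg_mul M hM U V) (wt κ s t) rfl w v hw hg1 hdet0 hadj
  apply cntD κ s t hst b0 w' v hv
  intro σ q h1 hq
  apply cyc κ s t hst M2 hM2 b0 w' v hv hnone hg2 σ _ q h1 hq
  rw [hdet2, coeff_C_mul, hco1]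
  exact mul_ne_zero hcst (mul_ne_zero hc0 (hco σ))

end Pool.Agent.TSD
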