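import Pool.Agent.TSD.PerX

set_option autoImplicit false

namespace Pool.Agent.TSD

open MvPolynomial Finset

universe u v w

/-- **Nxt** (the permanents of the next family).

PROOF. All three are instances of `perX` with `y = Y 0`, `w = b` and the rows `Y i.succ = (Fin.tail Y) i`;
`Fin.cons (Y 0) (Fin.tail Y) = Y` (`Fin.cons_self_tail`), `Pi.single 0 1 = Fin.cons 1 0`,
`Pi.single j.succ 1 = Fin.cons 0 (Pi.single j 1)`.
(1) `pr (Fin.cons 1 0) _ = 1 * pr (Y 0) (Fin.cons b (tail Y)) + c * pr 0 _ + d * pr 0 _`, and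
`pr (Y 0) (Fin.cons b (tail Y)) = pr b Y` (`pr_swap`), `pr b Y = ∑ j, b j * pr (Pi.single j 1) Y`, `pr 0 _ = 0`
(`pr_lin`).
(2) `z0 = 0`, `z = Pi.single j 1`.
(3) `z0 = c`, `z = Y 0`: `c * pr (Y 0) (cons b tail) + c * pr (Y 0) (cons b tail) + d * pr (Y 0) Y`. -/
theorem nxt_pr {R : Type u} [CommRing R] {m : ℕ} (c d : R) (b : Fin (m + 2) → R)
    (Y : Fin (m + 1) → Fin (m + 2) → R) :
    pr (Pi.single 0 1) (nxt c d b Y) = ∑ j, b j * pr (Pi.single j 1) Y ∧
    (∀ j : Fin (m + 2), pr (Pi.single j.succ 1) (nxt c d b Y) =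
      d * pr (Pi.single j 1) Y + c * pr (Pi.single j 1) (Fin.cons b (Fin.tail Y))) ∧
    pr (nxt c d b Y 0) (nxt c d b Y) =
      d * pr (Y 0) Y + 2 * c * ∑ j, b j * pr (Pi.single j 1) Y := by
  have hx : ∀ (z0 : R) (z : Fin (m + 2) → R), pr (Fin.cons z0 z : Fin (m + 3) → R) (nxt c d b Y) =
      z0 * pr (Y 0) (Fin.cons b (Fin.tail Y)) + c * pr z (Fin.cons b (Fin.tail Y)) +
        d * pr z Y := by
    intro z0 z
    have h := perX z0 c d z (Y 0) b (Fin.tail Y)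
    rw [Fin.cons_self_tail] at h
    exact h
  have h0 : ∀ Z : Fin (m + 1) → Fin (m + 2) → R, pr (0 : Fin (m + 2) → R) Z = 0 := by
    intro Z
    rw [pr_lin]
    exact Finset.sum_eq_zero fun j _ => by rw [Pi.zero_apply, zero_mul]
  have hb : pr (Y 0) (Fin.cons b (Fin.tail Y)) = ∑ j, b j * pr (Pi.single j 1) Y := by
    rw [pr_swap, Fin.cons_self_tail, pr_lin]
  have hs0 : (Pi.single 0 1 : Fin (m + 3) → R) = Fin.cons 1 (0 : Fin (m + 2) → R) := by
    funext i
    refine Fin.cases ?_ (fun i => ?_) i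
    · rw [Pi.single_eq_same, Fin.cons_zero]
    · rw [Pi.single_eq_of_ne (Fin.succ_ne_zero i), Fin.cons_succ, Pi.zero_apply]
  have hsj : ∀ j : Fin (m + 2), (Pi.single j.succ 1 : Fin (m + 3) → R) =
      Fin.cons 0 (Pi.single j 1 : Fin (m + 2) → R) := by
    intro j
    funext i
    refine Fin.cases ?_ (fun i => ?_) i
    · rw [Pi.single_eq_of_ne (Fin.succ_ne_zero j).symm, Fin.cons_zero]
    · rw [Fin.cons_succ, Pi.single_apply, Pi.single_apply]
      by_cases h : i = j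
      · rw [if_pos h, if_pos (by rw [h])]
      · rw [if_neg h, if_neg (fun h' => h (Fin.succ_injective _ h'))]
  refine ⟨?_, fun j => ?_, ?_⟩
  · rw [hs0, hx, h0, h0, hb]
    ring
  · rw [hsj j, hx]
    ring
  · have h1 : nxt c d b Y 0 = Fin.cons c (Y 0) := rfl
    rw [h1, hx, hb]
    ring

end Pool.Agent.TSD
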