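import Pool.Agent.TSD.PrL

set_option autoImplicit false

namespace Pool.Agent.TSD

open MvPolynomial Finset

universe u v w

private theorem PerX_exp {R : Type u} [CommRing R] {q : ℕ}
    (M : Matrix (Fin (q + 1)) (Fin (q + 1)) R) :
    M.permanent = ∑ p, M p 0 * Matrix.permanent
      (Matrix.of fun a x : Fin q => M (Equiv.swap 0 p a.succ) x.succ) := by
  unfold Matrix.permanent
  rw [← Equiv.sum_comp Equiv.Perm.decomposeFin.symm, Fintype.sum_prod_type]
  refine Finset.sum_congr rfl fun p _ => ?_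
  rw [Finset.mul_sum]
  refine Finset.sum_congr rfl fun e _ => ?_
  rw [Fin.prod_univ_succ, Equiv.Perm.decomposeFin_symm_apply_zero]
  congr 1
  refine Finset.prod_congr rfl fun x _ => ?_
  rw [Equiv.Perm.decomposeFin_symm_apply_succ]
  rfl

/-- **PerX** (expansion of a permanent along the first column, with four kinds of rows).

PROOF. General expansion: for a square matrix `B` of size `q + 1`,
`B.permanent = ∑ i, B i 0 * (B.submatrix i.succAbove Fin.succ).permanent` (transpose to get
`∑ σ, ∏ i, B (σ i) i`, `Fin.prod_univ_succ`, and reindex the permutations by the value `i = σ 0` and the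
rest: `Equiv.Perm.decomposeFin`, `Fin.insertNth`/`Equiv.Perm` with `finSuccEquiv'`; in Mathlib look at the proof
of `Matrix.det_succ_column_zero`, or use `Equiv.Perm.decomposeFin` as in `Matrix.det_succ_row`).
Here the first column is `z0, c, d, 0, ..., 0` (`Fin.sum_univ_succ` three times, the remaining terms are
zero), and deleting the first column and the row `0` resp. `1` resp. `2` leaves the matrices of
`pr y (Fin.cons w Y)`, `pr z (Fin.cons w Y)`, `pr z (Fin.cons y Y)` (entries by `Fin.cases`;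
`Fin.succAbove`). -/
theorem perX {R : Type u} [CommRing R] {m : ℕ} (z0 c d : R) (z y w : Fin (m + 2) → R)
    (Y : Fin m → Fin (m + 2) → R) :
    pr (Fin.cons z0 z : Fin (m + 3) → R) (Fin.cons (Fin.cons c y) (Fin.cons (Fin.cons d w)
      fun i : Fin m => Fin.cons 0 (Y i))) =
      z0 * pr y (Fin.cons w Y) + c * pr z (Fin.cons w Y) + d * pr z (Fin.cons y Y) := by
  obtain ⟨M, hM⟩ : ∃ M : Matrix (Fin (m + 3)) (Fin (m + 3)) R, M = Matrix.of
      (Fin.cons (Fin.cons z0 z : Fin (m + 3) → R) (Fin.cons (Fin.cons c y)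
        (Fin.cons (Fin.cons d w) fun i : Fin m => Fin.cons 0 (Y i)))) := ⟨_, rfl⟩
  have h00 : M 0 0 = z0 := by rw [hM]; rfl
  have h10 : M (Fin.succ 0) 0 = c := by rw [hM]; rfl
  have h20 : M (Fin.succ (Fin.succ 0)) 0 = d := by rw [hM]; rfl
  have h30 : ∀ i : Fin m, M i.succ.succ.succ 0 = 0 := by
    intro i
    rw [hM]
    rfl
  have r0 : ∀ x : Fin (m + 2), M 0 x.succ = z x := by
    intro x
    rw [hM]
    rfl
  have r1 : ∀ x : Fin (m + 2), M (Fin.succ 0) x.succ = y x := by
    intro x
    rw [hM]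
    rfl
  have r2 : ∀ x : Fin (m + 2), M (Fin.succ (Fin.succ 0)) x.succ = w x := by
    intro x
    rw [hM]
    rfl
  have r3 : ∀ (i : Fin m) (x : Fin (m + 2)), M i.succ.succ.succ x.succ = Y i x := by
    intro i x
    rw [hM]
    rfl
  have hL : pr (Fin.cons z0 z : Fin (m + 3) → R) (Fin.cons (Fin.cons c y)
      (Fin.cons (Fin.cons d w) fun i : Fin m => Fin.cons 0 (Y i))) = M.permanent := by
    rw [hM]
    rfl
  rw [hL, PerX_exp, Fin.sum_univ_succ, Fin.sum_univ_succ, Fin.sum_univ_succ, h00, h10, h20]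
  have hz : ∑ i : Fin m, M i.succ.succ.succ 0 * Matrix.permanent
      (Matrix.of fun a x : Fin (m + 2) => M (Equiv.swap 0 i.succ.succ.succ a.succ) x.succ) = 0 :=
    Finset.sum_eq_zero fun i _ => by rw [h30 i, zero_mul]
  have e0 : (Matrix.of fun a x : Fin (m + 2) => M (Equiv.swap 0 0 a.succ) x.succ) =
      Matrix.of (Fin.cons y (Fin.cons w Y) : Fin (m + 2) → Fin (m + 2) → R) := by
    ext a x
    show M (Equiv.swap 0 0 a.succ) x.succ = (Fin.cons y (Fin.cons w Y) :
      Fin (m + 2) → Fin (m + 2) → R) a x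
    rw [Equiv.swap_self, Equiv.refl_apply]
    refine Fin.cases ?_ (fun a => ?_) a
    · exact r1 x
    · refine Fin.cases ?_ (fun a => ?_) a
      · exact r2 x
      · exact r3 a x
  have e1 : (Matrix.of fun a x : Fin (m + 2) => M (Equiv.swap 0 (Fin.succ 0) a.succ) x.succ) =
      Matrix.of (Fin.cons z (Fin.cons w Y) : Fin (m + 2) → Fin (m + 2) → R) := by
    ext a x
    show M (Equiv.swap 0 (Fin.succ 0) a.succ) x.succ = (Fin.cons z (Fin.cons w Y) :
      Fin (m + 2) → Fin (m + 2) → R) a x
    refine Fin.cases ?_ (fun a => ?_) a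
    · rw [Equiv.swap_apply_right]
      exact r0 x
    · rw [Equiv.swap_apply_of_ne_of_ne (Fin.succ_ne_zero _)
        (fun h => Fin.succ_ne_zero _ (Fin.succ_injective _ h))]
      refine Fin.cases ?_ (fun a => ?_) a
      · exact r2 x
      · exact r3 a x
  have e2 : (Matrix.of fun a x : Fin (m + 2) =>
      M (Equiv.swap 0 (Fin.succ (Fin.succ 0)) a.succ) x.succ) =
      Matrix.of (Fin.cons y (Fin.cons z Y) : Fin (m + 2) → Fin (m + 2) → R) := by
    ext a x
    show M (Equiv.swap 0 (Fin.succ (Fin.succ 0)) a.succ) x.succ = (Fin.cons y (Fin.cons z Y) :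
      Fin (m + 2) → Fin (m + 2) → R) a x
    refine Fin.cases ?_ (fun a => ?_) a
    · rw [Equiv.swap_apply_of_ne_of_ne (Fin.succ_ne_zero _)
        (fun h => Fin.succ_ne_zero _ (Fin.succ_injective _ h).symm)]
      exact r1 x
    · refine Fin.cases ?_ (fun a => ?_) a
      · rw [Equiv.swap_apply_right]
        exact r0 x
      · rw [Equiv.swap_apply_of_ne_of_ne (Fin.succ_ne_zero _)
          (fun h => Fin.succ_ne_zero _ (Fin.succ_injective _ (Fin.succ_injective _ h)))]
        exact r3 a x
  rw [e0, e1, e2, hz, add_zero]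
  have hs := pr_swap y z Y
  unfold pr at hs ⊢
  rw [← hs]
  ring

end Pool.Agent.TSD
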