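import Pool.Agent.TSD.Defs

set_option autoImplicit false

namespace Pool.Agent.TSD

open MvPolynomial Finset

universe u v w

private theorem PrL_eq {R : Type u} [CommRing R] {n : ℕ} (z : Fin (n + 1) → R)
    (Y : Fin n → Fin (n + 1) → R) :
    pr z Y = ∑ σ : Equiv.Perm (Fin (n + 1)), z (σ 0) * ∏ i : Fin n, Y i (σ i.succ) := by
  unfold pr
  rw [← Matrix.permanent_transpose]
  simp only [Matrix.permanent, Matrix.transpose_apply, Matrix.of_apply, Fin.prod_univ_succ,
    Fin.cons_zero, Fin.cons_succ]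

/-- **PrL1** (linear in the first row).

PROOF. `Matrix.permanent` is `∑ σ, ∏ i, M (σ i) i`; use `Matrix.permanent_transpose` to get
`∑ σ, ∏ i, M i (σ i)`; `Fin.prod_univ_succ` gives `z (σ 0) * ∏ i, Y i (σ i.succ)`.  And
`z (σ 0) = ∑ j, z j * (Pi.single j 1 : _ → R) (σ 0)`. -/
theorem pr_lin {R : Type u} [CommRing R] {n : ℕ} (z : Fin (n + 1) → R)
    (Y : Fin n → Fin (n + 1) → R) :
    pr z Y = ∑ j, z j * pr (Pi.single j 1) Y := by
  simp only [PrL_eq, Finset.mul_sum]
  rw [Finset.sum_comm]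
  refine Finset.sum_congr rfl fun σ _ => ?_
  rw [Finset.sum_eq_single (σ 0)]
  · rw [Pi.single_eq_same, one_mul]
  · intro j _ hj
    rw [Pi.single_eq_of_ne (Ne.symm hj), zero_mul, mul_zero]
  · intro h
    exact absurd (Finset.mem_univ _) h

/-- **PrL2** (symmetric in the first two rows).

PROOF. The matrices are permuted into each other by exchanging the rows `0` and `1`:
`Matrix.permanent_permute_rows` (`Equiv.swap 0 1`) and `Fin.cons` computations (`Fin.cases`). -/
theorem pr_swap {R : Type u} [CommRing R] {n : ℕ} (y z : Fin (n + 2) → R)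
    (Y : Fin n → Fin (n + 2) → R) :
    pr y (Fin.cons z Y) = pr z (Fin.cons y Y) := by
  unfold pr
  rw [← Matrix.permanent_permute_cols (Equiv.swap (0 : Fin (n + 2)) 1)]
  congr 1
  ext i j
  rw [Matrix.submatrix_apply, Matrix.of_apply, Matrix.of_apply, id]
  refine Fin.cases ?_ (fun i => ?_) i
  · rw [Equiv.swap_apply_left]
    rfl
  · refine Fin.cases ?_ (fun i => ?_) i
    · have : (Fin.succ (0 : Fin (n + 1))) = 1 := rfl
      rw [this, Equiv.swap_apply_right]
      rfl
    · rw [Equiv.swap_apply_of_ne_of_ne]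
      · rfl
      · exact Fin.succ_ne_zero _
      · intro h
        have h2 : (Fin.succ (Fin.succ i)) = Fin.succ (0 : Fin (n + 1)) := h
        exact Fin.succ_ne_zero _ (Fin.succ_injective _ h2)

/-- **PrL3** (equal unit rows).

PROOF. In each term `∏ i, M i (σ i)` the factors `0` and `1` are `[k = σ 0]` and `[k = σ 1]`, and
`σ 0 ≠ σ 1`, so one of them is `0`. -/
theorem pr_unit {R : Type u} [CommRing R] {n : ℕ} (k : Fin (n + 2))
    (Y : Fin n → Fin (n + 2) → R) :
    pr (Pi.single k 1) (Fin.cons (Pi.single k 1) Y) = 0 := by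
  rw [PrL_eq]
  refine Finset.sum_eq_zero fun σ _ => ?_
  rw [Fin.prod_univ_succ]
  by_cases h : σ 0 = k
  · have h1 : σ (Fin.succ 0) ≠ k := by
      intro h1
      exact Fin.succ_ne_zero _ (σ.injective (h1.trans h.symm))
    rw [Fin.cons_zero, Pi.single_eq_of_ne h1, zero_mul, mul_zero]
  · rw [Pi.single_eq_of_ne h, zero_mul]

/-- **PrL4** (base change).

PROOF. `Matrix.permanent` is a sum of products: `map_sum`, `map_prod`; the entries by `Fin.cases`. -/
theorem pr_map {R : Type u} {R' : Type v} [CommRing R] [CommRing R'] (φ : R →+* R') {n : ℕ}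
    (z : Fin (n + 1) → R) (Y : Fin n → Fin (n + 1) → R) :
    φ (pr z Y) = pr (fun j => φ (z j)) (fun i j => φ (Y i j)) := by
  simp only [PrL_eq, map_sum, map_mul, map_prod]

/-- **PrL5** (homogeneous).

PROOF. Each term `z (σ 0) * ∏ i, Y i (σ i.succ)` is homogeneous of degree `β + ∑ i, α i`
(`IsHomogeneous.mul`, `IsHomogeneous.prod`), `IsHomogeneous.sum`. -/
theorem pr_hom {R : Type u} [CommRing R] {σ : Type v} {n : ℕ} (z : Fin (n + 1) → MvPolynomial σ R)
    (Y : Fin n → Fin (n + 1) → MvPolynomial σ R) (β : ℕ) (α : Fin n → ℕ)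
    (hz : ∀ j, (z j).IsHomogeneous β) (hY : ∀ i j, (Y i j).IsHomogeneous (α i)) :
    (pr z Y).IsHomogeneous (β + ∑ i, α i) := by
  rw [PrL_eq]
  refine IsHomogeneous.sum _ _ _ fun τ _ => ?_
  exact (hz _).mul (IsHomogeneous.prod _ _ _ fun i _ => hY i _)

end Pool.Agent.TSD
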