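import Pool.Agent.TSD.Main
import Pool.Agent.TSD.GnF
import Pool.Agent.TSD.CoE
import Pool.Agent.TSD.Co3
import Pool.Agent.TSD.DefsB

set_option autoImplicit false

namespace Pool.Agent.TSD

open MvPolynomial Finset

universe u

theorem symBorder_of_exact (k : Type u) [Field k] {n c : ℕ} (κ : Fin n → Fin c) (N : ℕ)
    (h : SymDetLE k κ N) : SymBorderDetLE k κ N := by
  obtain ⟨M, hM, hdet, hR⟩ := h
  exact ⟨_, coE1 M hM hdet, coE2 κ M hR⟩

theorem res_lower (k : Type u) [Field k] (h2 : (2 : k) ≠ 0) (n : ℕ) (hn : 3 ≤ n) (c N : ℕ)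
    (κ : Fin n → Fin c) (h : SymDetLE k κ N ∨ SymBorderDetLE k κ N) :
    1 + ∑ m ∈ Ico 1 n, n.choose m / W κ m ≤ N ∧
      ∏ j, (1 + #{i | κ i = j}) ≤ ((n + 1) * N) ^ 2 ∧
      (Function.Injective κ → 2 ^ n - 1 ≤ N) := by
  obtain ⟨M, hB, hR⟩ : SymBorderDetLE k κ N := by
    rcases h with h | h
    · exact symBorder_of_exact k κ N h
    · exact h
  have h := main h2 hn κ M hB hR
  refine ⟨h, co3 (by omega) κ h, fun hκ => ?_⟩
  rw [← co1 (by omega) κ hκ]
  exact h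

end Pool.Agent.TSD
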