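import Pool.Agent.TSD.Defs

set_option autoImplicit false

namespace Pool.Agent.TSD

open MvPolynomial Finset

universe u v w

/-- **Sing**.  If the rows `p` vanish outside of the columns `q` and there are fewer columns `q` than
rows `p`, the determinant is zero.

PROOF. `Matrix.det_apply` (or of the transpose, `Matrix.det_transpose`): for every permutation `σ` there is
`i` with `p i` and `¬ q (σ i)`; otherwise `σ` maps `{i | p i}` injectively into `{i | q i}`
(`Finset.card_le_card_of_injOn`).  So every term of the sum contains a zero (`Finset.prod_eq_zero`). -/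
theorem sing {S : Type u} [CommRing S] {ι : Type v} [DecidableEq ι] [Fintype ι] (p q : ι → Prop)
    [DecidablePred p] [DecidablePred q] (Z : Matrix ι ι S) (hc : #{i | q i} < #{i | p i})
    (hZ : ∀ i m, p i → ¬ q m → Z i m = 0) : Z.det = 0 := by
  rw [← Matrix.det_transpose, Matrix.det_apply]
  refine Finset.sum_eq_zero fun σ _ => ?_
  have h : ∃ i, p i ∧ ¬ q (σ i) := by
    by_contra hcon
    push Not at hcon
    have h1 : #{i | p i} ≤ #{i | q i} := by
      apply Finset.card_le_card_of_injOn σ
      · intro i hi
        have hi' : p i := by simpa using hi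
        simpa using hcon i hi'
      · intro i _ j _ hij
        exact σ.injective hij
    omega
  obtain ⟨i, hi, hqi⟩ := h
  rw [Finset.prod_eq_zero (Finset.mem_univ i), smul_zero]
  rw [Matrix.transpose_apply]
  exact hZ i (σ i) hi hqi

end Pool.Agent.TSD
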