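import Pool.Agent.TSD.Defs

set_option autoImplicit false

namespace Pool.Agent.TSD

open MvPolynomial Finset
open Pool.Agent.H53.AC

universe u v w

theorem sp_z {k : Type u} [Field k] {a : k} (h : SpecializesTo (0 : RatFunc k) a) : a = 0 := by
  obtain ⟨P, Q, hQ, hPQ, rfl⟩ := h
  have hQ0 : Q ≠ 0 := by
    rintro rfl
    simp at hQ
  have h1 : algebraMap (Polynomial k) (RatFunc k) Q ≠ 0 := by
    rw [Ne, FaithfulSMul.algebraMap_eq_zero_iff]
    exact hQ0
  have h2 : algebraMap (Polynomial k) (RatFunc k) P = 0 := by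
    rw [eq_comm, div_eq_zero_iff] at hPQ
    rcases hPQ with h | h
    · exact h
    · exact absurd h h1
  rw [FaithfulSMul.algebraMap_eq_zero_iff] at h2
  rw [h2]
  simp

/-- **SpL1**.  PROOF. `P = Polynomial.C a`, `Q = 1`; `algebraMap k (RatFunc k) a = algebraMap (Polynomial k) _ (C a)`
(`IsScalarTower.algebraMap_apply`, `RatFunc.algebraMap_C`...). -/
theorem sp_c {k : Type u} [Field k] (a : k) : SpecializesTo (algebraMap k (RatFunc k) a) a := by
  refine ⟨Polynomial.C a, 1, by simp, ?_, by simp⟩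
  rw [map_one, div_one, IsScalarTower.algebraMap_apply k (Polynomial k) (RatFunc k) a]
  rfl

/-- **SpL2**.  PROOF. `P1 / Q1 + P2 / Q2 = (P1 Q2 + P2 Q1) / (Q1 Q2)`; the images of `Q1`, `Q2` in `RatFunc k` are
nonzero because `Q.eval 0 ≠ 0` implies `Q ≠ 0` (see the proof of `sp_z`). -/
theorem sp_add {k : Type u} [Field k] {x y : RatFunc k} {a b : k} (h : SpecializesTo x a)
    (h' : SpecializesTo y b) : SpecializesTo (x + y) (a + b) := by
  obtain ⟨P, Q, hQ, rfl, rfl⟩ := h
  obtain ⟨P', Q', hQ', rfl, rfl⟩ := h'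
  have hne : ∀ R : Polynomial k, R.eval 0 ≠ 0 → algebraMap (Polynomial k) (RatFunc k) R ≠ 0 := by
    intro R hR
    rw [Ne, FaithfulSMul.algebraMap_eq_zero_iff]
    rintro rfl
    simp at hR
  refine ⟨P * Q' + P' * Q, Q * Q', ?_, ?_, ?_⟩
  · rw [Polynomial.eval_mul]
    exact mul_ne_zero hQ hQ'
  · rw [map_add, map_mul, map_mul, map_mul]
    have h1 := hne Q hQ
    have h2 := hne Q' hQ'
    field_simp
  · rw [Polynomial.eval_add, Polynomial.eval_mul, Polynomial.eval_mul, Polynomial.eval_mul]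
    field_simp

/-- **SpL3**.  PROOF. `(P1 / Q1) * (P2 / Q2)`. -/
theorem sp_mul {k : Type u} [Field k] {x y : RatFunc k} {a b : k} (h : SpecializesTo x a)
    (h' : SpecializesTo y b) : SpecializesTo (x * y) (a * b) := by
  obtain ⟨P, Q, hQ, rfl, rfl⟩ := h
  obtain ⟨P', Q', hQ', rfl, rfl⟩ := h'
  refine ⟨P * P', Q * Q', ?_, ?_, ?_⟩
  · rw [Polynomial.eval_mul]
    exact mul_ne_zero hQ hQ'
  · rw [map_mul, map_mul, div_mul_div_comm]
  · rw [Polynomial.eval_mul, Polynomial.eval_mul, div_mul_div_comm]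

/-- **SpL4**.  PROOF. Induction on the finset. -/
theorem sp_sum {k : Type u} [Field k] {ι : Type v} (s : Finset ι) (x : ι → RatFunc k)
    (a : ι → k) (h : ∀ i ∈ s, SpecializesTo (x i) (a i)) :
    SpecializesTo (∑ i ∈ s, x i) (∑ i ∈ s, a i) := by
  classical
  induction s using Finset.induction_on with
  | empty =>
    rw [Finset.sum_empty, Finset.sum_empty]
    have h0 := sp_c (0 : k)
    rwa [map_zero] at h0
  | insert i s hi ih =>
    rw [Finset.sum_insert hi, Finset.sum_insert hi]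
    exact sp_add (h i (Finset.mem_insert_self i s))
      (ih fun j hj => h j (Finset.mem_insert_of_mem hj))

/-- **SpL5**.  PROOF. Induction on the finset. -/
theorem sp_prod {k : Type u} [Field k] {ι : Type v} (s : Finset ι) (x : ι → RatFunc k)
    (a : ι → k) (h : ∀ i ∈ s, SpecializesTo (x i) (a i)) :
    SpecializesTo (∏ i ∈ s, x i) (∏ i ∈ s, a i) := by
  classical
  induction s using Finset.induction_on with
  | empty =>
    rw [Finset.prod_empty, Finset.prod_empty]
    have h0 := sp_c (1 : k)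
    rwa [map_one] at h0
  | insert i s hi ih =>
    rw [Finset.prod_insert hi, Finset.prod_insert hi]
    exact sp_mul (h i (Finset.mem_insert_self i s))
      (ih fun j hj => h j (Finset.mem_insert_of_mem hj))

/-- **SpL6**.  PROOF. `Matrix.det_apply'`: sums, products, and the signs `((sign σ : ℤ) : RatFunc k) =
algebraMap k _ ((sign σ : ℤ) : k)` (SpL1, `map_intCast`). -/
theorem sp_det {k : Type u} [Field k] {ι : Type v} [DecidableEq ι] [Fintype ι]
    (A : Matrix ι ι (RatFunc k)) (B : Matrix ι ι k) (h : ∀ i j, SpecializesTo (A i j) (B i j)) :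
    SpecializesTo A.det B.det := by
  rw [Matrix.det_apply', Matrix.det_apply']
  refine sp_sum _ _ _ fun σ _ => sp_mul ?_ (sp_prod _ _ _ fun i _ => h _ _)
  have h0 := sp_c (((Equiv.Perm.sign σ : ℤˣ) : ℤ) : k)
  rwa [map_intCast] at h0

end Pool.Agent.TSD
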