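import Pool.Agent.TSD.Defs

set_option autoImplicit false

namespace Pool.Agent.TSD

open MvPolynomial Finset

universe u v w

/-- **SymC1**.  Coefficients of a rescaled polynomial.

PROOF. `rescale` multiplies the monomial `m` by `∏ p, (s p.1 * t (κ p.2)) ^ m p`.  Induction on `f`
(`MvPolynomial.induction_on'` or write `f = ∑ monomial`): `rescale (monomial m c) =
monomial m (c * ∏ ...)`: `aeval_monomial`, `Finsupp.prod`, `mul_pow`, `prod_mul_distrib`,
`MvPolynomial.monomial_eq`; the product over `m.support` equals the product over `univ` since the other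
exponents are zero. -/
theorem coeff_rescale {L : Type u} [Field L] {n c : ℕ} (κ : Fin n → Fin c)
    (s : Fin n → L) (t : Fin c → L) (f : MvPolynomial (Fin n × Fin n) L)
    (m : (Fin n × Fin n) →₀ ℕ) :
    coeff m (rescale κ s t f) = (∏ p, (s p.1 * t (κ p.2)) ^ m p) * coeff m f := by
  classical
  have hmon : ∀ (a : (Fin n × Fin n) →₀ ℕ) (r : L), rescale κ s t (monomial a r) =
      C (∏ p, (s p.1 * t (κ p.2)) ^ a p) * monomial a r := by
    intro a r
    rw [rescale, aeval_monomial, Finsupp.prod_fintype _ _ (fun i => by simp), monomial_eq,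
      Finsupp.prod_fintype _ _ (fun i => by simp)]
    simp only [mul_pow, Finset.prod_mul_distrib, map_prod, map_mul, map_pow, algebraMap_eq]
    ring
  induction f using MvPolynomial.induction_on' with
  | monomial a r =>
    rw [hmon, coeff_C_mul]
    by_cases h : m = a
    · rw [h]
    · rw [coeff_monomial, if_neg (fun e => h e.symm), mul_zero, mul_zero]
  | add f g hf hg =>
    rw [map_add, coeff_add, coeff_add, hf, hg, mul_add]

/-- **SymC2**.  The symmetry in terms of the coefficient matrices.

PROOF. Take the coefficient of `mo o` on both sides of `h`, entry by entry: on the left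
`∑ j, coeff (mo o) (rescale (M i j)) * Q j k` (`coeff_mul_C`), and by SymC1 the factor is
`∏ p, (...) ^ (mo o p) = wt κ s t o` (for `o = none` all exponents are `0`; for `o = some p` use
`Finset.prod_eq_single p`, `Finsupp.single_apply`); on the right `∑ j, P i j * coeff (mo o) (M j k)`. -/
theorem symCoeff {L : Type u} [Field L] {n c N : ℕ} (κ : Fin n → Fin c)
    (s : Fin n → L) (t : Fin c → L)
    (M : Matrix (Fin N) (Fin N) (MvPolynomial (Fin n × Fin n) L))
    (P Q : Matrix (Fin N) (Fin N) L)
    (h : M.map (rescale κ s t) * Q.map C = P.map C * M) (o : Option (Fin n × Fin n)) :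
    wt κ s t o • (cm M o * Q) = P * cm M o := by
  classical
  have hw : (∏ p, (s p.1 * t (κ p.2)) ^ (mo o p)) = wt κ s t o := by
    cases o with
    | none => simp [mo, wt]
    | some p =>
      rw [Finset.prod_eq_single p]
      · simp [mo, wt]
      · intro b _ hb
        have : mo (some p) b = 0 := by
          simp only [mo, Option.elim_some]
          exact Finsupp.single_eq_of_ne hb
        rw [this, pow_zero]
      · intro h
        exact absurd (Finset.mem_univ p) h
  ext i k
  have h1 := congrFun (congrFun h i) k
  simp only [Matrix.mul_apply, Matrix.map_apply] at h1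
  have h2 := congrArg (coeff (mo o)) h1
  have hmc : ∀ (g : MvPolynomial (Fin n × Fin n) L) (a : L), coeff (mo o) (g * C a) =
      coeff (mo o) g * a := fun g a => by rw [mul_comm, coeff_C_mul, mul_comm]
  simp only [coeff_sum, hmc, coeff_C_mul, coeff_rescale, hw] at h2
  simp only [Matrix.smul_apply, Matrix.mul_apply, cm, Matrix.map_apply, smul_eq_mul,
    Finset.mul_sum]
  rw [← h2]
  exact Finset.sum_congr rfl fun j _ => by ring

/-- **SymC3**.  The determinant is multiplied by a constant.

PROOF. Determinants of both sides of `h`: `(M.map (rescale κ s t)).det = rescale κ s t M.det`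
(`AlgHom.map_det` / `RingHom.map_det`), `(Q.map C).det = C Q.det`.  So `rescale M.det * C Q.det =
C P.det * M.det`. -/
theorem symDet {L : Type u} [Field L] {n c N : ℕ} (κ : Fin n → Fin c)
    (s : Fin n → L) (t : Fin c → L)
    (M : Matrix (Fin N) (Fin N) (MvPolynomial (Fin n × Fin n) L))
    (P Q : Matrix (Fin N) (Fin N) L)
    (h : M.map (rescale κ s t) * Q.map C = P.map C * M) :
    rescale κ s t M.det * C Q.det = C P.det * M.det := by
  have h1 := congrArg Matrix.det h
  rw [Matrix.det_mul, Matrix.det_mul] at h1
  have e1 : (M.map (rescale κ s t)).det = rescale κ s t M.det := by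
    rw [AlgHom.map_det]
    rfl
  have e2 : ∀ A : Matrix (Fin N) (Fin N) L, (A.map (C : L →+* MvPolynomial (Fin n × Fin n) L)).det
      = C A.det := by
    intro A
    rw [RingHom.map_det]
    rfl
  rw [e1, e2, e2] at h1
  exact h1

end Pool.Agent.TSD
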