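import Pool.Agent.TSD.PrL

set_option autoImplicit false

namespace Pool.Agent.TSD

open MvPolynomial Finset

universe u v w

private theorem TfB_perm3 {R : Type*} [CommRing R] (M : Matrix (Fin 3) (Fin 3) R) :
    M.permanent = M 0 0 * M 1 1 * M 2 2 + M 0 0 * M 2 1 * M 1 2 + M 1 0 * M 0 1 * M 2 2 +
      M 1 0 * M 2 1 * M 0 2 + M 2 0 * M 0 1 * M 1 2 + M 2 0 * M 1 1 * M 0 2 := by
  have h : (Finset.univ : Finset (Equiv.Perm (Fin 3))) =
      {1, Equiv.swap 1 2, Equiv.swap 0 1, Equiv.swap 0 1 * Equiv.swap 1 2,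
        Equiv.swap 1 2 * Equiv.swap 0 1, Equiv.swap 0 2} := by decide
  unfold Matrix.permanent
  rw [h]
  rw [Finset.sum_insert (by decide), Finset.sum_insert (by decide), Finset.sum_insert (by decide),
    Finset.sum_insert (by decide), Finset.sum_insert (by decide), Finset.sum_singleton]
  simp [Fin.prod_univ_three, Equiv.swap_apply_def]
  ring

private noncomputable def TfB_Y (k : Type*) [Field k] :
    Fin 2 → Fin 3 → MvPolynomial (Fin 3) k :=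
  ![![X 0, X 1, X 2], ![X 1, X 2, X 0]]

private theorem TfB_pr {k : Type*} [Field k] (z : Fin 3 → MvPolynomial (Fin 3) k) :
    pr z (TfB_Y k) = z 0 * (X 1 * X 0 + X 2 * X 2) + z 1 * (X 0 * X 0 + X 2 * X 1) +
      z 2 * (X 0 * X 2 + X 1 * X 1) := by
  unfold pr
  rw [TfB_perm3]
  simp only [Matrix.of_apply]
  have c0 : (Fin.cons z (TfB_Y k) : Fin 3 → Fin 3 → MvPolynomial (Fin 3) k) 0 = z := rfl
  have c1 : (Fin.cons z (TfB_Y k) : Fin 3 → Fin 3 → MvPolynomial (Fin 3) k) 1 =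
      ![X 0, X 1, X 2] := rfl
  have c2 : (Fin.cons z (TfB_Y k) : Fin 3 → Fin 3 → MvPolynomial (Fin 3) k) 2 =
      ![X 1, X 2, X 0] := rfl
  rw [c0, c1, c2]
  simp
  ring

/-- **TfB** (the first test family).

PROOF. `α = 1`, `Y = ![![X 0, X 1, X 2], ![X 1, X 2, X 0]]`.  With `n = 2`, `pr z Y` is the permanent of
a `3 × 3` matrix... here `m = 1`: `Y : Fin 2 → Fin 3 → _` and
`pr (Pi.single j 1) Y` is the permanent of the `2 × 2` matrix of the columns `≠ j` of `Y`: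
`P0 = X 1 * X 0 + X 2 * X 2`, `P1 = X 0 * X 0 + X 2 * X 1`, `P2 = X 0 * X 2 + X 1 * X 1`
(expand with `Matrix.permanent`, `Equiv.Perm (Fin 3)`: `Fin.sum_univ_succ`-like lemmas do not apply to
permutations; use `Finset.univ_perm_fin_succ`/`decide`-free expansion, or `Matrix.permanent` and
`simp [Matrix.permanent, Finset.univ_perm_fin_succ, ...]` as in `Matrix.det_fin_three`; or first `pr_lin` and
direct computation).
`pos`, `hom`: `isHomogeneous_X`.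
`full` with `D = 4`: `2 * X 0 ^ 2 * X 1 = X 0 * P0 + X 1 * P1 - X 2 * P2`, so
`X 0 ^ 4 = X 0 ^ 2 * P1 - C (1/2) * X 2 * (X 0 * P0 + X 1 * P1 - X 2 * P2)`.  Similarly
`2 * X 1 ^ 2 * X 2 = -X 0 * P0 + X 1 * P1 + X 2 * P2` and `X 1 ^ 4 = X 1 ^ 2 * P2 - X 0 * (X 1 ^ 2 * X 2)`;
`2 * X 0 * X 2 ^ 2 = X 0 * P0 - X 1 * P1 + X 2 * P2` and `X 2 ^ 4 = X 2 ^ 2 * P0 - X 1 * (X 0 * X 2 ^ 2)`.
(`C (1/2) * 2 = 1` as `2 ≠ 0`.)
`diag`: `pr (Y 0) Y = X 0 * P0 + X 1 * P1 + X 2 * P2 = C 2 * X 1 ^ 2 * X 2 + X 0 * (2 * X 0 * X 1 + 2 * X 2 ^ 2)`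
(`pr_lin`), `e = 2`, `a = 2`, `b = 1`. -/
theorem tfB {k : Type u} [Field k] (h2 : (2 : k) ≠ 0) :
    ∃ (α : Fin 2 → ℕ) (Y : Fin 2 → Fin 3 → MvPolynomial (Fin 3) k), Good k 1 α Y := by
  have hC : (C (1 / 2 : k) : MvPolynomial (Fin 3) k) * 2 = 1 := by
    have : (2 : MvPolynomial (Fin 3) k) = C 2 := (map_ofNat C 2).symm
    rw [this, ← C_mul]
    simp [h2]
  refine ⟨fun _ => 1, TfB_Y k, ?_, ?_, ?_, ?_⟩
  · intro i
    exact le_rfl
  · intro i j
    fin_cases i <;> fin_cases j <;> exact isHomogeneous_X k _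
  · refine ⟨4, fun l => ?_⟩
    have hm : ∀ j : Fin 3, pr (Pi.single j 1) (TfB_Y k) ∈
        Ideal.span (Set.range fun j => pr (Pi.single j 1) (TfB_Y k)) :=
      fun j => Ideal.subset_span ⟨j, rfl⟩
    have h0 : pr (Pi.single 0 1) (TfB_Y k) = X 1 * X 0 + X 2 * X 2 := by
      rw [TfB_pr]; simp
    have h1 : pr (Pi.single 1 1) (TfB_Y k) = X 0 * X 0 + X 2 * X 1 := by
      rw [TfB_pr]; simp
    have h2' : pr (Pi.single 2 1) (TfB_Y k) = X 0 * X 2 + X 1 * X 1 := by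
      rw [TfB_pr]; simp
    have m0 := hm 0
    have m1 := hm 1
    have m2 := hm 2
    rw [h0] at m0
    rw [h1] at m1
    rw [h2'] at m2
    set I := Ideal.span (Set.range fun j => pr (Pi.single j 1) (TfB_Y k)) with hI
    have key : ∀ a b c : MvPolynomial (Fin 3) k, a * (X 1 * X 0 + X 2 * X 2) +
        b * (X 0 * X 0 + X 2 * X 1) + c * (X 0 * X 2 + X 1 * X 1) ∈ I := fun a b c =>
      I.add_mem (I.add_mem (I.mul_mem_left _ m0) (I.mul_mem_left _ m1)) (I.mul_mem_left _ m2)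
    fin_cases l
    · have e : (X 0 : MvPolynomial (Fin 3) k) ^ 4 =
          (-(C (1 / 2) * X 2 * X 0)) * (X 1 * X 0 + X 2 * X 2) +
          (X 0 ^ 2 - C (1 / 2) * X 2 * X 1) * (X 0 * X 0 + X 2 * X 1) +
          (C (1 / 2) * X 2 * X 2) * (X 0 * X 2 + X 1 * X 1) := by
        linear_combination (X 0 ^ 2 * X 1 * X 2 : MvPolynomial (Fin 3) k) * hC
      have := key (-(C (1 / 2) * X 2 * X 0)) (X 0 ^ 2 - C (1 / 2) * X 2 * X 1)
        (C (1 / 2) * X 2 * X 2)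
      rw [← e] at this
      exact this
    · have e : (X 1 : MvPolynomial (Fin 3) k) ^ 4 =
          (C (1 / 2) * X 0 * X 0) * (X 1 * X 0 + X 2 * X 2) +
          (-(C (1 / 2) * X 0 * X 1)) * (X 0 * X 0 + X 2 * X 1) +
          (X 1 ^ 2 - C (1 / 2) * X 0 * X 2) * (X 0 * X 2 + X 1 * X 1) := by
        linear_combination (X 0 * X 1 ^ 2 * X 2 : MvPolynomial (Fin 3) k) * hC
      have := key (C (1 / 2) * X 0 * X 0) (-(C (1 / 2) * X 0 * X 1))
        (X 1 ^ 2 - C (1 / 2) * X 0 * X 2)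
      rw [← e] at this
      exact this
    · have e : (X 2 : MvPolynomial (Fin 3) k) ^ 4 =
          (X 2 ^ 2 - C (1 / 2) * X 1 * X 0) * (X 1 * X 0 + X 2 * X 2) +
          (C (1 / 2) * X 1 * X 1) * (X 0 * X 0 + X 2 * X 1) +
          (-(C (1 / 2) * X 1 * X 2)) * (X 0 * X 2 + X 1 * X 1) := by
        linear_combination (X 0 * X 1 * X 2 ^ 2 : MvPolynomial (Fin 3) k) * hC
      have := key (X 2 ^ 2 - C (1 / 2) * X 1 * X 0) (C (1 / 2) * X 1 * X 1)
        (-(C (1 / 2) * X 1 * X 2))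
      rw [← e] at this
      exact this
  · refine ⟨2, 2, 1, 2 * X 0 * X 1 + 2 * X 2 ^ 2, h2, ?_⟩
    rw [TfB_pr]
    have y0 : TfB_Y k 0 = ![X 0, X 1, X 2] := rfl
    rw [y0]
    have : (C 2 : MvPolynomial (Fin 3) k) = 2 := map_ofNat C 2
    rw [this]
    simp
    ring

end Pool.Agent.TSD
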